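import Pool.Agent.V11288.QU.App2

/-! Quotients: representations of finite groups. -/

set_option autoImplicit false

open Filter Topology Set NumberField IsDedekindDomain MeasureTheory
open Pool.Agent.TH942.ES
open Pool.Agent.V11288.HS
open scoped ENNReal

namespace Pool.Agent.V11288.QU.App

open Pool.Agent.V11288.HS.EX (nrm factor nal nrm_two zv_eq factor_eq)

theorem ofFn_of_length {m : ℕ} (l : List ℂ) (h : l.length = m) : ∃ a : Fin m → ℂ, List.ofFn a = l := by
  subst h
  exact ⟨l.get, List.ofFn_get l⟩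

/-- the eigenvalues of a matrix, enumerated -/
theorem exists_enum {n : ℕ} (M : Matrix (Fin n) (Fin n) ℂ) :
    ∃ a : Fin n → ℂ, Multiset.map a Finset.univ.val = M.charpoly.roots := by
  obtain ⟨l, hl⟩ := Quot.exists_rep M.charpoly.roots
  have hl' : (l : Multiset ℂ) = M.charpoly.roots := hl
  have h1 : M.charpoly.roots.card = n := by
    rw [IsAlgClosed.card_roots_eq_natDegree, Matrix.charpoly_natDegree_eq_dim, Fintype.card_fin]
  rw [← hl', Multiset.coe_card] at h1
  obtain ⟨a, ha⟩ := ofFn_of_length l h1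
  refine ⟨a, ?_⟩
  rw [Fin.univ_val_map, ha, hl']

/-- the eigenvalues of a matrix -/
noncomputable def enum {n : ℕ} (M : Matrix (Fin n) (Fin n) ℂ) : Fin n → ℂ := (exists_enum M).choose

theorem enum_spec {n : ℕ} (M : Matrix (Fin n) (Fin n) ℂ) :
    Multiset.map (enum M) Finset.univ.val = M.charpoly.roots := (exists_enum M).choose_spec

theorem enum_sum {n : ℕ} (M : Matrix (Fin n) (Fin n) ℂ) (f : ℂ → ℂ) :
    (M.charpoly.roots.map f).sum = ∑ i, f (enum M i) := by
  rw [← enum_spec, Multiset.map_map]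
  rfl

theorem enum_prod {n : ℕ} (M : Matrix (Fin n) (Fin n) ℂ) (f : ℂ → ℂ) :
    (M.charpoly.roots.map f).prod = ∏ i, f (enum M i) := by
  rw [← enum_spec, Multiset.map_map]
  rfl

theorem enum_mem {n : ℕ} (M : Matrix (Fin n) (Fin n) ℂ) (i : Fin n) :
    enum M i ∈ M.charpoly.roots := by
  rw [← enum_spec]
  exact Multiset.mem_map_of_mem _ (Finset.mem_univ i)

/-- the eigenvalues of a matrix of finite order are roots of unity -/
theorem enum_norm {G : Type} [Group G] [Finite G] {n : ℕ} (ρ : G →* Matrix (Fin n) (Fin n) ℂ) (g : G)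
    (i : Fin n) : ‖enum (ρ g) i‖ = 1 := by
  have h1 := enum_mem (ρ g) i
  have h2 : (ρ g).charpoly.IsRoot (enum (ρ g) i) := Polynomial.isRoot_of_mem_roots h1
  have h3 : enum (ρ g) i ∈ spectrum ℂ (ρ g) := Matrix.mem_spectrum_iff_isRoot_charpoly.2 h2
  have h4 := spectrum.pow_mem_pow (ρ g) (Nat.card G) h3
  rw [← map_pow, pow_card_eq_one', map_one] at h4
  have hn : Nonempty (Fin n) := ⟨i⟩
  rw [spectrum.one_eq, mem_singleton_iff] at h4
  exact Complex.norm_eq_one_of_pow_eq_one h4 Nat.card_pos.ne'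

end Pool.Agent.V11288.QU.App
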