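import Pool.Agent.V11288.QU.Cx2
import Pool.Agent.V11288.QU.Artin

/-!
# Euler products over the rational primes with arbitrary matrices
-/

set_option autoImplicit false

open MeasureTheory Filter Topology Set Complex
open scoped ENNReal ComplexConjugate

namespace Pool.Agent.V11288.QU.Sat

open Cx

variable {P : Set Nat.Primes} {m : ℕ}

theorem two_le (p : P) : (2 : ℝ) ≤ (p.1 : ℕ) := by exact_mod_cast p.1.2.two_le

/-- the frequencies -/
noncomputable def lamP (i : P × ℕ) : ℝ := ((i.2 : ℝ) + 1) * Real.log (i.1.1 : ℕ)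

/-- the coefficients of `log L` -/
noncomputable def cP (A : P → Matrix (Fin m) (Fin m) ℂ) (i : P × ℕ) : ℂ :=
  (∑ j, App.enum (A i.1) j ^ (i.2 + 1)) / ((i.2 : ℂ) + 1)

theorem lamP_ge (i : P × ℕ) : Real.log 2 ≤ lamP i := by
  have h2 := two_le i.1
  have h1 : Real.log 2 ≤ Real.log (i.1.1 : ℕ) := Real.log_le_log (by norm_num) h2
  have h3 : 0 < Real.log 2 := Real.log_pos (by norm_num)
  have h4 : (0 : ℝ) ≤ i.2 := i.2.cast_nonneg
  unfold lamP
  nlinarith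

theorem xP (s : ℂ) (i : P × ℕ) : exp (-(s * lamP i)) = (((i.1.1 : ℕ) : ℂ) ^ (-s)) ^ (i.2 + 1) := by
  have h2 := two_le i.1
  have h0 : (0 : ℝ) < (i.1.1 : ℕ) := by linarith
  have hc : (((i.1.1 : ℕ) : ℂ)) ≠ 0 := by exact_mod_cast h0.ne'
  have hl : Complex.log ((i.1.1 : ℕ) : ℂ) = (Real.log ((i.1.1 : ℕ) : ℝ) : ℂ) := by
    rw [Complex.ofReal_log h0.le]
    push_cast
    rfl
  rw [Complex.cpow_def_of_ne_zero hc, hl, ← Complex.exp_nat_mul]
  congr 1
  unfold lamP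
  push_cast
  ring

theorem normP (s : ℂ) (p : P) : ‖((p.1 : ℕ) : ℂ) ^ (-s)‖ = ((p.1 : ℕ) : ℝ) ^ (-s.re) := by
  rw [Complex.norm_natCast_cpow_of_pos p.1.2.pos, Complex.neg_re]

/-- the bound for the eigenvalues -/
def Bd (θ : ℝ) (A : P → Matrix (Fin m) (Fin m) ℂ) : Prop :=
  ∀ p : P, ∀ x ∈ (A p).charpoly.roots, ‖x‖ ≤ ((p.1 : ℕ) : ℝ) ^ θ

variable {θ : ℝ} {A : P → Matrix (Fin m) (Fin m) ℂ}

theorem enum_le (hA : Bd θ A) (p : P) (j : Fin m) : ‖App.enum (A p) j‖ ≤ ((p.1 : ℕ) : ℝ) ^ θ :=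
  hA p _ (App.enum_mem _ _)

theorem cP_le (hA : Bd θ A) (i : P × ℕ) : ‖cP A i‖ ≤ m * (((i.1.1 : ℕ) : ℝ) ^ θ) ^ (i.2 + 1) := by
  unfold cP
  have h4 : (0 : ℝ) ≤ i.2 := i.2.cast_nonneg
  have h5 : ‖((i.2 : ℂ) + 1)‖ = (i.2 : ℝ) + 1 := by
    have : ((i.2 : ℂ) + 1) = (((i.2 : ℝ) + 1 : ℝ) : ℂ) := by push_cast; rfl
    rw [this, Complex.norm_real, Real.norm_of_nonneg (by positivity)]
  rw [norm_div, h5]
  refine (div_le_self (norm_nonneg _) (by linarith)).trans ?_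
  refine (norm_sum_le _ _).trans ?_
  calc ∑ j, ‖App.enum (A i.1) j ^ (i.2 + 1)‖ ≤ ∑ _j : Fin m, (((i.1.1 : ℕ) : ℝ) ^ θ) ^ (i.2 + 1) := by
        refine Finset.sum_le_sum fun j _ => ?_
        rw [norm_pow]
        exact pow_le_pow_left₀ (norm_nonneg _) (enum_le hA i.1 j) _
    _ = _ := by rw [Finset.sum_const, Finset.card_univ, Fintype.card_fin, nsmul_eq_mul]

theorem primes_summable {x : ℝ} (hx : 1 < x) : Summable fun p : P => ((p.1 : ℕ) : ℝ) ^ (-x) := by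
  have h1 : Summable fun n : ℕ => (n : ℝ) ^ (-x) := Real.summable_nat_rpow.2 (by linarith)
  have h2 : Function.Injective fun p : P => (p.1 : ℕ) := by
    intro p q h
    exact Subtype.ext (Subtype.ext h)
  exact h1.comp_injective h2

theorem summP_norm (hA : Bd θ A) {s : ℂ} (hs : θ + 1 < s.re) :
    Summable fun i : P × ℕ => ‖cP A i * exp (-(s * lamP i))‖ := by
  have h1 : Summable fun p : P => (m : ℝ) * ((p.1 : ℕ) : ℝ) ^ (-(s.re - θ)) :=
    (primes_summable (by linarith)).mul_left _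
  have h2 : Summable fun k : ℕ => (1 / 2 : ℝ) ^ k := summable_geometric_two
  refine Summable.of_nonneg_of_le (fun i => norm_nonneg _) (fun i => ?_)
    (h1.mul_of_nonneg h2 (fun v => by positivity) (fun k => by positivity))
  have h3 := two_le i.1
  have h0 : (0 : ℝ) < ((i.1.1 : ℕ) : ℝ) := by linarith
  rw [xP, norm_mul, norm_pow, normP]
  have e1 : (((i.1.1 : ℕ) : ℝ) ^ θ) ^ (i.2 + 1) * (((i.1.1 : ℕ) : ℝ) ^ (-s.re)) ^ (i.2 + 1) =
      ((i.1.1 : ℕ) : ℝ) ^ (-(s.re - θ)) * (((i.1.1 : ℕ) : ℝ) ^ (-(s.re - θ))) ^ i.2 := by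
    rw [← mul_pow, ← Real.rpow_add h0, pow_succ']
    congr 2
    · congr 1
      ring
    · congr 1
      ring
  have e2 : ((i.1.1 : ℕ) : ℝ) ^ (-(s.re - θ)) ≤ 1 / 2 := by
    calc ((i.1.1 : ℕ) : ℝ) ^ (-(s.re - θ)) ≤ ((i.1.1 : ℕ) : ℝ) ^ (-(1 : ℝ)) :=
          Real.rpow_le_rpow_of_exponent_le (by linarith) (by linarith)
      _ = (((i.1.1 : ℕ) : ℝ))⁻¹ := Real.rpow_neg_one _
      _ ≤ 1 / 2 := by
        rw [one_div]
        gcongr
  calc ‖cP A i‖ * (((i.1.1 : ℕ) : ℝ) ^ (-s.re)) ^ (i.2 + 1) ≤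
        m * (((i.1.1 : ℕ) : ℝ) ^ θ) ^ (i.2 + 1) * (((i.1.1 : ℕ) : ℝ) ^ (-s.re)) ^ (i.2 + 1) := by
        gcongr
        exact cP_le hA i
    _ = m * (((i.1.1 : ℕ) : ℝ) ^ (-(s.re - θ)) * (((i.1.1 : ℕ) : ℝ) ^ (-(s.re - θ))) ^ i.2) := by
        rw [mul_assoc, e1]
    _ ≤ m * (((i.1.1 : ℕ) : ℝ) ^ (-(s.re - θ)) * (1 / 2) ^ i.2) := by gcongr
    _ = _ := by ring

/-- the determinant and the eigenvalues -/
theorem det_eq (M : Matrix (Fin m) (Fin m) ℂ) {x : ℂ} (hx : x ≠ 0) :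
    (1 - x • M).det = ∏ j, (1 - App.enum M j * x) := by
  have h1 : M.charpoly.eval x⁻¹ = ∏ j, (x⁻¹ - App.enum M j) := by
    rw [← App.enum_prod M (fun y => x⁻¹ - y)]
    have h2 := (IsAlgClosed.splits M.charpoly).eq_prod_roots_of_monic (Matrix.charpoly_monic M)
    conv_lhs => rw [h2]
    rw [Polynomial.eval_multiset_prod, Multiset.map_map]
    congr 1
    refine Multiset.map_congr rfl fun y _ => ?_
    simp
  have h3 : (1 - x • M) = x • (Matrix.scalar (Fin m) x⁻¹ - M) := by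
    rw [smul_sub]
    congr 1
    ext i j
    by_cases hij : i = j
    · subst hij
      simp [hx]
    · simp [hij]
  rw [h3, Matrix.det_smul, ← Matrix.eval_charpoly, h1, Fintype.card_fin]
  have h4 : ∀ j : Fin m, 1 - App.enum M j * x = x * (x⁻¹ - App.enum M j) := by
    intro j
    field_simp
  rw [Finset.prod_congr rfl fun j _ => h4 j, Finset.prod_mul_distrib, Finset.prod_const,
    Finset.card_univ, Fintype.card_fin]

/-- the Euler product -/
theorem hasProdP (hA : Bd θ A) {s : ℂ} (hs : θ + 1 < s.re) :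
    HasProd (fun p : P => ((1 - ((p.1 : ℕ) : ℂ) ^ (-s) • A p).det)⁻¹)
      (exp (∑' i : P × ℕ, cP A i * exp (-(s * lamP i)))) := by
  have h1 := (summP_norm hA hs).of_norm.hasSum
  have hlt : ∀ (p : P) (j : Fin m), ‖App.enum (A p) j * ((p.1 : ℕ) : ℂ) ^ (-s)‖ < 1 := by
    intro p j
    have h3 := two_le p
    have h0 : (0 : ℝ) < ((p.1 : ℕ) : ℝ) := by linarith
    rw [norm_mul, normP]
    calc ‖App.enum (A p) j‖ * ((p.1 : ℕ) : ℝ) ^ (-s.re) ≤
          ((p.1 : ℕ) : ℝ) ^ θ * ((p.1 : ℕ) : ℝ) ^ (-s.re) := by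
          gcongr
          exact enum_le hA p j
      _ = ((p.1 : ℕ) : ℝ) ^ (θ - s.re) := by
        rw [← Real.rpow_add h0]
        congr 1
      _ < 1 := Real.rpow_lt_one_of_one_lt_of_neg (by linarith) (by linarith)
  have h2 : ∀ p : P, HasSum (fun k : ℕ => cP A (p, k) * exp (-(s * lamP (p, k))))
      (∑ j, -Complex.log (1 - App.enum (A p) j * ((p.1 : ℕ) : ℂ) ^ (-s))) := by
    intro p
    have h3 : ∀ j : Fin m, HasSum (fun k : ℕ => (App.enum (A p) j * ((p.1 : ℕ) : ℂ) ^ (-s)) ^ (k + 1) /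
        ((k + 1 : ℕ) : ℂ)) (-Complex.log (1 - App.enum (A p) j * ((p.1 : ℕ) : ℂ) ^ (-s))) := by
      intro j
      have h4 := (hasSum_nat_add_iff' 1).2 (Complex.hasSum_taylorSeries_neg_log (hlt p j))
      simpa only [Finset.range_one, Finset.sum_singleton, pow_zero, Nat.cast_zero, div_zero, sub_zero]
        using h4
    have h5 := hasSum_sum (s := Finset.univ) fun j _ => h3 j
    have e : (fun k : ℕ => cP A (p, k) * exp (-(s * lamP (p, k)))) = fun k : ℕ =>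
        ∑ j, (App.enum (A p) j * ((p.1 : ℕ) : ℂ) ^ (-s)) ^ (k + 1) / ((k + 1 : ℕ) : ℂ) := by
      funext k
      rw [xP]
      unfold cP
      rw [← Finset.sum_div, Finset.sum_congr rfl fun j _ => mul_pow _ _ _, ← Finset.sum_mul]
      push_cast
      ring
    rw [e]
    exact h5
  have h5 := (h1.prod_fiberwise h2).cexp
  have e : (fun p : P => ((1 - ((p.1 : ℕ) : ℂ) ^ (-s) • A p).det)⁻¹) =
      exp ∘ fun p : P => ∑ j, -Complex.log (1 - App.enum (A p) j * ((p.1 : ℕ) : ℂ) ^ (-s)) := by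
    funext p
    have h3 := two_le p
    have hx : ((p.1 : ℕ) : ℂ) ^ (-s) ≠ 0 := by
      rw [← norm_pos_iff, normP]
      exact Real.rpow_pos_of_pos (by linarith) _
    simp only [Function.comp_apply]
    rw [det_eq _ hx, Complex.exp_sum, ← Finset.prod_inv_distrib]
    refine Finset.prod_congr rfl fun j _ => ?_
    have hne : 1 - App.enum (A p) j * ((p.1 : ℕ) : ℂ) ^ (-s) ≠ 0 := by
      intro h
      have h6 : App.enum (A p) j * ((p.1 : ℕ) : ℂ) ^ (-s) = 1 := (sub_eq_zero.1 h).symm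
      have h7 := hlt p j
      rw [h6, norm_one] at h7
      exact lt_irrefl _ h7
    rw [Complex.exp_neg, Complex.exp_log hne]
  rw [e]
  exact h5

/-- the coefficients at the point `c` -/
noncomputable def aP (A : P → Matrix (Fin m) (Fin m) ℂ) (c : ℂ) (i : P × ℕ) : ℂ :=
  cP A i * exp (-(c * lamP i))

theorem serP (hA : Bd θ A) (c : ℂ) : Ser lamP (aP A c) := by
  refine ⟨inferInstance, ⟨Real.log 2, Real.log_pos (by norm_num), lamP_ge⟩, θ + 2 - c.re, ?_⟩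
  refine (summP_norm hA (s := ((θ + 2 : ℝ) : ℂ)) (by
    rw [Complex.ofReal_re]
    linarith)).congr fun i => ?_
  rw [term_norm, Complex.ofReal_re]
  unfold aP
  rw [term_norm, mul_assoc, ← Real.exp_add]
  congr 2
  ring

theorem aP_sum (c s : ℂ) : ∑' i : P × ℕ, aP A c i * exp (-(s * lamP i)) =
    ∑' i : P × ℕ, cP A i * exp (-((s + c) * lamP i)) := by
  refine tsum_congr fun i => ?_
  unfold aP
  rw [mul_assoc, ← Complex.exp_add]
  congr 2
  ring

end Pool.Agent.V11288.QU.Sat
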