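import Pool.Agent.V11288.QU.Line
import Pool.Agent.H921R2.TatePole.Dedekind

/-!
# Quotients: differences of Dirichlet series, Dedekind zeta functions
-/

set_option autoImplicit false

open MeasureTheory Filter Topology Set Complex NumberField IsDedekindDomain
open scoped ENNReal ComplexConjugate
open Pool.Agent.H921R2.TatePole (nm two_le_nm nm_summable)

namespace Pool.Agent.V11288.QU

section sum

variable {ι ι' : Type} {lam : ι → ℝ} {lam' : ι' → ℝ} {c : ι → ℂ} {c' : ι' → ℂ}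

/-- the terms of the partial sums are summable -/
theorem Ser.ind (h : Ser lam c) (σ t Y : ℝ) : Summable fun i =>
    if lam i ≤ Real.log Y then (c i * exp (-((σ + t * I) * lam i))).re else 0 := by
  obtain ⟨σ₁, h1⟩ := h.sum
  obtain ⟨δ, hδ, hlam⟩ := h.low
  refine Summable.of_norm_bounded (h1.mul_left (Real.exp (|σ₁ - σ| * |Real.log Y|))) fun i => ?_
  have h0 : 0 ≤ lam i := hδ.le.trans (hlam i)
  split_ifs with hi
  · refine (Complex.abs_re_le_norm _).trans ?_
    rw [term_norm]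
    have e : ((σ : ℂ) + t * I).re = σ := by simp
    rw [e]
    have h3 : Real.exp (-(σ * lam i)) ≤
        Real.exp (|σ₁ - σ| * |Real.log Y|) * Real.exp (-(σ₁ * lam i)) := by
      rw [← Real.exp_add]
      refine Real.exp_le_exp.2 ?_
      have h4 : (σ₁ - σ) * lam i ≤ |σ₁ - σ| * |Real.log Y| := by
        calc (σ₁ - σ) * lam i ≤ |σ₁ - σ| * lam i :=
              mul_le_mul_of_nonneg_right (le_abs_self _) h0
          _ ≤ |σ₁ - σ| * |Real.log Y| :=
              mul_le_mul_of_nonneg_left (hi.trans (le_abs_self _)) (abs_nonneg _)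
      linarith
    calc ‖c i‖ * Real.exp (-(σ * lam i)) ≤
          ‖c i‖ * (Real.exp (|σ₁ - σ| * |Real.log Y|) * Real.exp (-(σ₁ * lam i))) := by gcongr
      _ = _ := by ring
  · rw [norm_zero]
    positivity

/-- a larger exponent -/
theorem Ser.sum_ge (h : Ser lam c) : ∃ σ₁ : ℝ, ∀ σ₂ : ℝ, σ₁ ≤ σ₂ →
    Summable fun i => ‖c i‖ * Real.exp (-(σ₂ * lam i)) := by
  obtain ⟨σ₁, h1⟩ := h.sum
  obtain ⟨δ, hδ, hlam⟩ := h.low
  refine ⟨σ₁, fun σ₂ h2 => Summable.of_nonneg_of_le (fun i => by positivity) (fun i => ?_) h1⟩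
  have h0 : 0 ≤ lam i := hδ.le.trans (hlam i)
  have h3 : σ₁ * lam i ≤ σ₂ * lam i := mul_le_mul_of_nonneg_right h2 h0
  gcongr

theorem Ser.sub (h : Ser lam c) (h' : Ser lam' c') :
    Ser (Sum.elim lam lam') (Sum.elim c fun j => -c' j) := by
  obtain ⟨δ, hδ, hlam⟩ := h.low
  obtain ⟨δ', hδ', hlam'⟩ := h'.low
  obtain ⟨σ₁, h1⟩ := h.sum_ge
  obtain ⟨σ₂, h2⟩ := h'.sum_ge
  refine ⟨?_, ⟨min δ δ', lt_min hδ hδ', ?_⟩, max σ₁ σ₂, ?_⟩
  · have := h.cnt
    have := h'.cnt
    infer_instance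
  · rintro (i | j)
    · exact (min_le_left _ _).trans (hlam i)
    · exact (min_le_right _ _).trans (hlam' j)
  · refine Summable.sum _ ?_ ?_
    · exact h1 _ (le_max_left _ _)
    · refine (h2 _ (le_max_right σ₁ σ₂)).congr fun j => ?_
      simp

theorem tsum_sub (s : ℂ) (h : Summable fun i => c i * exp (-(s * lam i)))
    (h' : Summable fun j => c' j * exp (-(s * lam' j))) :
    ∑' k, (Sum.elim c (fun j => -c' j)) k * exp (-(s * (Sum.elim lam lam' k : ℝ))) =
      (∑' i, c i * exp (-(s * lam i))) - ∑' j, c' j * exp (-(s * lam' j)) := by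
  have h2 : HasSum (fun j => -c' j * exp (-(s * lam' j))) (-∑' j, c' j * exp (-(s * lam' j))) := by
    have h3 := h'.hasSum.neg
    simpa only [neg_mul] using h3
  have h1 : HasSum (fun k => (Sum.elim c (fun j => -c' j)) k * exp (-(s * (Sum.elim lam lam' k : ℝ))))
      ((∑' i, c i * exp (-(s * lam i))) + -∑' j, c' j * exp (-(s * lam' j))) :=
    HasSum.sum h.hasSum h2
  rw [h1.tsum_eq, sub_eq_add_neg]

theorem lA_sub (h : Ser lam c) (h' : Ser lam' c') (σ t Y : ℝ) :
    lA (Sum.elim lam lam') (Sum.elim c fun j => -c' j) σ t Y = lA lam c σ t Y - lA lam' c' σ t Y := by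
  have h2 : HasSum (fun j => if lam' j ≤ Real.log Y then (-c' j * exp (-((σ + t * I) * lam' j))).re else 0)
      (-lA lam' c' σ t Y) := by
    have h3 := (h'.ind σ t Y).hasSum.neg
    have e : (fun j => if lam' j ≤ Real.log Y then (-c' j * exp (-((σ + t * I) * lam' j))).re else 0) =
        fun j => -if lam' j ≤ Real.log Y then (c' j * exp (-((σ + t * I) * lam' j))).re else 0 := by
      funext j
      split_ifs
      · rw [neg_mul, Complex.neg_re]
      · rw [neg_zero]
    rw [e]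
    exact h3
  have h1 := HasSum.sum (f := fun k => if (Sum.elim lam lam' k : ℝ) ≤ Real.log Y then
    ((Sum.elim c (fun j => -c' j)) k * exp (-((σ + t * I) * (Sum.elim lam lam' k : ℝ)))).re else 0)
    (h.ind σ t Y).hasSum h2
  unfold lA at h1 ⊢
  rw [h1.tsum_eq, sub_eq_add_neg]

end sum

/-! ### Dedekind zeta functions -/

variable (F : Type) [Field F] [NumberField F]

/-- the prime powers -/
abbrev PP : Type := HeightOneSpectrum (𝓞 F) × ℕ

variable {F}

/-- the logarithms of the norms -/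
noncomputable def lamD (p : PP F) : ℝ := ((p.2 : ℝ) + 1) * Real.log (nm p.1)

/-- the coefficients of the logarithm of the Dedekind zeta function -/
noncomputable def cD (p : PP F) : ℂ := ((1 / ((p.2 : ℝ) + 1) : ℝ) : ℂ)

theorem nm2 (v : HeightOneSpectrum (𝓞 F)) : (2 : ℝ) ≤ nm v := by exact_mod_cast two_le_nm v

theorem lamD_ge (p : PP F) : Real.log 2 ≤ lamD p := by
  have h2 := nm2 p.1
  have h1 : Real.log 2 ≤ Real.log (nm p.1) := Real.log_le_log (by norm_num) h2
  have h3 : 0 < Real.log 2 := Real.log_pos (by norm_num)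
  have h4 : (0 : ℝ) ≤ p.2 := p.2.cast_nonneg
  unfold lamD
  nlinarith

theorem xD (s : ℂ) (p : PP F) : exp (-(s * lamD p)) = ((nm p.1 : ℂ) ^ (-s)) ^ (p.2 + 1) := by
  have h2 := nm2 p.1
  have h0 : (0 : ℝ) < nm p.1 := by linarith
  have hc : (nm p.1 : ℂ) ≠ 0 := by exact_mod_cast h0.ne'
  have hl : Complex.log (nm p.1 : ℂ) = (Real.log (nm p.1) : ℂ) := by
    rw [Complex.ofReal_log h0.le]
    push_cast
    rfl
  rw [Complex.cpow_def_of_ne_zero hc, hl, ← Complex.exp_nat_mul]
  congr 1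
  unfold lamD
  push_cast
  ring

theorem normD (s : ℂ) (v : HeightOneSpectrum (𝓞 F)) : ‖(nm v : ℂ) ^ (-s)‖ = (nm v : ℝ) ^ (-s.re) := by
  have h0 : 0 < nm v := by
    have := two_le_nm v
    omega
  rw [Complex.norm_natCast_cpow_of_pos h0, Complex.neg_re]

theorem normD_le {s : ℂ} (hs : 1 ≤ s.re) (v : HeightOneSpectrum (𝓞 F)) : ‖(nm v : ℂ) ^ (-s)‖ ≤ 1 / 2 := by
  have h2 := nm2 v
  rw [normD]
  calc (nm v : ℝ) ^ (-s.re) ≤ (nm v : ℝ) ^ (-(1 : ℝ)) :=
        Real.rpow_le_rpow_of_exponent_le (by linarith) (by linarith)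
    _ = (nm v : ℝ)⁻¹ := Real.rpow_neg_one _
    _ ≤ 1 / 2 := by
      rw [one_div]
      gcongr

theorem cD_norm (p : PP F) : ‖cD p‖ ≤ 1 := by
  unfold cD
  rw [Complex.norm_real, Real.norm_eq_abs, abs_of_pos (by positivity), div_le_one (by positivity)]
  have : (0 : ℝ) ≤ p.2 := p.2.cast_nonneg
  linarith

theorem summD_norm {s : ℂ} (hs : 1 < s.re) : Summable fun p : PP F => ‖cD p * exp (-(s * lamD p))‖ := by
  have h1 : Summable fun v : HeightOneSpectrum (𝓞 F) => (nm v : ℝ) ^ (-s.re) := nm_summable hs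
  have h2 : Summable fun k : ℕ => (1 / 2 : ℝ) ^ k := summable_geometric_two
  refine Summable.of_nonneg_of_le (fun p => norm_nonneg _) (fun p => ?_)
    (h1.mul_of_nonneg h2 (fun v => by positivity) (fun k => by positivity))
  rw [xD, norm_mul, norm_pow, pow_succ']
  have h3 := cD_norm p
  have h4 := normD_le hs.le p.1
  rw [← normD s p.1]
  calc ‖cD p‖ * (‖(nm p.1 : ℂ) ^ (-s)‖ * ‖(nm p.1 : ℂ) ^ (-s)‖ ^ p.2) ≤
        1 * (‖(nm p.1 : ℂ) ^ (-s)‖ * (1 / 2) ^ p.2) := by gcongr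
    _ = _ := one_mul _

theorem summD {s : ℂ} (hs : 1 < s.re) : Summable fun p : PP F => cD p * exp (-(s * lamD p)) :=
  (summD_norm hs).of_norm

theorem serD : Ser (lamD (F := F)) cD := by
  refine ⟨?_, ⟨Real.log 2, Real.log_pos (by norm_num), lamD_ge⟩, 2, ?_⟩
  · have h1 : Summable fun v : HeightOneSpectrum (𝓞 F) => (nm v : ℝ) ^ (-(2 : ℝ)) :=
      nm_summable (by norm_num)
    have h2 := h1.countable_support
    have h3 : Function.support (fun v : HeightOneSpectrum (𝓞 F) => (nm v : ℝ) ^ (-(2 : ℝ))) = univ := by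
      refine eq_univ_of_forall fun v => ?_
      have h4 := nm2 v
      have h5 : (0 : ℝ) < nm v := by linarith
      exact (Real.rpow_pos_of_pos h5 _).ne'
    rw [h3, countable_univ_iff] at h2
    infer_instance
  · refine (summD_norm (F := F) (s := 2) (by norm_num)).congr fun p => ?_
    rw [term_norm]
    norm_num

/-- the logarithm of the Euler product -/
theorem prodD {s : ℂ} (hs : 1 < s.re) : HasProd (fun v : HeightOneSpectrum (𝓞 F) => (1 - (nm v : ℂ) ^ (-s))⁻¹)
    (exp (∑' p : PP F, cD p * exp (-(s * lamD p)))) := by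
  have h1 := (summD (F := F) hs).hasSum
  have h2 : ∀ v : HeightOneSpectrum (𝓞 F), HasSum (fun k : ℕ => cD (v, k) * exp (-(s * lamD (v, k))))
      (-Complex.log (1 - (nm v : ℂ) ^ (-s))) := by
    intro v
    have hx : ‖(nm v : ℂ) ^ (-s)‖ < 1 := (normD_le hs.le v).trans_lt (by norm_num)
    have h3 := Complex.hasSum_taylorSeries_neg_log hx
    have h4 := (hasSum_nat_add_iff' 1).2 h3
    simp only [Finset.range_one, Finset.sum_singleton, pow_zero, Nat.cast_zero, div_zero, sub_zero] at h4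
    have e : (fun k : ℕ => cD (v, k) * exp (-(s * lamD (v, k)))) =
        fun n : ℕ => ((nm v : ℂ) ^ (-s)) ^ (n + 1) / ((n + 1 : ℕ) : ℂ) := by
      funext k
      rw [xD]
      unfold cD
      push_cast
      ring
    rw [e]
    exact h4
  have h5 := (h1.prod_fiberwise h2).cexp
  have e : (fun v : HeightOneSpectrum (𝓞 F) => (1 - (nm v : ℂ) ^ (-s))⁻¹) =
      exp ∘ fun v : HeightOneSpectrum (𝓞 F) => -Complex.log (1 - (nm v : ℂ) ^ (-s)) := by
    funext v
    have hx : ‖(nm v : ℂ) ^ (-s)‖ ≤ 1 / 2 := normD_le hs.le v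
    have hne : 1 - (nm v : ℂ) ^ (-s) ≠ 0 := by
      intro h
      have h6 : (nm v : ℂ) ^ (-s) = 1 := (sub_eq_zero.1 h).symm
      rw [h6, norm_one] at hx
      norm_num at hx
    simp only [Function.comp_apply]
    rw [Complex.exp_neg, Complex.exp_log hne]
  rw [e]
  exact h5

/-- the logarithm is bounded far to the right -/
theorem lowD : ∃ c : ℝ, 0 < c ∧ ∀ s : ℂ, 2 ≤ s.re →
    c ≤ ‖exp (∑' p : PP F, cD p * exp (-(s * lamD p)))‖ := by
  have hS := summD_norm (F := F) (s := 2) (by norm_num)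
  refine ⟨Real.exp (-∑' p : PP F, ‖cD p * exp (-((2 : ℂ) * lamD p))‖), Real.exp_pos _, fun s hs => ?_⟩
  rw [Complex.norm_exp]
  refine Real.exp_le_exp.2 ?_
  have h4 : ‖∑' p : PP F, cD p * exp (-(s * lamD p))‖ ≤
      ∑' p : PP F, ‖cD p * exp (-((2 : ℂ) * lamD p))‖ := by
    refine tsum_of_norm_bounded hS.hasSum fun p => ?_
    rw [term_norm, term_norm]
    have h0 : 0 ≤ lamD p := (Real.log_nonneg (by norm_num)).trans (lamD_ge p)
    have h5 : (2 : ℂ).re = 2 := by norm_num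
    rw [h5]
    gcongr
  have h6 := (abs_le.1 (Complex.abs_re_le_norm (∑' p : PP F, cD p * exp (-(s * lamD p))))).1
  linarith

end Pool.Agent.V11288.QU
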