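import Pool.Agent.V11288.QU.Dbl
import Pool.Agent.V11288.HS.EdgeX

/-! Quotients: Euler products over the primes of a number field. -/

set_option autoImplicit false

open Filter Topology Set NumberField IsDedekindDomain MeasureTheory
open Pool.Agent.TH942.ES
open Pool.Agent.TH270.MS
open Pool.Agent.V11288
open Pool.Agent.V11288.HS
open scoped ENNReal ComplexConjugate

namespace Pool.Agent.V11288.QU.App

open Pool.Agent.V11288.HS.EX (nrm factor nal nrm_two zv_eq factor_eq)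

variable {K : Type} [Field K] [NumberField K] {N : ℕ} {S : Set (HeightOneSpectrum (𝓞 K))}

/-- `log |P(σ + it; Y)|` -/
noncomputable def logAbs (σ t : ℝ) (α : S → Fin N → ℂ) (Y : ℝ) : ℝ :=
  ∑ᶠ (p : S × ℕ) (_ : (nrm p.1.1 : ℝ) ^ (p.2 + 1) ≤ Y),
    ((∑ j, α p.1 j ^ (p.2 + 1)) /
      (nrm p.1.1 : ℂ) ^ (((p.2 : ℂ) + 1) * (σ + t * Complex.I))).re / ((p.2 : ℝ) + 1)

/-- The mean square deviation -/
noncomputable def meanSquare (σ t : ℝ) (α : S → Fin N → ℂ) (r A : ℝ) : ℝ≥0∞ :=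
  ∫⁻ Y in Ioi (1 : ℝ), ENNReal.ofReal
    ((logAbs σ t α Y + r * (Real.eulerMascheroniConstant + Real.log (Real.log Y)) - Real.log A) ^ 2 / Y)

/-- The Euler product is, far to the right, the quotient of two functions which are holomorphic and of
polynomial growth on a half plane containing the line `Re s = σ` -/
def IsQuotient (σ : ℝ) (α : S → Fin N → ℂ) (G₁ G₂ : ℂ → ℂ) : Prop :=
  (∃ (η C : ℝ) (κ : ℕ), 0 < η ∧ ∀ s : ℂ, σ - η < s.re →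
    DifferentiableAt ℂ G₁ s ∧ DifferentiableAt ℂ G₂ s ∧
      ‖G₁ s‖ ≤ C * (1 + ‖s‖) ^ κ ∧ ‖G₂ s‖ ≤ C * (1 + ‖s‖) ^ κ) ∧
  ∃ (b C : ℝ) (κ : ℕ), ∀ s : ℂ, b < s.re →
    HasProd (fun v : S => factor α v s) (G₁ s / G₂ s) ∧ 1 ≤ C * (1 + ‖s‖) ^ κ * ‖G₂ s‖

/-- the bound for the weight -/
def Bound (w : ℝ) (α : S → Fin N → ℂ) : Prop := ∀ v j, ‖α v j‖ ≤ (nrm v.1 : ℝ) ^ (w / 2)

theorem nal_norm {w w' : ℝ} {α : S → Fin N → ℂ} (h : Bound w α) (hw : w ≤ w') (v : S) (j : Fin N) :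
    ‖nal w' α v j‖ ≤ 1 := by
  have h2 := nrm_two v.1
  have h0 : (0 : ℝ) < nrm v.1 := by linarith
  have h1 := h v j
  unfold nal
  rw [norm_mul, Complex.norm_real, Real.norm_eq_abs, abs_of_pos (by positivity)]
  calc ‖α v j‖ * (nrm v.1 : ℝ) ^ (-(w' / 2)) ≤
        (nrm v.1 : ℝ) ^ (w / 2) * (nrm v.1 : ℝ) ^ (-(w' / 2)) := by gcongr
    _ = (nrm v.1 : ℝ) ^ (w / 2 - w' / 2) := by rw [← Real.rpow_add h0]; ring_nf
    _ ≤ 1 := Real.rpow_le_one_of_one_le_of_nonpos (by linarith) (by linarith)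

theorem pe {w w' : ℝ} {α : S → Fin N → ℂ} (h : Bound w α) (hw : w ≤ w') :
    Pe (fun v : S => Pool.Agent.H921R2.TatePole.nm v.1) (nal w' α) := by
  have E := nf_sys (fun v => v ∈ S) (d := 0) (fun _ j => j.elim0) (fun _ j => j.elim0) (fun v => by
    simp)
  exact ⟨E.cnt, E.two_le, E.sum, E.log_sum, fun v j => nal_norm h hw v j⟩

/-- the weight of the line -/
theorem line_w (σ : ℝ) : (2 * σ - 1 + 1) / 2 = σ := by ring

theorem LE_eq {w σ : ℝ} {α : S → Fin N → ℂ} (h : Bound w α) (hw : w ≤ 2 * σ - 1) {s y : ℂ}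
    (hs : σ + 1 / 2 < s.re) (hy : HasProd (fun v : S => factor α v s) y) :
    LE (fun v : S => Pool.Agent.H921R2.TatePole.nm v.1) (nal (2 * σ - 1) α) (s - σ) = y := by
  rw [factor_eq (2 * σ - 1) α s, line_w] at hy
  exact hy.tprod_eq

theorem term_eq (σ t : ℝ) (α : S → Fin N → ℂ) (p : S × ℕ) :
    (∑ i, zv (fun v : S => Pool.Agent.H921R2.TatePole.nm v.1) (nal (2 * σ - 1) α) p.1 i ^ (p.2 + 1)) *
      xv (fun v : S => Pool.Agent.H921R2.TatePole.nm v.1) p.1 (((p.2 + 1 : ℕ) : ℂ) * (t * Complex.I)) =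
    (∑ j, α p.1 j ^ (p.2 + 1)) /
      (nrm p.1.1 : ℂ) ^ (((p.2 : ℂ) + 1) * (σ + t * Complex.I)) := by
  have h2 := nrm_two p.1.1
  have h0 : (0 : ℝ) < nrm p.1.1 := by linarith
  have h1 := trace_of (N := fun v : S => Pool.Agent.H921R2.TatePole.nm v.1)
    (α := nal (2 * σ - 1) α) (v := p.1) h0 σ (p.2 + 1) (t * Complex.I)
  rw [h1]
  have e1 : ∀ i, nal (2 * σ - 1) α p.1 i *
      ((((Pool.Agent.H921R2.TatePole.nm p.1.1 : ℕ) : ℝ) ^ (σ - 1 / 2) : ℝ) : ℂ) = α p.1 i := by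
    intro i
    unfold nal
    rw [mul_assoc, ← Complex.ofReal_mul]
    have e2 : (nrm p.1.1 : ℝ) ^ (-((2 * σ - 1) / 2)) *
        ((Pool.Agent.H921R2.TatePole.nm p.1.1 : ℕ) : ℝ) ^ (σ - 1 / 2) = 1 := by
      change (nrm p.1.1 : ℝ) ^ (-((2 * σ - 1) / 2)) * (nrm p.1.1 : ℝ) ^ (σ - 1 / 2) = 1
      rw [← Real.rpow_add h0]
      have e3 : -((2 * σ - 1) / 2) + (σ - 1 / 2) = 0 := by ring
      rw [e3, Real.rpow_zero]
    rw [e2, Complex.ofReal_one, mul_one]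
  simp only [e1]
  congr 2
  push_cast
  ring

theorem logAbs_eq (σ t : ℝ) (α : S → Fin N → ℂ) (Y : ℝ) : logAbs σ t α Y =
    Pa (fun v : S => Pool.Agent.H921R2.TatePole.nm v.1) (nal (2 * σ - 1) α) t Y := by
  unfold logAbs Pa
  refine finsum_congr fun p => finsum_congr fun _ => ?_
  rw [term_eq]

theorem meanSquare_eq (σ t : ℝ) (α : S → Fin N → ℂ) (r A : ℝ) : meanSquare σ t α r A =
    Ms (fun v : S => Pool.Agent.H921R2.TatePole.nm v.1) (nal (2 * σ - 1) α) t r (Real.log A) := by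
  unfold meanSquare Ms Da
  simp only [logAbs_eq]

theorem one_add_shift (σ : ℝ) (s : ℂ) : 1 + ‖s + (σ : ℂ)‖ ≤ (1 + |σ|) * (1 + ‖s‖) := by
  have h4 : ‖s + (σ : ℂ)‖ ≤ ‖s‖ + |σ| := by
    refine (norm_add_le _ _).trans ?_
    rw [Complex.norm_real, Real.norm_eq_abs]
  have : 0 ≤ |σ| * ‖s‖ := by positivity
  nlinarith

/-- the data of the library -/
theorem qe {w σ : ℝ} {α : S → Fin N → ℂ} (h : Bound w α) (hw : w ≤ 2 * σ - 1) {G₁ G₂ : ℂ → ℂ}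
    (hQ : IsQuotient σ α G₁ G₂) : ∃ (κ : ℕ) (η C b : ℝ),
      Qe (fun v : S => Pool.Agent.H921R2.TatePole.nm v.1) (nal (2 * σ - 1) α)
        (fun s => G₁ (s + σ)) (fun s => G₂ (s + σ)) κ η C b := by
  obtain ⟨⟨η, C₁, κ₁, hη, h1⟩, b, C₂, κ₂, h2⟩ := hQ
  have hre : ∀ s : ℂ, (s + (σ : ℂ)).re = s.re + σ := fun s => by
    rw [Complex.add_re, Complex.ofReal_re]
  have hup : ∀ (C : ℝ) (κ : ℕ) (s : ℂ), C * (1 + ‖s + (σ : ℂ)‖) ^ κ ≤
      |C| * (1 + |σ|) ^ κ * (1 + ‖s‖) ^ κ := by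
    intro C κ s
    have h5 := one_add_shift σ s
    calc C * (1 + ‖s + (σ : ℂ)‖) ^ κ ≤ |C| * ((1 + |σ|) * (1 + ‖s‖)) ^ κ := by
          gcongr
          exact le_abs_self C
      _ = _ := by rw [mul_pow]; ring
  set C : ℝ := |C₁| * (1 + |σ|) ^ κ₁ + |C₂| * (1 + |σ|) ^ κ₂ with hC
  have hk1 : ∀ s : ℂ, |C₁| * (1 + |σ|) ^ κ₁ * (1 + ‖s‖) ^ κ₁ ≤ C * (1 + ‖s‖) ^ (κ₁ + κ₂) := by
    intro s
    have h3 : 1 ≤ 1 + ‖s‖ := by linarith [norm_nonneg s]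
    have h4 : (1 + ‖s‖) ^ κ₁ ≤ (1 + ‖s‖) ^ (κ₁ + κ₂) := pow_le_pow_right₀ h3 (Nat.le_add_right _ _)
    have h5 : |C₁| * (1 + |σ|) ^ κ₁ ≤ C := by
      rw [hC]
      have : 0 ≤ |C₂| * (1 + |σ|) ^ κ₂ := by positivity
      linarith
    gcongr
  have hk2 : ∀ s : ℂ, |C₂| * (1 + |σ|) ^ κ₂ * (1 + ‖s‖) ^ κ₂ ≤ C * (1 + ‖s‖) ^ (κ₁ + κ₂) := by
    intro s
    have h3 : 1 ≤ 1 + ‖s‖ := by linarith [norm_nonneg s]
    have h4 : (1 + ‖s‖) ^ κ₂ ≤ (1 + ‖s‖) ^ (κ₁ + κ₂) := pow_le_pow_right₀ h3 (Nat.le_add_left _ _)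
    have h5 : |C₂| * (1 + |σ|) ^ κ₂ ≤ C := by
      rw [hC]
      have : 0 ≤ |C₁| * (1 + |σ|) ^ κ₁ := by positivity
      linarith
    gcongr
  refine ⟨κ₁ + κ₂, η, C, max (b - σ) (1 / 2), ⟨pe h hw, hη, ?_, ?_, ?_, ?_, ?_, ?_⟩⟩
  · intro s hs
    exact DifferentiableAt.comp (g := G₁) (f := fun s : ℂ => s + σ) s
      (h1 _ (by rw [hre]; linarith)).1 (by fun_prop)
  · intro s hs
    exact DifferentiableAt.comp (g := G₂) (f := fun s : ℂ => s + σ) s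
      (h1 _ (by rw [hre]; linarith)).2.1 (by fun_prop)
  · intro s hs
    exact ((h1 _ (by rw [hre]; linarith)).2.2.1.trans (hup _ _ _)).trans (hk1 s)
  · intro s hs
    exact ((h1 _ (by rw [hre]; linarith)).2.2.2.trans (hup _ _ _)).trans (hk1 s)
  · intro s hs
    have e1 : b < (s + (σ : ℂ)).re := by
      rw [hre]
      have := (le_max_left (b - σ) (1 / 2)).trans_lt hs
      linarith
    have e2 : σ + 1 / 2 < (s + (σ : ℂ)).re := by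
      rw [hre]
      have := (le_max_right (b - σ) (1 / 2)).trans_lt hs
      linarith
    obtain ⟨h3, h4⟩ := h2 _ e1
    have h5 := LE_eq h hw e2 h3
    rw [add_sub_cancel_right] at h5
    have h6 : G₂ (s + σ) ≠ 0 := by
      intro h7
      rw [h7, norm_zero, mul_zero] at h4
      linarith
    rw [h5]
    field_simp
  · intro s hs
    have e1 : b < (s + (σ : ℂ)).re := by
      rw [hre]
      have := (le_max_left (b - σ) (1 / 2)).trans_lt hs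
      linarith
    refine (h2 _ e1).2.trans ?_
    exact mul_le_mul_of_nonneg_right ((hup _ _ _).trans (hk2 s)) (norm_nonneg _)

theorem order_shift (M : ℂ → ℂ) (c s₀ : ℂ) :
    meromorphicOrderAt (fun s => M (s + c)) s₀ = meromorphicOrderAt M (s₀ + c) := by
  have hg : AnalyticAt ℂ (fun s : ℂ => s + c) s₀ := by fun_prop
  have hd : deriv (fun s : ℂ => s + c) s₀ ≠ 0 := by simp
  exact meromorphicOrderAt_comp_of_deriv_ne_zero (f := M) hg hd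

theorem noZeros_iff (σ : ℝ) (G₁ G₂ : ℂ → ℂ) :
    (∀ s : ℂ, σ < s.re → meromorphicOrderAt (fun s => G₁ s / G₂ s) s = 0) ↔
      ∀ s : ℂ, 0 < s.re → meromorphicOrderAt (fun s => G₁ (s + σ) / G₂ (s + σ)) s = 0 := by
  have e : ∀ s : ℂ, meromorphicOrderAt (fun s => G₁ (s + σ) / G₂ (s + σ)) s =
      meromorphicOrderAt (fun s => G₁ s / G₂ s) (s + σ) := fun s =>
    order_shift (fun s => G₁ s / G₂ s) σ s
  simp only [e]
  constructor
  · intro h s hs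
    refine h _ ?_
    rw [Complex.add_re, Complex.ofReal_re]
    linarith
  · intro h s hs
    have h1 := h (s - σ) (by
      rw [Complex.sub_re, Complex.ofReal_re]
      linarith)
    rwa [sub_add_cancel] at h1

theorem lim_shift (σ t : ℝ) (M : ℂ → ℂ) (k : ℤ) (l : Filter ℝ) :
    Tendsto (fun s : ℂ => ‖M s‖ / ‖s - (σ + t * Complex.I)‖ ^ k) (𝓝[≠] ((σ : ℂ) + t * Complex.I)) l ↔
      Tendsto (fun s : ℂ => ‖M (s + t * Complex.I + σ)‖ / ‖s‖ ^ k) (𝓝[≠] 0) l := by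
  have h1 : map (fun s : ℂ => s + ((σ : ℂ) + t * Complex.I)) (𝓝[≠] 0) =
      𝓝[≠] ((σ : ℂ) + t * Complex.I) := by
    have : map (fun s : ℂ => s + ((σ : ℂ) + t * Complex.I)) (𝓝[≠] 0) =
        𝓝[≠] (0 + ((σ : ℂ) + t * Complex.I)) := map_add_right_nhdsNE
    rwa [zero_add] at this
  rw [← h1, tendsto_map'_iff]
  refine tendsto_congr fun s => ?_
  simp only [Function.comp_apply, add_sub_cancel_right]
  congr 3
  ring

/-- **The criterion for the whole line** -/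
theorem all {w σ : ℝ} {α : S → Fin N → ℂ} (h : Bound w α) (hw : w ≤ 2 * σ - 1) {G₁ G₂ : ℂ → ℂ}
    (hQ : IsQuotient σ α G₁ G₂) (r A : ℝ → ℝ) (hA : ∀ t, 0 < A t) :
    ((∀ s : ℂ, σ < s.re → meromorphicOrderAt (fun s => G₁ s / G₂ s) s = 0) ∧
      ∀ t : ℝ, ∃ k : ℤ, r t = k ∧ Tendsto (fun s : ℂ => ‖G₁ s / G₂ s‖ / ‖s - (σ + t * Complex.I)‖ ^ k)
        (𝓝[≠] ((σ : ℂ) + t * Complex.I)) (𝓝 (A t))) ↔ ∀ t : ℝ, meanSquare σ t α (r t) (A t) < ⊤ := by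
  obtain ⟨κ, η, C, b, Q⟩ := qe h hw hQ
  rw [noZeros_iff]
  simp only [meanSquare_eq]
  rw [← Q.all r A hA]
  refine and_congr Iff.rfl (forall_congr' fun t => exists_congr fun k => and_congr Iff.rfl ?_)
  exact lim_shift σ t (fun s => G₁ s / G₂ s) k _

/-- **The formula at one point of the line** -/
theorem formula {w σ : ℝ} {α : S → Fin N → ℂ} (h : Bound w α) (hw : w ≤ 2 * σ - 1) {G₁ G₂ : ℂ → ℂ}
    (hQ : IsQuotient σ α G₁ G₂) (t r : ℝ) {A : ℝ} (hA : 0 < A) (hf : meanSquare σ t α r A < ⊤) :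
    meanSquare σ t α r A = ENNReal.ofReal Real.pi⁻¹ * ∫⁻ u : ℝ, ENNReal.ofReal
      (((Real.log ‖G₁ (σ + (t + u) * Complex.I) / G₂ (σ + (t + u) * Complex.I)‖ +
        Real.log ‖G₁ (σ + (t - u) * Complex.I) / G₂ (σ + (t - u) * Complex.I)‖) / 2 -
          r * Real.log |u| - Real.log A) ^ 2 / u ^ 2) := by
  obtain ⟨κ, η, C, b, Q⟩ := qe h hw hQ
  rw [meanSquare_eq] at hf ⊢
  rw [Q.formula t r hA hf]
  simp only [add_comm (_ * Complex.I) (σ : ℂ)]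

/-- the order and the leading coefficient -/
theorem exists_order {w σ : ℝ} {α : S → Fin N → ℂ} (h : Bound w α) (hw : w ≤ 2 * σ - 1) {G₁ G₂ : ℂ → ℂ}
    (hQ : IsQuotient σ α G₁ G₂) (t : ℝ) : ∃ (k : ℤ) (A : ℝ), 0 < A ∧
      meromorphicOrderAt (fun s => G₁ s / G₂ s) ((σ : ℂ) + t * Complex.I) = k ∧
      Tendsto (fun s : ℂ => ‖G₁ s / G₂ s‖ / ‖s - (σ + t * Complex.I)‖ ^ k)
        (𝓝[≠] ((σ : ℂ) + t * Complex.I)) (𝓝 A) := by
  obtain ⟨κ, η, C, b, Q⟩ := qe h hw hQ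
  obtain ⟨k, A, hA, h1, h2⟩ := Q.exists_order t
  refine ⟨k, A, hA, ?_, (lim_shift σ t (fun s => G₁ s / G₂ s) k _).2 h2⟩
  rw [← h1, add_comm]
  exact (order_shift (fun s => G₁ s / G₂ s) σ (t * Complex.I)).symm

/-- the order from the limit -/
theorem order_of {w σ : ℝ} {α : S → Fin N → ℂ} (h : Bound w α) (hw : w ≤ 2 * σ - 1) {G₁ G₂ : ℂ → ℂ}
    (hQ : IsQuotient σ α G₁ G₂) {t : ℝ} {k : ℤ} {A : ℝ} (hA : 0 < A)
    (hl : Tendsto (fun s : ℂ => ‖G₁ s / G₂ s‖ / ‖s - (σ + t * Complex.I)‖ ^ k)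
        (𝓝[≠] ((σ : ℂ) + t * Complex.I)) (𝓝 A)) :
    meromorphicOrderAt (fun s => G₁ s / G₂ s) ((σ : ℂ) + t * Complex.I) = k := by
  obtain ⟨κ, η, C, b, Q⟩ := qe h hw hQ
  rw [← Q.order_of hA ((lim_shift σ t (fun s => G₁ s / G₂ s) k _).1 hl), add_comm]
  exact (order_shift (fun s => G₁ s / G₂ s) σ (t * Complex.I)).symm

/-- **Holomorphy on the closed half plane and no zeros in the open half plane** -/
theorem closed {w σ : ℝ} {α : S → Fin N → ℂ} (h : Bound w α) (hw : w ≤ 2 * σ - 1) {G₁ G₂ : ℂ → ℂ}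
    (hQ : IsQuotient σ α G₁ G₂) (R : ℝ → ℝ → Prop) :
    ((∀ s : ℂ, σ < s.re → meromorphicOrderAt (fun s => G₁ s / G₂ s) s = 0) ∧
      ∀ t : ℝ, ∃ k : ℤ, meromorphicOrderAt (fun s => G₁ s / G₂ s) ((σ : ℂ) + t * Complex.I) = k ∧
        R t k) ↔ ∀ t : ℝ, ∃ r A : ℝ, 0 < A ∧ R t r ∧ meanSquare σ t α r A < ⊤ := by
  choose k A hA h1 h2 using exists_order h hw hQ
  constructor
  · rintro ⟨h3, h4⟩ t
    refine ⟨k t, A t, hA t, ?_, ((all h hw hQ (fun t => (k t : ℝ)) A hA).1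
      ⟨h3, fun t => ⟨k t, rfl, h2 t⟩⟩) t⟩
    obtain ⟨k', h5, h6⟩ := h4 t
    rw [h1 t] at h5
    have h7 : k t = k' := by exact_mod_cast h5
    rw [h7]
    exact h6
  · intro h3
    choose r B hB hR hM using h3
    obtain ⟨h4, h5⟩ := (all h hw hQ r B hB).2 hM
    refine ⟨h4, fun t => ?_⟩
    obtain ⟨k', h6, h7⟩ := h5 t
    refine ⟨k', order_of h hw hQ (hB t) h7, ?_⟩
    rw [← h6]
    exact hR t

end Pool.Agent.V11288.QU.App
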