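import Pool.Agent.V11288.QU.App

/-! Quotients over number fields, real traces: the real point of the line. -/

set_option autoImplicit false

open Filter Topology Set NumberField IsDedekindDomain MeasureTheory
open Pool.Agent.TH942.ES
open Pool.Agent.TH270.MS
open Pool.Agent.V11288
open Pool.Agent.V11288.HS
open scoped ENNReal ComplexConjugate

namespace Pool.Agent.V11288.QU.App

open Pool.Agent.V11288.HS.EX (nrm factor nal nrm_two zv_eq factor_eq)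

variable {K : Type} [Field K] [NumberField K] {N : ℕ} {S : Set (HeightOneSpectrum (𝓞 K))}

/-- the traces are real -/
def RealTr (α : S → Fin N → ℂ) : Prop := ∀ v k, (∑ j, α v j ^ k).im = 0

theorem pow_real {α : S → Fin N → ℂ} (h : RealTr α) (v : S) (c : ℝ) (k : ℕ) :
    (∑ j, (α v j * (c : ℂ)) ^ k).im = 0 := by
  simp only [mul_pow]
  rw [← Finset.sum_mul, ← Complex.ofReal_pow, Complex.im_mul_ofReal, h v k, zero_mul]

theorem norm_lt {w w' : ℝ} {α : S → Fin N → ℂ} (h : Bound w α) (hw : w ≤ w') (v : S)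
    (j : Fin N) : ‖α v j * ((((nrm v.1 : ℝ) ^ ((w' + 1) / 2))⁻¹ : ℝ) : ℂ)‖ < 1 := by
  have h2 := nrm_two v.1
  have h0 : (0 : ℝ) < nrm v.1 := by linarith
  have h1 := h v j
  rw [norm_mul, Complex.norm_real, Real.norm_eq_abs, abs_of_pos (by positivity)]
  have h3 : (nrm v.1 : ℝ) ^ (w / 2) * ((nrm v.1 : ℝ) ^ ((w' + 1) / 2))⁻¹ < 1 := by
    rw [← Real.rpow_neg h0.le, ← Real.rpow_add h0]
    refine Real.rpow_lt_one_of_one_lt_of_neg (by linarith) ?_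
    linarith
  exact (mul_le_mul_of_nonneg_right h1 (by positivity)).trans_lt h3

theorem log_real {w w' : ℝ} {α : S → Fin N → ℂ} (h : Bound w α) (hr : RealTr α) (hw : w ≤ w') (v : S) :
    (∑ j, Complex.log (1 - α v j * ((((nrm v.1 : ℝ) ^ ((w' + 1) / 2))⁻¹ : ℝ) : ℂ))).im = 0 := by
  have h1 : HasSum (fun k : ℕ => ∑ j, (α v j * ((((nrm v.1 : ℝ) ^ ((w' + 1) / 2))⁻¹ : ℝ) : ℂ)) ^ k / k)
      (∑ j, -Complex.log (1 - α v j * ((((nrm v.1 : ℝ) ^ ((w' + 1) / 2))⁻¹ : ℝ) : ℂ))) :=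
    hasSum_sum fun j _ => Complex.hasSum_taylorSeries_neg_log (norm_lt h hw v j)
  have h2 := Complex.hasSum_im h1
  have h3 : ∀ k : ℕ, (∑ j, (α v j * ((((nrm v.1 : ℝ) ^ ((w' + 1) / 2))⁻¹ : ℝ) : ℂ)) ^ k / k).im = 0 := by
    intro k
    rw [← Finset.sum_div, ← Complex.ofReal_natCast, Complex.div_ofReal_im, pow_real hr v, zero_div]
  simp only [h3] at h2
  have h4 := h2.unique hasSum_zero
  rw [Finset.sum_neg_distrib, Complex.neg_im, neg_eq_zero] at h4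
  exact h4

theorem sysR {w w' : ℝ} {α : S → Fin N → ℂ} (h : Bound w α) (hr : RealTr α) (hw : w ≤ w') :
    Sys (fun v : S => Pool.Agent.H921R2.TatePole.nm v.1) (nal w' α) :=
  nf_sys (fun v => v ∈ S) (nal w' α) (fun v j => nal_norm h hw v j) fun v => by
    have h1 : ∀ j, nal w' α v j / ((√(((Pool.Agent.H921R2.TatePole.nm v.1 : ℕ) : ℝ)) : ℝ) : ℂ) =
        α v j * ((((nrm v.1 : ℝ) ^ ((w' + 1) / 2))⁻¹ : ℝ) : ℂ) := fun j => zv_eq w' α v j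
    simp only [h1]
    exact log_real h hr hw v

theorem hrealR {α : S → Fin N → ℂ} (hr : RealTr α) (w : ℝ) (v : S) (k : ℕ) :
    (∑ j, zv (fun v : S => Pool.Agent.H921R2.TatePole.nm v.1) (nal w α) v j ^ k).im = 0 := by
  simp only [zv_eq]
  exact pow_real hr v _ k

theorem qc {w σ : ℝ} {α : S → Fin N → ℂ} (h : Bound w α) (hr : RealTr α) (hw : w ≤ 2 * σ - 1)
    {G₁ G₂ : ℂ → ℂ} (hQ : IsQuotient σ α G₁ G₂) : ∃ (κ : ℕ) (η C b : ℝ),
      Qc (fun v : S => Pool.Agent.H921R2.TatePole.nm v.1) (nal (2 * σ - 1) α)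
        (fun s => G₁ (s + σ)) (fun s => G₂ (s + σ)) κ η C b := by
  obtain ⟨κ, η, C, b, Q⟩ := qe h hw hQ
  exact ⟨κ, η, C, b, ⟨sysR h hr hw, hrealR hr _, Q.hη, Q.hG₁, Q.hG₂, Q.hgrow₁, Q.hgrow₂, Q.hexp, Q.hlow⟩⟩

theorem ms_zero (σ : ℝ) (α : S → Fin N → ℂ) (r A : ℝ) : meanSquare σ 0 α r A =
    ∫⁻ Y in Ioi (1 : ℝ), ENNReal.ofReal
      (Dr (fun v : S => Pool.Agent.H921R2.TatePole.nm v.1) (nal (2 * σ - 1) α) r (Real.log A) Y ^ 2 / Y) := by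
  rw [meanSquare_eq]
  unfold Ms
  refine lintegral_congr fun Y => ?_
  congr 3
  unfold Da Dr
  congr 2
  unfold Pa Pl
  refine finsum_congr fun p => finsum_congr fun _ => ?_
  unfold cP
  congr 2
  simp [xv]

/-- **The criterion at the real point** -/
theorem real_point {w σ : ℝ} {α : S → Fin N → ℂ} (h : Bound w α) (hr : RealTr α) (hw : w ≤ 2 * σ - 1)
    {G₁ G₂ : ℂ → ℂ} (hQ : IsQuotient σ α G₁ G₂) (r : ℝ) {A : ℝ} (hA : 0 < A) :
    ((∀ s : ℂ, σ < s.re → meromorphicOrderAt (fun s => G₁ s / G₂ s) s = 0) ∧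
      ∃ k : ℤ, r = k ∧ Tendsto (fun s : ℂ => ‖G₁ s / G₂ s‖ / ‖s - σ‖ ^ k) (𝓝[≠] (σ : ℂ)) (𝓝 A)) ↔
      meanSquare σ 0 α r A < ⊤ := by
  obtain ⟨κ, η, C, b, Q⟩ := qc h hr hw hQ
  rw [ms_zero, ← (Q.crit r hA).1, noZeros_iff]
  refine and_congr Iff.rfl (exists_congr fun k => and_congr Iff.rfl ?_)
  have h1 := lim_shift σ 0 (fun s => G₁ s / G₂ s) k (𝓝 A)
  simp only [Complex.ofReal_zero, zero_mul, add_zero] at h1
  exact h1

/-- the order and the leading coefficient at the real point -/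
theorem exists_order_real {w σ : ℝ} {α : S → Fin N → ℂ} (h : Bound w α) (hw : w ≤ 2 * σ - 1)
    {G₁ G₂ : ℂ → ℂ} (hQ : IsQuotient σ α G₁ G₂) : ∃ (k : ℤ) (A : ℝ), 0 < A ∧
      meromorphicOrderAt (fun s => G₁ s / G₂ s) (σ : ℂ) = k ∧
      Tendsto (fun s : ℂ => ‖G₁ s / G₂ s‖ / ‖s - σ‖ ^ k) (𝓝[≠] (σ : ℂ)) (𝓝 A) := by
  obtain ⟨k, A, hA, h1, h2⟩ := exists_order h hw hQ 0
  simp only [Complex.ofReal_zero, zero_mul, add_zero] at h1 h2
  exact ⟨k, A, hA, h1, h2⟩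

/-- **Zeros and poles in the half plane and the real point** -/
theorem real_iff {w σ : ℝ} {α : S → Fin N → ℂ} (h : Bound w α) (hr : RealTr α) (hw : w ≤ 2 * σ - 1)
    {G₁ G₂ : ℂ → ℂ} (hQ : IsQuotient σ α G₁ G₂) :
    (∀ s : ℂ, σ < s.re → meromorphicOrderAt (fun s => G₁ s / G₂ s) s = 0) ↔
      ∃ r A : ℝ, 0 < A ∧ meanSquare σ 0 α r A < ⊤ := by
  constructor
  · intro h1
    obtain ⟨k, A, hA, -, h2⟩ := exists_order_real h hw hQ
    exact ⟨k, A, hA, (real_point h hr hw hQ k hA).1 ⟨h1, k, rfl, h2⟩⟩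
  · rintro ⟨r, A, hA, h1⟩
    exact ((real_point h hr hw hQ r hA).2 h1).1

end Pool.Agent.V11288.QU.App
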