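import Pool.Agent.V11288.QU.Line
import Pool.Agent.V11288.HS.Ein
import Pool.Agent.W263.BSD.Euler2

/-!
# Dirichlet series with complex coefficients and the Hardy space, with finitely many zeros and poles
-/

set_option autoImplicit false

open MeasureTheory Filter Topology Set Complex
open scoped ENNReal ComplexConjugate
open Pool.Agent.TH942.LS (Dat)
open Pool.Agent.TH942.SL (DD)
open Pool.Agent.TH270.MS
open Pool.Agent.V11288.HS (Ein ein_bd ein_le ein_summable ein_cont pow_lap gl_int gl_lapC gl_meas)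

namespace Pool.Agent.V11288.QU.Cx

/-- the Laplace transform of `k` is `Φ` for `Re s > a` -/
def HL (k : ℝ → ℂ) (a : ℝ) (Φ : ℂ → ℂ) : Prop :=
  ∀ s : ℂ, a < s.re → Integrable (fun u : ℝ => k u * exp (-(s * u))) ∧
    ∫ u : ℝ, k u * exp (-(s * u)) = Φ s

theorem HL.mono {k : ℝ → ℂ} {a b : ℝ} {Φ : ℂ → ℂ} (h : HL k a Φ) (hab : a ≤ b) : HL k b Φ :=
  fun s hs => h s (hab.trans_lt hs)

theorem HL.add {k k' : ℝ → ℂ} {a : ℝ} {Φ Φ' : ℂ → ℂ} (h : HL k a Φ) (h' : HL k' a Φ') :
    HL (fun u => k u + k' u) a (fun s => Φ s + Φ' s) := by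
  intro s hs
  obtain ⟨i1, e1⟩ := h s hs
  obtain ⟨i2, e2⟩ := h' s hs
  have e : (fun u : ℝ => (k u + k' u) * exp (-(s * u))) =
      fun u : ℝ => k u * exp (-(s * u)) + k' u * exp (-(s * u)) := by
    funext u
    ring
  rw [e]
  refine ⟨i1.add i2, ?_⟩
  rw [integral_add i1 i2, e1, e2]

theorem HL.mul {k : ℝ → ℂ} {a : ℝ} {Φ : ℂ → ℂ} (h : HL k a Φ) (c : ℂ) :
    HL (fun u => c * k u) a (fun s => c * Φ s) := by
  intro s hs
  obtain ⟨i1, e1⟩ := h s hs
  have e : (fun u : ℝ => (c * k u) * exp (-(s * u))) = fun u : ℝ => c * (k u * exp (-(s * u))) := by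
    funext u
    ring
  rw [e]
  refine ⟨i1.const_mul c, ?_⟩
  rw [integral_const_mul, e1]

theorem HL.sum {D : Finset ℂ} {k : ℂ → ℝ → ℂ} {a : ℝ} {Φ : ℂ → ℂ → ℂ} (h : ∀ z ∈ D, HL (k z) a (Φ z)) :
    HL (fun u => ∑ z ∈ D, k z u) a (fun s => ∑ z ∈ D, Φ z s) := by
  intro s hs
  have e : (fun u : ℝ => (∑ z ∈ D, k z u) * exp (-(s * u))) =
      fun u : ℝ => ∑ z ∈ D, k z u * exp (-(s * u)) := by
    funext u
    rw [Finset.sum_mul]
  rw [e]
  refine ⟨integrable_finsetSum _ fun z hz => (h z hz s hs).1, ?_⟩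
  rw [integral_finsetSum _ fun z hz => (h z hz s hs).1]
  exact Finset.sum_congr rfl fun z hz => (h z hz s hs).2

/-- the function `Ein (w u)` -/
theorem hl_ein (w : ℂ) : HL ((Ioi (0 : ℝ)).indicator fun u => Ein (w * u)) ‖w‖
    (fun s => -log (1 - w / s) / s) := by
  intro s hs
  set x : ℝ := s.re with hx
  have hx0 : 0 < x := (norm_nonneg w).trans_lt hs
  have hs0 : s ≠ 0 := by
    rintro rfl
    rw [hx] at hx0
    simp at hx0
  have hsn : ‖w‖ < ‖s‖ := hs.trans_le (Complex.re_le_norm s)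
  have hlt : ‖w / s‖ < 1 := by
    rw [norm_div, div_lt_one (norm_pos_iff.2 hs0)]
    exact hsn
  have hexp : ∀ u : ℝ, ‖exp (-(s * u))‖ = Real.exp (-(x * u)) := by
    intro u
    rw [Complex.norm_exp]
    congr 1
    simp [hx]
  have eint : (fun u : ℝ => (Ioi (0 : ℝ)).indicator (fun u => Ein (w * u)) u * exp (-(s * u))) =
      (Ioi (0 : ℝ)).indicator (fun u : ℝ => Ein (w * u) * exp (-(s * u))) := by
    funext u
    by_cases hu : u ∈ Ioi (0 : ℝ)
    · rw [indicator_of_mem hu, indicator_of_mem hu]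
    · rw [indicator_of_notMem hu, indicator_of_notMem hu, zero_mul]
  have hcont : Continuous fun u : ℝ => Ein (w * u) * exp (-(s * u)) := by
    have := ein_cont
    fun_prop
  rw [eint, integrable_indicator_iff measurableSet_Ioi, integral_indicator measurableSet_Ioi]
  refine ⟨?_, ?_⟩
  · have h1 := integrableOn_exp_mul_Ioi (a := -(x - ‖w‖)) (by linarith) 0
    refine h1.mono' hcont.aestronglyMeasurable ?_
    filter_upwards [ae_restrict_mem measurableSet_Ioi] with u hu
    have hu0 : (0 : ℝ) < u := hu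
    rw [norm_mul, hexp]
    have h2 := ein_le (w * u)
    rw [norm_mul, Complex.norm_real, Real.norm_of_nonneg hu0.le] at h2
    calc ‖Ein (w * u)‖ * Real.exp (-(x * u)) ≤ Real.exp (‖w‖ * u) * Real.exp (-(x * u)) := by gcongr
      _ = _ := by
        rw [← Real.exp_add]
        congr 1
        ring
  · set F : ℕ → ℝ → ℂ := fun n u => (w ^ (n + 1) / (((n : ℂ) + 1) * ((n + 1).factorial : ℂ))) *
      ((u : ℂ) ^ (n + 1) * exp (-(s * u))) with hF
    have hfac : ∀ n : ℕ, (0 : ℝ) < ((n + 1).factorial : ℝ) := fun n => by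
      exact_mod_cast Nat.factorial_pos _
    have hbi : ∀ n : ℕ, Integrable (fun u : ℝ => (u : ℂ) ^ (n + 1) * exp (-(s * u)))
        (volume.restrict (Ioi 0)) := by
      intro n
      refine (pow_lap hx0 n).1.mono' (Continuous.aestronglyMeasurable (by fun_prop)) ?_
      filter_upwards [ae_restrict_mem measurableSet_Ioi] with u hu
      have hu0 : (0 : ℝ) < u := hu
      rw [norm_mul, hexp, norm_pow, Complex.norm_real, Real.norm_of_nonneg hu0.le]
    have hFi : ∀ n, Integrable (F n) (volume.restrict (Ioi 0)) := fun n => (hbi n).const_mul _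
    have hval : ∀ n : ℕ, ∫ u in Ioi (0 : ℝ), (u : ℂ) ^ (n + 1) * exp (-(s * u)) =
        ((n + 1).factorial : ℂ) / s ^ (n + 2) := by
      intro n
      have h1 := Pool.Agent.W263.BSD.hh_integral (n + 1) (w := s) (by rw [← hx]; exact hx0)
      unfold Pool.Agent.W263.BSD.hh at h1
      rw [integral_indicator measurableSet_Ici, integral_Ici_eq_integral_Ioi] at h1
      have h6 : ((n + 1).factorial : ℂ) ≠ 0 := by exact_mod_cast (hfac n).ne'
      have e1 : ∫ u in Ioi (0 : ℝ), (u : ℂ) ^ (n + 1) * exp (-(s * u)) = ((n + 1).factorial : ℂ) *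
          ∫ v in Ioi (0 : ℝ), ((v ^ (n + 1) / (n + 1).factorial : ℝ) : ℂ) * exp (-(s * v)) := by
        rw [← integral_const_mul]
        refine setIntegral_congr_fun measurableSet_Ioi fun u hu => ?_
        push_cast
        field_simp
      rw [e1, h1]
      ring
    have hnorm : ∀ n : ℕ, ‖w ^ (n + 1) / (((n : ℂ) + 1) * ((n + 1).factorial : ℂ))‖ ≤
        ‖w‖ ^ (n + 1) / ((n + 1).factorial : ℝ) := ein_bd w
    have hFn : ∀ n, ∫ u in Ioi (0 : ℝ), ‖F n u‖ ≤ 1 / x * (‖w‖ / x) ^ (n + 1) := by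
      intro n
      have e1 : ∫ u in Ioi (0 : ℝ), ‖F n u‖ =
          ‖w ^ (n + 1) / (((n : ℂ) + 1) * ((n + 1).factorial : ℂ))‖ *
            (((n + 1).factorial : ℝ) / x ^ (n + 2)) := by
        rw [← (pow_lap hx0 n).2, ← integral_const_mul]
        refine setIntegral_congr_fun measurableSet_Ioi fun u hu => ?_
        have hu0 : (0 : ℝ) < u := hu
        simp only [hF]
        rw [norm_mul, norm_mul, hexp, norm_pow, Complex.norm_real, Real.norm_of_nonneg hu0.le]
      rw [e1]
      have h4 := hfac n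
      calc ‖w ^ (n + 1) / (((n : ℂ) + 1) * ((n + 1).factorial : ℂ))‖ *
            (((n + 1).factorial : ℝ) / x ^ (n + 2)) ≤
            ‖w‖ ^ (n + 1) / ((n + 1).factorial : ℝ) * (((n + 1).factorial : ℝ) / x ^ (n + 2)) := by
            gcongr
            exact hnorm n
        _ = _ := by
            rw [pow_succ x (n + 1), div_pow]
            field_simp
    have hsum : Summable fun n => ∫ u in Ioi (0 : ℝ), ‖F n u‖ := by
      refine Summable.of_nonneg_of_le (fun n => integral_nonneg fun u => norm_nonneg _) hFn ?_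
      have h5 : ‖w‖ / x < 1 := by
        rw [div_lt_one hx0]
        exact hs
      exact ((summable_nat_add_iff 1).2 (summable_geometric_of_lt_one (by positivity) h5)).mul_left _
    have h1 := hasSum_integral_of_summable_integral_norm hFi hsum
    have h2 : ∫ u in Ioi (0 : ℝ), ∑' n, F n u = ∫ u in Ioi (0 : ℝ), Ein (w * u) * exp (-(s * u)) := by
      refine integral_congr_ae (Eventually.of_forall fun u => ?_)
      simp only
      have h4 := (ein_summable (w * u)).hasSum.mul_right (exp (-(s * u)))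
      have h5 : (fun n => F n u) = fun n : ℕ => (w * u) ^ (n + 1) /
          (((n : ℂ) + 1) * ((n + 1).factorial : ℂ)) * exp (-(s * u)) := by
        funext n
        simp only [hF]
        rw [mul_pow]
        ring
      rw [h5, h4.tsum_eq]
      rfl
    rw [h2] at h1
    have h3 : HasSum (fun n : ℕ => (w / s) ^ (n + 1) / ((n : ℂ) + 1)) (-log (1 - w / s)) := by
      have h4 := Complex.hasSum_taylorSeries_neg_log hlt
      have h5 := (hasSum_nat_add_iff' (f := fun n : ℕ => (w / s) ^ n / (n : ℂ)) 1).2 h4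
      simpa using h5
    have h4 := h3.mul_left (1 / s)
    have h5 : (fun n => ∫ u in Ioi (0 : ℝ), F n u) =
        fun n : ℕ => 1 / s * ((w / s) ^ (n + 1) / ((n : ℂ) + 1)) := by
      funext n
      simp only [hF]
      rw [integral_const_mul, hval n]
      have h6 : ((n + 1).factorial : ℂ) ≠ 0 := by exact_mod_cast (hfac n).ne'
      have h7 : (n : ℂ) + 1 ≠ 0 := by exact_mod_cast Nat.succ_ne_zero n
      rw [div_pow, pow_succ s (n + 1)]
      field_simp
    rw [h5] at h1
    rw [h1.unique h4]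
    ring

/-- the function `γ + log u` -/
theorem hl_gl : HL ((Ioi (0 : ℝ)).indicator fun u => (HS.gl u : ℂ)) 0 (fun s => -log s / s) := by
  intro s hs
  have eint : (fun u : ℝ => (Ioi (0 : ℝ)).indicator (fun u => (HS.gl u : ℂ)) u * exp (-(s * u))) =
      (Ioi (0 : ℝ)).indicator (fun u : ℝ => (HS.gl u : ℂ) * exp (-(s * u))) := by
    funext u
    by_cases hu : u ∈ Ioi (0 : ℝ)
    · rw [indicator_of_mem hu, indicator_of_mem hu]
    · rw [indicator_of_notMem hu, indicator_of_notMem hu, zero_mul]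
  rw [eint]
  refine ⟨gl_int hs, ?_⟩
  rw [integral_indicator measurableSet_Ioi]
  exact gl_lapC hs

/-- the constant function -/
theorem hl_one : HL ((Ioi (0 : ℝ)).indicator fun _ => (1 : ℂ)) 0 (fun s => 1 / s) := by
  intro s hs
  have h0 : ∀ᵐ u : ℝ, u ≠ 0 := by
    rw [ae_iff]
    simp
  have eint : (fun u : ℝ => (Ioi (0 : ℝ)).indicator (fun _ => (1 : ℂ)) u * exp (-(s * u))) =ᵐ[volume]
      (Ici (0 : ℝ)).indicator (fun T : ℝ => exp (-(s * T))) := by
    filter_upwards [h0] with u hu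
    rcases lt_or_ge 0 u with h | h
    · rw [indicator_of_mem (show u ∈ Ioi (0 : ℝ) from h), indicator_of_mem (show u ∈ Ici (0 : ℝ) from h.le),
        one_mul]
    · have h' : u < 0 := lt_of_le_of_ne h hu
      rw [indicator_of_notMem (show u ∉ Ioi (0 : ℝ) from not_lt.2 h),
        indicator_of_notMem (show u ∉ Ici (0 : ℝ) from not_le.2 h'), zero_mul]
  refine ⟨(integrable_step hs 0).congr eint.symm, ?_⟩
  rw [integral_congr_ae eint, integral_step hs]
  simp

variable {ι : Type} {lam : ι → ℝ} {a : ι → ℂ}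

/-- the partial sums -/
noncomputable def Sc (lam : ι → ℝ) (a : ι → ℂ) (u : ℝ) : ℂ := ∑' i, if lam i ≤ u then a i else 0

/-- the real and the imaginary part -/
theorem exists_dat (h : Ser lam a) : ∃ (e : ι → ℕ) (δ σ : ℝ), Function.Injective e ∧ 0 < δ ∧ 0 < σ ∧
    (∀ i, δ ≤ lam i) ∧
    Dat (lamN e lam δ) (cN e fun i => (a i).re) δ σ ∧ Dat (lamN e lam δ) (cN e fun i => (a i).im) δ σ ∧
    Summable fun i => ‖a i‖ * Real.exp (-(σ * lam i)) := by
  obtain ⟨e, he⟩ := @exists_injective_nat ι h.cnt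
  obtain ⟨δ, hδ, hlam⟩ := h.low
  obtain ⟨σ₁, h1⟩ := h.sum
  have h2 : Summable fun i => ‖a i‖ * Real.exp (-(max σ₁ 1 * lam i)) := by
    refine Summable.of_nonneg_of_le (fun i => by positivity) (fun i => ?_) h1
    have h0 : 0 ≤ lam i := hδ.le.trans (hlam i)
    have h3 : σ₁ * lam i ≤ max σ₁ 1 * lam i := mul_le_mul_of_nonneg_right (le_max_left _ _) h0
    gcongr
  have hσ : 0 < max σ₁ 1 := lt_max_of_lt_right one_pos
  refine ⟨e, δ, max σ₁ 1, he, hδ, hσ, hlam, ?_, ?_, h2⟩
  · refine dat_N he lam _ δ hδ hσ hlam (Summable.of_nonneg_of_le (fun i => by positivity) (fun i => ?_) h2)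
    exact mul_le_mul_of_nonneg_right (Complex.abs_re_le_norm _) (by positivity)
  · refine dat_N he lam _ δ hδ hσ hlam (Summable.of_nonneg_of_le (fun i => by positivity) (fun i => ?_) h2)
    exact mul_le_mul_of_nonneg_right (Complex.abs_im_le_norm _) (by positivity)

theorem sc_eq {e : ι → ℕ} {δ σ : ℝ} (he : Function.Injective e)
    (D₁ : Dat (lamN e lam δ) (cN e fun i => (a i).re) δ σ)
    (D₂ : Dat (lamN e lam δ) (cN e fun i => (a i).im) δ σ) (u : ℝ) :
    Sc lam a u = (Sh (lamN e lam δ) (cN e fun i => (a i).re) u : ℂ) +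
      (Sh (lamN e lam δ) (cN e fun i => (a i).im) u : ℂ) * I := by
  have s1 := (summable_N he lam (fun i => (a i).re) δ (fun x l => if l ≤ u then x else 0)
    (by simp)).1 (sh_summable D₁ u)
  have s2 := (summable_N he lam (fun i => (a i).im) δ (fun x l => if l ≤ u then x else 0)
    (by simp)).1 (sh_summable D₂ u)
  rw [sh_N he, sh_N he]
  have h1 := (Complex.hasSum_ofReal.2 s1.hasSum).add ((Complex.hasSum_ofReal.2 s2.hasSum).mul_right I)
  unfold Sc
  rw [← h1.tsum_eq]
  refine tsum_congr fun i => ?_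
  split_ifs
  · exact (Complex.re_add_im (a i)).symm
  · simp

theorem dd_eq {e : ι → ℕ} {δ σ : ℝ} (he : Function.Injective e) (hδ : 0 < δ) (hlam : ∀ i, δ ≤ lam i)
    (hsum : Summable fun i => ‖a i‖ * Real.exp (-(σ * lam i))) {s : ℂ} (hs : σ < s.re) :
    ∑' i, a i * exp (-(s * lam i)) = DD (lamN e lam δ) (cN e fun i => (a i).re) s +
      DD (lamN e lam δ) (cN e fun i => (a i).im) s * I := by
  have key : ∀ b : ι → ℝ, (∀ i, |b i| ≤ ‖a i‖) →
      Summable fun i => (b i : ℂ) * exp (-(s * lam i)) := by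
    intro b hb
    refine Summable.of_norm (Summable.of_nonneg_of_le (fun i => norm_nonneg _) (fun i => ?_) hsum)
    have h0 : 0 ≤ lam i := hδ.le.trans (hlam i)
    have h3 := term_norm lam (fun i => (b i : ℂ)) s i
    beta_reduce at h3
    rw [h3, Complex.norm_real, Real.norm_eq_abs]
    have h2 := hb i
    gcongr
  have s1 := key (fun i => (a i).re) fun i => Complex.abs_re_le_norm _
  have s2 := key (fun i => (a i).im) fun i => Complex.abs_im_le_norm _
  rw [dd_N he, dd_N he]
  have h1 := s1.hasSum.add (s2.hasSum.mul_right I)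
  rw [← h1.tsum_eq]
  refine tsum_congr fun i => ?_
  have h3 := Complex.re_add_im (a i)
  calc a i * exp (-(s * lam i)) = (((a i).re : ℂ) + (a i).im * I) * exp (-(s * lam i)) := by rw [h3]
    _ = _ := by ring

/-- the function on the line -/
noncomputable def kk (lam : ι → ℝ) (a : ι → ℂ) (D : Finset ℂ) (n : ℂ → ℤ) (R : ℤ) (q : ℂ) (u : ℝ) : ℂ :=
  (Ioi (0 : ℝ)).indicator (fun u : ℝ => Sc lam a u + (∑ z ∈ D, (n z : ℂ) * Ein (z * u)) +
    R * (HS.gl u : ℂ) - q) u

theorem kk_zero (D : Finset ℂ) (n : ℂ → ℤ) (R : ℤ) (q : ℂ) {u : ℝ} (hu : u ≤ 0) :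
    kk lam a D n R q u = 0 := indicator_of_notMem (by simpa using hu) _

theorem kk_meas (h : Ser lam a) (D : Finset ℂ) (n : ℂ → ℤ) (R : ℤ) (q : ℂ) :
    Measurable (kk lam a D n R q) := by
  obtain ⟨e, δ, σ, he, hδ, hσ, hlam, D₁, D₂, hsum⟩ := exists_dat h
  refine Measurable.indicator ?_ measurableSet_Ioi
  have h1 : Measurable fun u : ℝ => Sc lam a u := by
    have e1 : (fun u : ℝ => Sc lam a u) = fun u : ℝ =>
        (Sh (lamN e lam δ) (cN e fun i => (a i).re) u : ℂ) +
          (Sh (lamN e lam δ) (cN e fun i => (a i).im) u : ℂ) * I := funext fun u => sc_eq he D₁ D₂ u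
    rw [e1]
    exact (Complex.measurable_ofReal.comp (sh_meas D₁)).add
      ((Complex.measurable_ofReal.comp (sh_meas D₂)).mul_const I)
  have h2 : Measurable fun u : ℝ => ∑ z ∈ D, (n z : ℂ) * Ein (z * u) := by
    refine Finset.measurable_fun_sum _ fun z _ => ?_
    have hc : Continuous fun u : ℝ => (n z : ℂ) * Ein (z * u) := by
      have := ein_cont
      fun_prop
    exact hc.measurable
  have h3 : Measurable fun u : ℝ => (R : ℂ) * (HS.gl u : ℂ) :=
    (Complex.measurable_ofReal.comp gl_meas).const_mul _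
  exact ((h1.add h2).add h3).sub_const q

/-- the Laplace transform of the function on the line -/
theorem kk_hl (h : Ser lam a) (D : Finset ℂ) (n : ℂ → ℤ) (R : ℤ) : ∃ b : ℝ, 0 < b ∧ (∀ z ∈ D, ‖z‖ ≤ b) ∧
    (∀ s : ℂ, b < s.re → Summable fun i => a i * exp (-(s * lam i))) ∧
    (∀ s : ℂ, b < s.re → DifferentiableAt ℂ (fun s => ∑' i, a i * exp (-(s * lam i))) s) ∧
    ∀ q : ℂ, HL (kk lam a D n R q) b (fun s => ((∑' i, a i * exp (-(s * lam i))) -
      (∑ z ∈ D, (n z : ℂ) * log (1 - z / s)) - R * log s - q) / s) := by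
  obtain ⟨e, δ, σ, he, hδ, hσ, hlam, D₁, D₂, hsum⟩ := exists_dat h
  set b : ℝ := σ + ∑ z ∈ D, ‖z‖ with hb
  have hbs : ∀ z ∈ D, ‖z‖ ≤ b := by
    intro z hz
    have := Finset.single_le_sum (f := fun z : ℂ => ‖z‖) (fun z _ => norm_nonneg z) hz
    linarith
  have hσb : σ ≤ b := by
    have := Finset.sum_nonneg (s := D) (f := fun z : ℂ => ‖z‖) (fun z _ => norm_nonneg z)
    linarith
  have hb0 : 0 < b := by linarith
  refine ⟨b, hb0, hbs, fun s hs => ?_, fun s hs => ?_, fun q => ?_⟩
  · refine Summable.of_norm (Summable.of_nonneg_of_le (fun i => norm_nonneg _) (fun i => ?_) hsum)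
    have h0 : 0 ≤ lam i := hδ.le.trans (hlam i)
    rw [term_norm]
    gcongr
    linarith
  · have hsσ : σ < s.re := by linarith
    have hU : IsOpen {z : ℂ | σ < z.re} := isOpen_lt continuous_const Complex.continuous_re
    have e1 : (fun s : ℂ => ∑' i, a i * exp (-(s * lam i))) =ᶠ[𝓝 s]
        fun s => DD (lamN e lam δ) (cN e fun i => (a i).re) s +
          DD (lamN e lam δ) (cN e fun i => (a i).im) s * I := by
      filter_upwards [hU.mem_nhds hsσ] with z hz
      exact dd_eq he hδ hlam hsum hz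
    refine DifferentiableAt.congr_of_eventuallyEq ?_ e1
    exact (Pool.Agent.TH942.SL.dd_deriv D₁ hsσ).differentiableAt.add
      ((Pool.Agent.TH942.SL.dd_deriv D₂ hsσ).differentiableAt.mul_const I)
  · -- the sum
    have l1 : HL (fun u => (Ioi (0 : ℝ)).indicator (fun u => Sc lam a u) u) b
        (fun s => (∑' i, a i * exp (-(s * lam i))) / s) := by
      intro s hs
      have hsσ : σ < s.re := by linarith
      have e1 : (fun u : ℝ => (Ioi (0 : ℝ)).indicator (fun u => Sc lam a u) u * exp (-(s * u))) =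
          fun u : ℝ => (Sh (lamN e lam δ) (cN e fun i => (a i).re) u : ℂ) * exp (-(s * u)) +
            I * ((Sh (lamN e lam δ) (cN e fun i => (a i).im) u : ℂ) * exp (-(s * u))) := by
        funext u
        by_cases hu : u ∈ Ioi (0 : ℝ)
        · rw [indicator_of_mem hu, sc_eq he D₁ D₂]
          ring
        · have hu' : u < δ := by
            have : u ≤ 0 := not_lt.1 hu
            linarith
          rw [indicator_of_notMem hu, sh_zero D₁ hu', sh_zero D₂ hu']
          simp
      have i1 := sh_int D₁ hsσ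
      have i2 := (sh_int D₂ hsσ).const_mul I
      rw [e1]
      refine ⟨i1.add i2, ?_⟩
      rw [integral_add i1 i2, integral_const_mul, sh_lap D₁ hsσ, sh_lap D₂ hsσ]
      beta_reduce
      rw [dd_eq he hδ hlam hsum hsσ]
      ring
    have l2 : HL (fun u => ∑ z ∈ D, (n z : ℂ) * (Ioi (0 : ℝ)).indicator (fun u => Ein (z * u)) u) b
        (fun s => ∑ z ∈ D, (n z : ℂ) * (-log (1 - z / s) / s)) :=
      HL.sum fun z hz => ((hl_ein z).mono (hbs z hz)).mul _
    have l3 := (hl_gl.mono hb0.le).mul (R : ℂ)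
    have l4 := (hl_one.mono hb0.le).mul (-q)
    have l5 := ((l1.add l2).add l3).add l4
    intro s hs
    have hs0 : s ≠ 0 := by
      rintro rfl
      simp at hs
      linarith
    obtain ⟨i5, e5⟩ := l5 s hs
    have e6 : (fun u : ℝ => kk lam a D n R q u * exp (-(s * u))) = fun u : ℝ =>
        ((Ioi (0 : ℝ)).indicator (fun u => Sc lam a u) u +
          ∑ z ∈ D, (n z : ℂ) * (Ioi (0 : ℝ)).indicator (fun u => Ein (z * u)) u +
            (R : ℂ) * (Ioi (0 : ℝ)).indicator (fun u => (HS.gl u : ℂ)) u +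
              -q * (Ioi (0 : ℝ)).indicator (fun _ => (1 : ℂ)) u) * exp (-(s * u)) := by
      funext u
      congr 1
      by_cases hu : u ∈ Ioi (0 : ℝ)
      · unfold kk
        simp only [indicator_of_mem hu]
        ring
      · unfold kk
        simp only [indicator_of_notMem hu, mul_zero, Finset.sum_const_zero, add_zero]
    rw [e6]
    refine ⟨i5, e5.trans ?_⟩
    have e7 : ∑ z ∈ D, (n z : ℂ) * (-log (1 - z / s) / s) =
        -(∑ z ∈ D, (n z : ℂ) * log (1 - z / s)) / s := by
      rw [neg_div, Finset.sum_div, ← Finset.sum_neg_distrib]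
      refine Finset.sum_congr rfl fun z _ => ?_
      ring
    beta_reduce
    rw [e7]
    field_simp
    ring

end Pool.Agent.V11288.QU.Cx
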