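import Pool.Agent.V11288.QU.Cx

/-!
# The criterion: continuation with finitely many zeros and poles, logarithm in the Hardy space
-/

set_option autoImplicit false

open MeasureTheory Filter Topology Set Complex
open scoped ENNReal ComplexConjugate
open Pool.Agent.V11288.HS (to_hardy of_hardy)

namespace Pool.Agent.V11288.QU.Cx

/-- a branch of the logarithm of `1` -/
theorem exp_const {f : ℂ → ℂ} {b : ℝ} (hd : ∀ s : ℂ, b < s.re → DifferentiableAt ℂ f s)
    (h : ∀ s : ℂ, b < s.re → exp (f s) = 1) :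
    ∃ m : ℤ, ∀ s : ℂ, b < s.re → f s = m * (2 * Real.pi * I) := by
  have hU : IsOpen {z : ℂ | b < z.re} := isOpen_lt continuous_const Complex.continuous_re
  have hg0 : EqOn (deriv f) 0 {z : ℂ | b < z.re} := by
    intro s hs
    have h1 := (hd s hs).hasDerivAt.cexp
    have h2 : (fun z => exp (f z)) =ᶠ[𝓝 s] fun _ => 1 := by
      filter_upwards [hU.mem_nhds hs] with z hz
      exact h z hz
    have h3 := h1.congr_of_eventuallyEq h2.symm
    have h4 := h3.unique (hasDerivAt_const s (1 : ℂ))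
    rw [h s hs, one_mul] at h4
    exact h4
  have hz0 : b < (((b + 1 : ℝ) : ℂ)).re := by
    rw [Complex.ofReal_re]
    linarith
  obtain ⟨m, hm0⟩ := Complex.exp_eq_one_iff.1 (h _ hz0)
  refine ⟨m, fun s hs => ?_⟩
  have h1 := hU.is_const_of_deriv_eq_zero (convex_halfSpace_re_gt b).isPreconnected
    (fun z hz => (hd z hz).differentiableWithinAt) hg0 hs hz0
  rw [hm0] at h1
  exact h1

/-- the Laplace transform of a square integrable function is holomorphic -/
theorem lap_diff {k : ℝ → ℂ} (hkm : Measurable k) (h0 : ∀ u : ℝ, u ≤ 0 → k u = 0)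
    (hi : ∀ x : ℝ, 0 < x → Integrable fun u : ℝ => k u * exp (-(x * u))) {s : ℂ} (hs : 0 < s.re) :
    DifferentiableAt ℂ (fun s : ℂ => ∫ u : ℝ, k u * exp (-(s * u))) s := by
  have key : ∀ x : ℝ, 0 < x → Pool.Agent.W263.BSD.LInt (fun u => (k u).re) x ∧
      Pool.Agent.W263.BSD.LInt (fun u => (k u).im) x := by
    intro x hx
    have e : ∀ u : ℝ, exp (-((x : ℂ) * u)) = ((Real.exp (-(x * u)) : ℝ) : ℂ) := by
      intro u
      push_cast
      rfl
    constructor
    · refine ((hi x hx).re.integrableOn (s := Ioi (0 : ℝ))).congr_fun (fun u _ => ?_) measurableSet_Ioi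
      simp only
      rw [e]
      exact Complex.re_mul_ofReal _ _
    · refine ((hi x hx).im.integrableOn (s := Ioi (0 : ℝ))).congr_fun (fun u _ => ?_) measurableSet_Ioi
      simp only
      rw [e]
      exact Complex.im_mul_ofReal _ _
  have d1 := Pool.Agent.W263.BSD.lapC_differentiableAt (Complex.measurable_re.comp hkm) (w0 := 0)
    (fun w hw => (key w hw).1) hs
  have d2 := Pool.Agent.W263.BSD.lapC_differentiableAt (Complex.measurable_im.comp hkm) (w0 := 0)
    (fun w hw => (key w hw).2) hs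
  have hU : IsOpen {z : ℂ | 0 < z.re} := isOpen_lt continuous_const Complex.continuous_re
  refine (d1.add (d2.mul_const I)).congr_of_eventuallyEq ?_
  filter_upwards [hU.mem_nhds hs] with z hz
  have hz' : 0 < z.re := hz
  have i1 := Pool.Agent.W263.BSD.LInt.complex (f := fun u => (k u).re)
    (Complex.measurable_re.comp hkm) (z := z) (key z.re hz').1
  have i2 := Pool.Agent.W263.BSD.LInt.complex (f := fun u => (k u).im)
    (Complex.measurable_im.comp hkm) (z := z) (key z.re hz').2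
  have e1 : ∫ u : ℝ, k u * exp (-(z * u)) = ∫ u in Ioi (0 : ℝ), k u * exp (-(z * u)) := by
    symm
    refine setIntegral_eq_integral_of_forall_compl_eq_zero fun u hu => ?_
    rw [h0 u (by simpa using hu), zero_mul]
  rw [e1]
  simp only [Pi.add_apply, Function.comp_def]
  unfold Pool.Agent.W263.BSD.lapC
  rw [← integral_mul_const, ← integral_add i1 (i2.mul_const I)]
  refine integral_congr_ae (Eventually.of_forall fun u => ?_)
  simp only
  have h3 := Complex.re_add_im (k u)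
  calc k u * exp (-(z * u)) = (((k u).re : ℂ) + (k u).im * I) * exp (-(z * u)) := by rw [h3]
    _ = _ := by ring

variable {ι : Type} {lam : ι → ℝ} {a : ι → ℂ}

/-- the exponentials -/
theorem exp_id {D : Finset ℂ} {n : ℂ → ℤ} {R : ℤ} {s : ℂ} (hs : s ≠ 0) (hz : ∀ z ∈ D, s ≠ z) (q x : ℂ) :
    exp ((∑ z ∈ D, (n z : ℂ) * log (1 - z / s)) + R * log s + q + x) =
      exp q * s ^ (R - ∑ z ∈ D, n z) * (∏ z ∈ D, (s - z) ^ n z) * exp x := by
  have h1 : ∀ z ∈ D, exp ((n z : ℂ) * log (1 - z / s)) = (s - z) ^ n z * (s ^ n z)⁻¹ := by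
    intro z hzD
    have h2 : 1 - z / s = (s - z) / s := by field_simp
    have h3 : (s - z) / s ≠ 0 := div_ne_zero (sub_ne_zero.2 (hz z hzD)) hs
    rw [Complex.exp_int_mul, h2, Complex.exp_log h3, div_zpow]
    rfl
  have h4 : exp (∑ z ∈ D, (n z : ℂ) * log (1 - z / s)) =
      (∏ z ∈ D, (s - z) ^ n z) * (s ^ (∑ z ∈ D, n z))⁻¹ := by
    rw [Complex.exp_sum, Finset.prod_congr rfl h1, Finset.prod_mul_distrib]
    congr 1
    rw [Finset.prod_inv_distrib]
    congr 1
    induction D using Finset.induction_on with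
    | empty => simp
    | insert z D hzD ih =>
      rw [Finset.prod_insert hzD, Finset.sum_insert hzD, zpow_add₀ hs,
        ih (fun w hw => hz w (Finset.mem_insert_of_mem hw)) (fun w hw => h1 w (Finset.mem_insert_of_mem hw))]
  rw [Complex.exp_add, Complex.exp_add, Complex.exp_add, h4, Complex.exp_int_mul, Complex.exp_log hs,
    zpow_sub₀ hs]
  have h5 : s ^ (∑ z ∈ D, n z) ≠ 0 := zpow_ne_zero _ hs
  field_simp

/-- **from the partial sums to the continuation** -/
theorem to_cont (h : Ser lam a) (D : Finset ℂ) (n : ℂ → ℤ) (R : ℤ) (q : ℂ) {C : ℝ} (hC : 0 ≤ C)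
    (hf : ∫⁻ u : ℝ, ‖kk lam a D n R q u‖ₑ ^ 2 ≤ ENNReal.ofReal C) :
    ∃ H : ℂ → ℂ, (∀ s : ℂ, 0 < s.re → DifferentiableAt ℂ H s) ∧
      (∀ x : ℝ, 0 < x → ∫⁻ t : ℝ, ‖H (x + t * I)‖ₑ ^ 2 ≤ ENNReal.ofReal (2 * Real.pi * C)) ∧
      ∃ b : ℝ, ∀ s : ℂ, b < s.re → exp (∑' i, a i * exp (-(s * lam i))) =
        exp q * s ^ (R - ∑ z ∈ D, n z) * (∏ z ∈ D, (s - z) ^ n z) * exp (s * H s) := by
  have hkm := kk_meas h D n R q
  obtain ⟨h1, h2, -⟩ := to_hardy hkm.aestronglyMeasurable (fun u hu => kk_zero D n R q hu.le) hC hf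
  obtain ⟨b, hb0, hbz, -, -, hl⟩ := kk_hl h D n R
  refine ⟨fun s => ∫ u : ℝ, kk lam a D n R q u * exp (-(s * u)),
    fun s hs => lap_diff hkm (fun u hu => kk_zero D n R q hu) h1 hs, h2, b, fun s hs => ?_⟩
  have hs0 : s ≠ 0 := by
    rintro rfl
    simp at hs
    linarith
  have hz : ∀ z ∈ D, s ≠ z := by
    rintro z hz rfl
    have := (Complex.re_le_norm s).trans (hbz s hz)
    linarith
  have h3 := (hl q s hs).2
  beta_reduce at h3
  rw [← exp_id hs0 hz q]
  congr 1
  beta_reduce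
  rw [h3]
  field_simp
  ring

/-- **from the continuation to the partial sums** -/
theorem of_cont (h : Ser lam a) (D : Finset ℂ) (n : ℂ → ℤ) (R : ℤ) {A : ℂ} (hA : A ≠ 0) {C : ℝ} (hC : 0 ≤ C)
    {H : ℂ → ℂ} (hd : ∀ s : ℂ, 0 < s.re → DifferentiableAt ℂ H s)
    (hL : ∀ x : ℝ, 0 < x → ∫⁻ t : ℝ, ‖H (x + t * I)‖ₑ ^ 2 ≤ ENNReal.ofReal (2 * Real.pi * C)) {b : ℝ}
    (he : ∀ s : ℂ, b < s.re → exp (∑' i, a i * exp (-(s * lam i))) =
      A * s ^ (R - ∑ z ∈ D, n z) * (∏ z ∈ D, (s - z) ^ n z) * exp (s * H s)) :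
    ∃ q : ℂ, exp q = A ∧ ∫⁻ u : ℝ, ‖kk lam a D n R q u‖ₑ ^ 2 ≤ ENNReal.ofReal C := by
  obtain ⟨b', hb0, hbz, hsum, hdd, hl⟩ := kk_hl h D n R
  set B : ℝ := max b b' with hB
  have hB0 : 0 < B := lt_max_of_lt_right hb0
  have hs0 : ∀ s : ℂ, B < s.re → s ≠ 0 := by
    rintro s hs rfl
    rw [Complex.zero_re] at hs
    linarith
  have hsz : ∀ s : ℂ, B < s.re → ∀ z ∈ D, s ≠ z := by
    rintro s hs z hz rfl
    have := (Complex.re_le_norm s).trans (hbz s hz)
    have h2 := (le_max_right b b').trans_lt hs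
    linarith
  have hslit : ∀ s : ℂ, B < s.re → ∀ z ∈ D, 1 - z / s ∈ Complex.slitPlane := by
    intro s hs z hz
    have hns : ‖z‖ < ‖s‖ := by
      have h1 := hbz z hz
      have h2 := (le_max_right b b').trans_lt hs
      have h3 := Complex.re_le_norm s
      linarith
    have h4 : ‖z / s‖ < 1 := by
      rw [norm_div, div_lt_one (norm_pos_iff.2 (hs0 s hs))]
      exact hns
    left
    rw [Complex.sub_re, Complex.one_re]
    have h5 := (Complex.re_le_norm (z / s)).trans_lt h4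
    linarith
  set f : ℂ → ℂ := fun s => (∑' i, a i * exp (-(s * lam i))) -
    ((∑ z ∈ D, (n z : ℂ) * log (1 - z / s)) + R * log s + log A + s * H s) with hf
  have hfd : ∀ s : ℂ, B < s.re → DifferentiableAt ℂ f s := by
    intro s hs
    have h1 := hdd s ((le_max_right b b').trans_lt hs)
    have h2 : DifferentiableAt ℂ (fun s => ∑ z ∈ D, (n z : ℂ) * log (1 - z / s)) s := by
      have h3 : ∀ z ∈ D, DifferentiableAt ℂ (fun s => (n z : ℂ) * log (1 - z / s)) s := by
        intro z hz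
        have h6 : DifferentiableAt ℂ (fun s => 1 - z / s) s :=
          (differentiableAt_const _).sub ((differentiableAt_const _).div differentiableAt_id (hs0 s hs))
        exact (h6.clog (hslit s hs z hz)).const_mul _
      exact DifferentiableAt.fun_sum h3
    have h4 : DifferentiableAt ℂ (fun s => (R : ℂ) * log s) s := by
      refine DifferentiableAt.const_mul (DifferentiableAt.clog differentiableAt_id ?_) _
      left
      exact hB0.trans hs
    have h5 : DifferentiableAt ℂ (fun s => s * H s) s :=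
      differentiableAt_id.mul (hd s (hB0.trans hs))
    exact h1.sub (((h2.add h4).add_const _).add h5)
  have hf1 : ∀ s : ℂ, B < s.re → exp (f s) = 1 := by
    intro s hs
    rw [hf]
    beta_reduce
    rw [Complex.exp_sub, he s ((le_max_left b b').trans_lt hs), exp_id (hs0 s hs) (hsz s hs),
      Complex.exp_log hA]
    refine div_self ?_
    refine mul_ne_zero (mul_ne_zero (mul_ne_zero hA (zpow_ne_zero _ (hs0 s hs))) ?_) (exp_ne_zero _)
    exact Finset.prod_ne_zero_iff.2 fun z hz => zpow_ne_zero _ (sub_ne_zero.2 (hsz s hs z hz))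
  obtain ⟨m, hm⟩ := exp_const hfd hf1
  set q : ℂ := log A + m * (2 * Real.pi * I) with hq
  refine ⟨q, ?_, ?_⟩
  · rw [hq, Complex.exp_add, Complex.exp_log hA, Complex.exp_eq_one_iff.2 ⟨m, rfl⟩, mul_one]
  · have h5 := of_hardy (k := kk lam a D n R q) (H := H) (a := B) (M := 2 * Real.pi * C) hB0.le
      (by positivity)
      (fun x hx => (hl q x (by
        rw [Complex.ofReal_re]
        exact (le_max_right b b').trans_lt hx)).1)
      (fun s hs => by
        rw [(hl q s ((le_max_right b b').trans_lt hs)).2]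
        have h6 := hm s hs
        rw [hf] at h6
        beta_reduce at h6
        have h7 := hs0 s hs
        have h8 : ∑' i, a i * exp (-(s * lam i)) = (∑ z ∈ D, (n z : ℂ) * log (1 - z / s)) + R * log s +
            log A + s * H s + m * (2 * Real.pi * I) := by
          rw [← h6]
          ring
        beta_reduce
        rw [h8, hq]
        field_simp
        ring) hd hL
    have h6 : (2 * Real.pi)⁻¹ * (2 * Real.pi * C) = C := by field_simp
    rw [h6] at h5
    exact h5

/-- **The criterion** -/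
theorem crit (h : Ser lam a) (D : Finset ℂ) (n : ℂ → ℤ) (r : ℤ) {A : ℂ} (hA : A ≠ 0) {C : ℝ} (hC : 0 ≤ C) :
    (∃ q : ℂ, exp q = A ∧
      ∫⁻ u : ℝ, ‖kk lam a D n (r + ∑ z ∈ D, n z) q u‖ₑ ^ 2 ≤ ENNReal.ofReal C) ↔
    ∃ H : ℂ → ℂ, (∀ s : ℂ, 0 < s.re → DifferentiableAt ℂ H s) ∧
      (∀ x : ℝ, 0 < x → ∫⁻ t : ℝ, ‖H (x + t * I)‖ₑ ^ 2 ≤ ENNReal.ofReal (2 * Real.pi * C)) ∧
      ∃ b : ℝ, ∀ s : ℂ, b < s.re → exp (∑' i, a i * exp (-(s * lam i))) =
        A * s ^ r * (∏ z ∈ D, (s - z) ^ n z) * exp (s * H s) := by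
  constructor
  · rintro ⟨q, hq, hf⟩
    obtain ⟨H, h1, h2, b, h3⟩ := to_cont h D n (r + ∑ z ∈ D, n z) q hC hf
    refine ⟨H, h1, h2, b, fun s hs => ?_⟩
    rw [h3 s hs, hq, add_sub_cancel_right]
  · rintro ⟨H, h1, h2, b, h3⟩
    exact of_cont h D n (r + ∑ z ∈ D, n z) hA hC h1 h2 (b := b) fun s hs => by
      rw [h3 s hs, add_sub_cancel_right]

end Pool.Agent.V11288.QU.Cx
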