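import Pool.Agent.V11288.QU.Mero
import Pool.Agent.V11288.HS.Pole

/-!
# Quotients: all points of the line
-/

set_option autoImplicit false

open MeasureTheory Filter Topology Set Complex
open scoped ENNReal ComplexConjugate
open Pool.Agent.TH942.LS (Dat)
open Pool.Agent.TH942.SL
open Pool.Agent.TH942.ES
open Pool.Agent.TH270.MS
open Pool.Agent.V11288.HS

namespace Pool.Agent.V11288.QU

variable {X : Type} {d : ℕ} {N : X → ℕ} {α : X → Fin d → ℂ}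

/-- comparison of leading terms -/
theorem lim_iff {F G : ℂ → ℝ} {x : ℂ} {p k : ℤ} {c A : ℝ} (hc : 0 < c) (hA : 0 < A)
    (hF : ∀ᶠ z in 𝓝[≠] x, F z = ‖z - x‖ ^ p * G z) (hG : Tendsto G (𝓝[≠] x) (𝓝 c)) :
    Tendsto (fun z => F z / ‖z - x‖ ^ k) (𝓝[≠] x) (𝓝 A) ↔ p = k ∧ c = A := by
  constructor
  · intro h
    have hx : Tendsto (fun ε : ℝ => x + (ε : ℂ)) (𝓝[>] 0) (𝓝[≠] x) := by
      refine tendsto_nhdsWithin_iff.2 ⟨?_, ?_⟩
      · have h1 : Continuous fun ε : ℝ => x + (ε : ℂ) := by fun_prop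
        have := (h1.tendsto 0).mono_left (nhdsWithin_le_nhds (s := Ioi (0 : ℝ)))
        simpa using this
      · filter_upwards [self_mem_nhdsWithin] with ε hε
        have hx0 : (0 : ℝ) < ε := hε
        simpa using hx0.ne'
    have t1 : Tendsto (fun ε : ℝ => Real.log (F (x + ε) / ‖(x + (ε : ℂ)) - x‖ ^ k) -
        Real.log (G (x + ε))) (𝓝[>] 0) (𝓝 (Real.log A - Real.log c)) :=
      ((h.comp hx).log hA.ne').sub ((hG.comp hx).log hc.ne')
    have hgn : ∀ᶠ ε : ℝ in 𝓝[>] 0, 0 < G (x + ε) :=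
      (hG.comp hx).eventually (lt_mem_nhds hc)
    have hid : ∀ᶠ ε : ℝ in 𝓝[>] 0, Real.log (F (x + ε) / ‖(x + (ε : ℂ)) - x‖ ^ k) -
        Real.log (G (x + ε)) = ((p : ℝ) - k) * Real.log ε := by
      filter_upwards [hx.eventually hF, hgn, self_mem_nhdsWithin] with ε h1 h2 hε
      have hx0 : (0 : ℝ) < ε := hε
      have h3 : ‖(x + (ε : ℂ)) - x‖ = ε := by
        rw [add_sub_cancel_left, Complex.norm_real, Real.norm_eq_abs, abs_of_pos hx0]
      rw [h1, h3, Real.log_div (by positivity) (by positivity), Real.log_mul (by positivity)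
        h2.ne', Real.log_zpow, Real.log_zpow]
      ring
    have t2 := t1.congr' hid
    have hpk : (p : ℝ) - k = 0 := by
      by_contra hne
      have t5 : Tendsto (fun x : ℝ => Real.log x) (𝓝[>] 0)
          (𝓝 (((p : ℝ) - k)⁻¹ * (Real.log A - Real.log c))) := by
        refine (t2.const_mul ((p : ℝ) - k)⁻¹).congr fun x => ?_
        field_simp
      exact not_tendsto_nhds_of_tendsto_atBot Real.tendsto_log_nhdsGT_zero _ t5
    refine ⟨by exact_mod_cast sub_eq_zero.1 hpk, ?_⟩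
    rw [hpk] at t2
    simp only [zero_mul] at t2
    have h5 := tendsto_nhds_unique t2 tendsto_const_nhds
    exact Real.log_injOn_pos hc hA (by linarith)
  · rintro ⟨rfl, rfl⟩
    refine hG.congr' ?_
    filter_upwards [hF, self_mem_nhdsWithin] with z hz hz0
    have h1 : ‖z - x‖ ≠ 0 := norm_ne_zero_iff.2 (sub_ne_zero.2 hz0)
    rw [hz]
    field_simp

/-- order zero -/
theorem ord_zero_iff {f : ℂ → ℂ} {x : ℂ} (hf : MeromorphicAt f x) :
    meromorphicOrderAt f x = 0 ↔ ∃ c : ℝ, 0 < c ∧ Tendsto (fun z => ‖f z‖) (𝓝[≠] x) (𝓝 c) := by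
  constructor
  · intro h
    obtain ⟨c, hc, h1⟩ := tendsto_ne_zero_of_meromorphicOrderAt_eq_zero hf h
    exact ⟨‖c‖, norm_pos_iff.2 hc, h1.norm⟩
  · rintro ⟨c, hc, h⟩
    rcases lt_trichotomy (meromorphicOrderAt f x) 0 with h1 | h1 | h1
    · exfalso
      have h2 := tendsto_norm_atTop_iff_cobounded.2 ((tendsto_cobounded_iff_meromorphicOrderAt_neg hf).2 h1)
      exact not_tendsto_nhds_of_tendsto_atTop h2 _ h
    · exact h1
    · exfalso
      have h2 := ((tendsto_zero_iff_meromorphicOrderAt_pos hf).2 h1).norm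
      rw [norm_zero] at h2
      exact hc.ne (tendsto_nhds_unique h2 h)

/-- an Euler product with arbitrary traces and a continuation as a quotient -/
structure Qe (N : X → ℕ) (α : X → Fin d → ℂ) (G₁ G₂ : ℂ → ℂ) (κ : ℕ) (η C b : ℝ) : Prop where
  P : Pe N α
  hη : 0 < η
  hG₁ : ∀ s : ℂ, -η < s.re → DifferentiableAt ℂ G₁ s
  hG₂ : ∀ s : ℂ, -η < s.re → DifferentiableAt ℂ G₂ s
  hgrow₁ : ∀ s : ℂ, -η < s.re → ‖G₁ s‖ ≤ C * (1 + ‖s‖) ^ κ
  hgrow₂ : ∀ s : ℂ, -η < s.re → ‖G₂ s‖ ≤ C * (1 + ‖s‖) ^ κ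
  hexp : ∀ s : ℂ, b < s.re → LE N α s * G₂ s = G₁ s
  hlow : ∀ s : ℂ, b < s.re → 1 ≤ C * (1 + ‖s‖) ^ κ * ‖G₂ s‖

theorem l2_diff {L : ℂ → ℂ} {η : ℝ} (hL : ∀ s : ℂ, -η < s.re → DifferentiableAt ℂ L s) (τ : ℝ) {s : ℂ}
    (hs : -η < s.re) : DifferentiableAt ℂ (L2 L τ) s := by
  unfold L2
  have h1 : DifferentiableAt ℂ (fun s => L (s + τ * I)) s := by
    refine DifferentiableAt.comp s (hL _ (by rw [Pc.re_lt]; exact hs)) ?_
    fun_prop
  have h2 : DifferentiableAt ℂ (fun s => L (s + τ * I)) (conj s) := by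
    refine DifferentiableAt.comp _ (hL _ (by rw [Pc.re_lt, Complex.conj_re]; exact hs)) ?_
    fun_prop
  have h3 := h2.conj_conj
  rw [Complex.conj_conj] at h3
  exact h1.mul h3

theorem shift_le (τ : ℝ) (z : ℂ) : 1 + ‖z + τ * I‖ ≤ (1 + |τ|) * (1 + ‖z‖) := by
  have h4 : ‖z + τ * I‖ ≤ ‖z‖ + |τ| := by
    refine (norm_add_le _ _).trans ?_
    rw [norm_mul, Complex.norm_I, mul_one, Complex.norm_real, Real.norm_eq_abs]
  have : 0 ≤ |τ| * ‖z‖ := by positivity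
  nlinarith

theorem l2_grow {L : ℂ → ℂ} {η C : ℝ} {κ : ℕ} (hL : ∀ s : ℂ, -η < s.re → ‖L s‖ ≤ C * (1 + ‖s‖) ^ κ)
    (τ : ℝ) {s : ℂ} (hs : -η < s.re) :
    ‖L2 L τ s‖ ≤ C * (1 + |τ|) ^ κ * (C * (1 + |τ|) ^ κ) * (1 + ‖s‖) ^ (κ + κ) := by
  unfold L2
  rw [norm_mul, Complex.norm_conj]
  have key : ∀ z : ℂ, -η < z.re → ‖L (z + τ * I)‖ ≤ C * (1 + |τ|) ^ κ * (1 + ‖z‖) ^ κ := by
    intro z hz
    have h1 := hL (z + τ * I) (by rw [Pc.re_lt]; exact hz)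
    have hC : 0 ≤ C := by
      have h2 := (norm_nonneg _).trans h1
      have h3 : 0 < (1 + ‖z + τ * I‖) ^ κ := by positivity
      exact nonneg_of_mul_nonneg_left h2 h3
    refine h1.trans ?_
    rw [mul_assoc, ← mul_pow]
    have h5 := shift_le τ z
    gcongr
  have h1 := key s hs
  have h2 := key (conj s) (by rw [Complex.conj_re]; exact hs)
  rw [Complex.norm_conj] at h2
  calc ‖L (s + τ * I)‖ * ‖L (conj s + τ * I)‖ ≤
        (C * (1 + |τ|) ^ κ * (1 + ‖s‖) ^ κ) * (C * (1 + |τ|) ^ κ * (1 + ‖s‖) ^ κ) :=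
        mul_le_mul h1 h2 (norm_nonneg _) ((norm_nonneg _).trans h1)
    _ = _ := by rw [pow_add]; ring

namespace Qe

variable {G₁ G₂ : ℂ → ℂ} {κ : ℕ} {η C b : ℝ}

theorem C0 (Q : Qe N α G₁ G₂ κ η C b) : 0 ≤ C := by
  have h1 := (norm_nonneg _).trans (Q.hgrow₁ 0 (by simpa using Q.hη))
  simpa using h1

/-- the doubled system -/
theorem qc (Q : Qe N α G₁ G₂ κ η C b) (τ : ℝ) : Qc N (dbl N α τ) (L2 G₁ τ) (L2 G₂ τ) (κ + κ) η
    (C * (1 + |τ|) ^ κ * (C * (1 + |τ|) ^ κ)) (max b (1 / 2)) where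
  E := Q.P.sys_dbl τ
  hreal := by
    intro v k
    rw [dbl_trace, Complex.ofReal_im]
  hη := Q.hη
  hG₁ := fun s hs => l2_diff Q.hG₁ τ hs
  hG₂ := fun s hs => l2_diff Q.hG₂ τ hs
  hgrow₁ := fun s hs => l2_grow Q.hgrow₁ τ hs
  hgrow₂ := fun s hs => l2_grow Q.hgrow₂ τ hs
  hexp := by
    intro s hs
    have h1 : b < s.re := (le_max_left _ _).trans_lt hs
    have h2 : 1 / 2 < s.re := (le_max_right _ _).trans_lt hs
    rw [Q.P.LE_dbl τ h2]
    unfold L2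
    rw [← Q.hexp (s + τ * I) (by rw [Pc.re_lt]; exact h1),
      ← Q.hexp (conj s + τ * I) (by rw [Pc.re_lt, Complex.conj_re]; exact h1), map_mul]
    ring
  hlow := by
    intro s hs
    have h1 : b < s.re := (le_max_left _ _).trans_lt hs
    have hC := Q.C0
    have key : ∀ z : ℂ, b < z.re → 1 ≤ C * (1 + |τ|) ^ κ * (1 + ‖z‖) ^ κ * ‖G₂ (z + τ * I)‖ := by
      intro z hz
      refine (Q.hlow (z + τ * I) (by rw [Pc.re_lt]; exact hz)).trans ?_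
      have h5 := shift_le τ z
      calc C * (1 + ‖z + τ * I‖) ^ κ * ‖G₂ (z + τ * I)‖ ≤
            C * ((1 + |τ|) * (1 + ‖z‖)) ^ κ * ‖G₂ (z + τ * I)‖ := by gcongr
        _ = _ := by rw [mul_pow]; ring
    have e1 := key s h1
    have e2 := key (conj s) (by rw [Complex.conj_re]; exact h1)
    rw [Complex.norm_conj] at e2
    unfold L2
    rw [norm_mul, Complex.norm_conj, pow_add]
    calc (1 : ℝ) ≤ (C * (1 + |τ|) ^ κ * (1 + ‖s‖) ^ κ * ‖G₂ (s + τ * I)‖) *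
          (C * (1 + |τ|) ^ κ * (1 + ‖s‖) ^ κ * ‖G₂ (conj s + τ * I)‖) :=
          one_le_mul_of_one_le_of_one_le e1 e2
      _ = _ := by ring

/-- the local form of the quotient -/
theorem local_quot (Q : Qe N α G₁ G₂ κ η C b) {s : ℂ} (hs : -η < s.re) :
    ∃ (p : ℤ) (g : ℂ → ℂ), meromorphicOrderAt (fun s => G₁ s / G₂ s) s = p ∧ AnalyticAt ℂ g s ∧
      g s ≠ 0 ∧ ∀ᶠ z in 𝓝[≠] s, G₁ z / G₂ z = (z - s) ^ p * g z := by
  -- the doubled system at the height of `s`, on the real axis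
  set τ : ℝ := s.im with hτ
  have hre : ((s.re : ℝ) : ℂ) + τ * I = s := by rw [hτ]; exact Complex.re_add_im s
  have Q' := Q.qc τ
  have hs' : -η < ((s.re : ℝ) : ℂ).re := by rw [Complex.ofReal_re]; exact hs
  have hev : ∀ᶠ z in 𝓝[≠] ((s.re : ℝ) : ℂ), L2 G₁ τ z ≠ 0 ∧ L2 G₂ τ z ≠ 0 :=
    (Q'.ev_ne₁ hs').and (Q'.ev_ne₂ hs')
  have hmap : Tendsto (fun z : ℂ => z - τ * I) (𝓝[≠] s) (𝓝[≠] ((s.re : ℝ) : ℂ)) := by
    refine tendsto_nhdsWithin_iff.2 ⟨?_, ?_⟩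
    · have h1 : Continuous fun z : ℂ => z - τ * I := by fun_prop
      have h2 := (h1.tendsto s).mono_left (nhdsWithin_le_nhds (s := {s}ᶜ))
      have h3 : s - τ * I = ((s.re : ℝ) : ℂ) := by
        rw [sub_eq_iff_eq_add]
        exact hre.symm
      rwa [h3] at h2
    · filter_upwards [self_mem_nhdsWithin] with z hz
      intro h
      apply hz
      have h4 : z - τ * I = ((s.re : ℝ) : ℂ) := h
      rw [mem_singleton_iff, ← hre, ← h4]
      ring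
  have hne : ∀ᶠ z in 𝓝[≠] s, G₁ z ≠ 0 ∧ G₂ z ≠ 0 := by
    filter_upwards [hmap.eventually hev] with z hz
    unfold L2 at hz
    rw [sub_add_cancel] at hz
    exact ⟨left_ne_zero_of_mul hz.1, left_ne_zero_of_mul hz.2⟩
  have hU : IsOpen {s : ℂ | -η < s.re} := isOpen_lt continuous_const continuous_re
  have a1 : AnalyticAt ℂ G₁ s := DifferentiableOn.analyticOnNhd
    (fun z hz => (Q.hG₁ z hz).differentiableWithinAt) hU s hs
  have a2 : AnalyticAt ℂ G₂ s := DifferentiableOn.analyticOnNhd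
    (fun z hz => (Q.hG₂ z hz).differentiableWithinAt) hU s hs
  have hm : MeromorphicAt (fun s => G₁ s / G₂ s) s := a1.meromorphicAt.div a2.meromorphicAt
  have h1 : meromorphicOrderAt (fun s => G₁ s / G₂ s) s ≠ ⊤ := by
    intro h
    rw [meromorphicOrderAt_eq_top_iff] at h
    have h2 : ∀ᶠ z in 𝓝[≠] s, False := by
      filter_upwards [h, hne] with z h3 h4
      exact div_ne_zero h4.1 h4.2 h3
    rw [eventually_false_iff_eq_bot] at h2
    exact (NeBot.ne inferInstance) h2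
  obtain ⟨p, hp⟩ := WithTop.ne_top_iff_exists.1 h1
  obtain ⟨g, hg, hg0, hge⟩ := (meromorphicOrderAt_eq_int_iff hm).1 hp.symm
  refine ⟨p, g, hp.symm, hg, hg0, ?_⟩
  filter_upwards [hge] with z hz
  rw [hz, smul_eq_mul]

/-- the norm of the doubled quotient near a point -/
theorem _root_.Pool.Agent.V11288.QU.dbl_form (τ : ℝ) {s₀ : ℂ} {p₁ p₂ : ℤ}
    {g₁ g₂ : ℂ → ℂ} (h₁ : ContinuousAt g₁ (s₀ + τ * I)) (h₂ : ContinuousAt g₂ (conj s₀ + τ * I))
    (e₁ : ∀ᶠ z in 𝓝[≠] (s₀ + τ * I), G₁ z / G₂ z = (z - (s₀ + τ * I)) ^ p₁ * g₁ z)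
    (e₂ : ∀ᶠ z in 𝓝[≠] (conj s₀ + τ * I), G₁ z / G₂ z = (z - (conj s₀ + τ * I)) ^ p₂ * g₂ z) :
    (∀ᶠ s in 𝓝[≠] s₀, ‖L2 G₁ τ s / L2 G₂ τ s‖ =
      ‖s - s₀‖ ^ (p₁ + p₂) * (‖g₁ (s + τ * I)‖ * ‖g₂ (conj s + τ * I)‖)) ∧
    Tendsto (fun s => ‖g₁ (s + τ * I)‖ * ‖g₂ (conj s + τ * I)‖) (𝓝[≠] s₀)
      (𝓝 (‖g₁ (s₀ + τ * I)‖ * ‖g₂ (conj s₀ + τ * I)‖)) := by
  have m1 : Tendsto (fun s : ℂ => s + τ * I) (𝓝 s₀) (𝓝 (s₀ + τ * I)) := by
    have h1 : Continuous fun s : ℂ => s + τ * I := by fun_prop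
    exact h1.tendsto s₀
  have m2 : Tendsto (fun s : ℂ => conj s + τ * I) (𝓝 s₀) (𝓝 (conj s₀ + τ * I)) := by
    have h1 : Continuous fun s : ℂ => conj s + τ * I :=
      Complex.continuous_conj.add continuous_const
    exact h1.tendsto s₀
  have m1' : Tendsto (fun s : ℂ => s + τ * I) (𝓝[≠] s₀) (𝓝[≠] (s₀ + τ * I)) := by
    refine tendsto_nhdsWithin_iff.2 ⟨m1.mono_left nhdsWithin_le_nhds, ?_⟩
    filter_upwards [self_mem_nhdsWithin] with z hz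
    intro h
    exact hz (add_right_cancel (show z + τ * I = s₀ + τ * I from h))
  have m2' : Tendsto (fun s : ℂ => conj s + τ * I) (𝓝[≠] s₀) (𝓝[≠] (conj s₀ + τ * I)) := by
    refine tendsto_nhdsWithin_iff.2 ⟨m2.mono_left nhdsWithin_le_nhds, ?_⟩
    filter_upwards [self_mem_nhdsWithin] with z hz
    intro h
    exact hz ((starRingEnd ℂ).injective (add_right_cancel (show conj z + τ * I = conj s₀ + τ * I from h)))
  refine ⟨?_, ?_⟩
  · filter_upwards [m1'.eventually e₁, m2'.eventually e₂, self_mem_nhdsWithin] with s f1 f2 hs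
    have hs0 : ‖s - s₀‖ ≠ 0 := norm_ne_zero_iff.2 (sub_ne_zero.2 hs)
    have e3 : ‖L2 G₁ τ s / L2 G₂ τ s‖ = ‖G₁ (s + τ * I) / G₂ (s + τ * I)‖ *
        ‖G₁ (conj s + τ * I) / G₂ (conj s + τ * I)‖ := by
      unfold L2
      rw [norm_div, norm_mul, norm_mul, Complex.norm_conj, Complex.norm_conj, norm_div, norm_div]
      rw [div_mul_div_comm]
    rw [e3, f1, f2, norm_mul, norm_mul, norm_zpow, norm_zpow]
    have e4 : s + τ * I - (s₀ + τ * I) = s - s₀ := by ring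
    have e5 : conj s + τ * I - (conj s₀ + τ * I) = conj (s - s₀) := by
      rw [map_sub]
      ring
    rw [e4, e5, Complex.norm_conj, zpow_add₀ hs0]
    ring
  · exact ((h₁.tendsto.comp m1).norm.mul (h₂.tendsto.comp m2).norm).mono_left nhdsWithin_le_nhds

/-- the order of the doubled quotient -/
theorem ord_dbl (Q : Qe N α G₁ G₂ κ η C b) (τ : ℝ) {s₀ : ℂ} (hs : -η < s₀.re) :
    meromorphicOrderAt (fun s => L2 G₁ τ s / L2 G₂ τ s) s₀ = 0 ↔
      meromorphicOrderAt (fun s => G₁ s / G₂ s) (s₀ + τ * I) +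
        meromorphicOrderAt (fun s => G₁ s / G₂ s) (conj s₀ + τ * I) = 0 := by
  obtain ⟨p₁, g₁, hp₁, hg₁, hg₁0, e₁⟩ := Q.local_quot (s := s₀ + τ * I) (by rw [Pc.re_lt]; exact hs)
  obtain ⟨p₂, g₂, hp₂, hg₂, hg₂0, e₂⟩ := Q.local_quot (s := conj s₀ + τ * I) (by
    rw [Pc.re_lt, Complex.conj_re]
    exact hs)
  obtain ⟨f1, f2⟩ := dbl_form τ hg₁.continuousAt hg₂.continuousAt e₁ e₂
  have hc : 0 < ‖g₁ (s₀ + τ * I)‖ * ‖g₂ (conj s₀ + τ * I)‖ :=
    mul_pos (norm_pos_iff.2 hg₁0) (norm_pos_iff.2 hg₂0)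
  rw [ord_zero_iff ((Q.qc τ).mero hs), hp₁, hp₂]
  have e3 : ((p₁ : WithTop ℤ) + (p₂ : WithTop ℤ) = 0) ↔ p₁ + p₂ = 0 := by
    rw [← WithTop.coe_add, ← WithTop.coe_zero, WithTop.coe_inj]
  rw [e3]
  constructor
  · rintro ⟨c, hc0, h⟩
    have h1 := (lim_iff (k := 0) hc hc0 f1 f2).1 (by simpa using h)
    exact h1.1
  · intro h
    refine ⟨_, hc, ?_⟩
    have h1 := (lim_iff (k := 0) hc hc f1 f2).2 ⟨h, rfl⟩
    simpa using h1

/-- **The criterion at one point of the line** -/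
theorem point (Q : Qe N α G₁ G₂ κ η C b) (τ ρ : ℝ) {A : ℝ} (hA : 0 < A) :
    ((∀ s : ℂ, 0 < s.re → meromorphicOrderAt (fun s => G₁ s / G₂ s) (s + τ * I) +
        meromorphicOrderAt (fun s => G₁ s / G₂ s) (conj s + τ * I) = 0) ∧
      ∃ k : ℤ, ρ = k ∧ Tendsto (fun s => ‖G₁ (s + τ * I) / G₂ (s + τ * I)‖ / ‖s‖ ^ k)
        (𝓝[≠] (0 : ℂ)) (𝓝 A)) ↔ Ms N α τ ρ (Real.log A) < ⊤ := by
  have hη := Q.hη
  have h00 : -η < (0 : ℂ).re := by simpa using hη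
  obtain ⟨p, g, hp, hg, hg0, e⟩ := Q.local_quot (s := (0 : ℂ) + τ * I) (by rw [Pc.re_lt]; exact h00)
  have hg' : AnalyticAt ℂ g (conj (0 : ℂ) + τ * I) := by rwa [map_zero]
  have e' : ∀ᶠ z in 𝓝[≠] (conj (0 : ℂ) + τ * I), G₁ z / G₂ z = (z - (conj (0 : ℂ) + τ * I)) ^ p * g z := by
    rw [map_zero]
    exact e
  obtain ⟨f1, f2⟩ := dbl_form τ hg.continuousAt hg'.continuousAt e e'
  rw [map_zero] at f2
  have hn : 0 < ‖g (0 + τ * I)‖ := norm_pos_iff.2 hg0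
  have hc : 0 < ‖g (0 + τ * I)‖ * ‖g (0 + τ * I)‖ := mul_pos hn hn
  -- the single form
  have m1 : Tendsto (fun s : ℂ => s + τ * I) (𝓝[≠] 0) (𝓝[≠] ((0 : ℂ) + τ * I)) := by
    refine tendsto_nhdsWithin_iff.2 ⟨?_, ?_⟩
    · have h1 : Continuous fun s : ℂ => s + τ * I := by fun_prop
      exact (h1.tendsto 0).mono_left nhdsWithin_le_nhds
    · filter_upwards [self_mem_nhdsWithin] with z hz
      intro h
      exact hz (add_right_cancel (show z + τ * I = 0 + τ * I from h))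
  have s1 : ∀ᶠ s in 𝓝[≠] (0 : ℂ), ‖G₁ (s + τ * I) / G₂ (s + τ * I)‖ =
      ‖s - 0‖ ^ p * ‖g (s + τ * I)‖ := by
    filter_upwards [m1.eventually e] with s hs
    rw [hs, norm_mul, norm_zpow]
    congr 2
    ring_nf
  have s2 : Tendsto (fun s => ‖g (s + τ * I)‖) (𝓝[≠] (0 : ℂ)) (𝓝 ‖g (0 + τ * I)‖) :=
    ((hg.continuousAt.tendsto.mono_left nhdsWithin_le_nhds).comp m1).norm
  have hcrit := (Q.qc τ).crit (2 * ρ) (A := A ^ 2) (by positivity)
  have hlog : Real.log (A ^ 2) = 2 * Real.log A := by rw [Real.log_pow]; norm_num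
  rw [hlog, ms_dbl] at hcrit
  rw [← mul_four_lt (x := Ms N α τ ρ (Real.log A)), ← hcrit.1]
  refine and_congr ?_ ?_
  · refine forall_congr' fun s => ?_
    constructor
    · intro h hs
      exact (Q.ord_dbl τ (by linarith)).2 (h hs)
    · intro h hs
      exact (Q.ord_dbl τ (by linarith)).1 (h hs)
  · constructor
    · rintro ⟨k, hk, h⟩
      have h1 := (lim_iff (x := 0) (k := k) hn hA s1 s2).1 (by simpa using h)
      refine ⟨k + k, by rw [hk]; push_cast; ring, ?_⟩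
      have h2 := (lim_iff (x := 0) (k := k + k) (A := A ^ 2) hc (by positivity) f1 f2).2
        ⟨by rw [h1.1], by rw [h1.2]; ring⟩
      simpa using h2
    · rintro ⟨k, hk, h⟩
      have h1 := (lim_iff (x := 0) (k := k) (A := A ^ 2) hc (by positivity) f1 f2).1 (by simpa using h)
      have h3 : ‖g (0 + τ * I)‖ = A := by
        have h4 := h1.2
        nlinarith
      refine ⟨p, ?_, ?_⟩
      · have h4 : (k : ℝ) = p + p := by
          rw [← h1.1]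
          push_cast
          ring
        rw [h4] at hk
        linarith
      · have h2 := (lim_iff (x := 0) (k := p) hn hA s1 s2).2 ⟨rfl, h3⟩
        simpa using h2

/-- **The criterion for the whole line** -/
theorem all (Q : Qe N α G₁ G₂ κ η C b) (ρ A : ℝ → ℝ) (hA : ∀ t, 0 < A t) :
    ((∀ s : ℂ, 0 < s.re → meromorphicOrderAt (fun s => G₁ s / G₂ s) s = 0) ∧
      ∀ t : ℝ, ∃ k : ℤ, ρ t = k ∧ Tendsto (fun s => ‖G₁ (s + t * I) / G₂ (s + t * I)‖ / ‖s‖ ^ k)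
        (𝓝[≠] (0 : ℂ)) (𝓝 (A t))) ↔ ∀ t : ℝ, Ms N α t (ρ t) (Real.log (A t)) < ⊤ := by
  constructor
  · rintro ⟨h1, h2⟩ t
    refine (Q.point t (ρ t) (hA t)).1 ⟨fun s hs => ?_, h2 t⟩
    rw [h1 _ (by rw [Pc.re_lt]; exact hs), h1 _ (by rw [Pc.re_lt, Complex.conj_re]; exact hs), add_zero]
  · intro h
    refine ⟨fun s hs => ?_, fun t => ((Q.point t (ρ t) (hA t)).2 (h t)).2⟩
    have h1 := ((Q.point s.im (ρ s.im) (hA _)).2 (h s.im)).1 (s.re : ℂ) (by simpa using hs)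
    rw [Complex.conj_ofReal, Complex.re_add_im] at h1
    have hη := Q.hη
    obtain ⟨p, g, hp, -⟩ := Q.local_quot (s := s) (by linarith)
    rw [hp] at h1 ⊢
    have e3 : ((p : WithTop ℤ) + (p : WithTop ℤ) = 0) ↔ p + p = 0 := by
      rw [← WithTop.coe_add, ← WithTop.coe_zero, WithTop.coe_inj]
    rw [e3] at h1
    have h2 : p = 0 := by omega
    rw [h2]
    rfl

/-- **The formula on the line** -/
theorem formula (Q : Qe N α G₁ G₂ κ η C b) (τ ρ : ℝ) {A : ℝ} (hA : 0 < A)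
    (h : Ms N α τ ρ (Real.log A) < ⊤) :
    Ms N α τ ρ (Real.log A) = ENNReal.ofReal Real.pi⁻¹ * ∫⁻ t : ℝ, ENNReal.ofReal
      (((Real.log ‖G₁ ((τ + t) * I) / G₂ ((τ + t) * I)‖ +
        Real.log ‖G₁ ((τ - t) * I) / G₂ ((τ - t) * I)‖) / 2 - ρ * Real.log |t| - Real.log A) ^ 2 /
          t ^ 2) := by
  have hcrit := (Q.qc τ).crit (2 * ρ) (A := A ^ 2) (by positivity)
  have hlog : Real.log (A ^ 2) = 2 * Real.log A := by rw [Real.log_pow]; norm_num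
  rw [hlog, ms_dbl] at hcrit
  have h1 := hcrit.2 (mul_four_lt.2 h)
  have hae : ∀ᵐ t : ℝ, (G₁ ((τ + t) * I) ≠ 0 ∧ G₂ ((τ + t) * I) ≠ 0) ∧
      (G₁ ((τ - t) * I) ≠ 0 ∧ G₂ ((τ - t) * I) ≠ 0) := by
    have hη := Q.hη
    have Q' := Q.qc τ
    set z₀ : ℂ := ((max b 0 + 1 : ℝ) : ℂ) with hz₀
    have h0 : (0 : ℝ) < z₀.re := by
      rw [hz₀, ofReal_re]
      linarith [le_max_right b 0]
    -- points where the doubled functions do not vanish
    have hz1 : -η < z₀.re := by linarith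
    obtain ⟨w, hw1, hw2, hw3⟩ : ∃ w : ℂ, -η < w.re ∧ L2 G₁ τ w ≠ 0 ∧ L2 G₂ τ w ≠ 0 := by
      have h3 : ∀ᶠ w in 𝓝[≠] z₀, -η < w.re :=
        nhdsWithin_le_nhds ((isOpen_lt continuous_const continuous_re).mem_nhds hz1)
      obtain ⟨w, ⟨h4, h5⟩, h6⟩ := (((Q'.ev_ne₁ hz1).and (Q'.ev_ne₂ hz1)).and h3).exists
      exact ⟨w, h6, h4, h5⟩
    have a1 := ae_ne hη (fun s hs => l2_diff Q.hG₁ τ hs) hw1 hw2
    have a2 := ae_ne hη (fun s hs => l2_diff Q.hG₂ τ hs) hw1 hw3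
    filter_upwards [a1, a2] with t b1 b2
    unfold L2 at b1 b2
    have e1 : (t : ℂ) * I + τ * I = (τ + t) * I := by ring
    have e2 : conj ((t : ℂ) * I) + τ * I = (τ - t) * I := by
      rw [map_mul, Complex.conj_ofReal, Complex.conj_I]
      ring
    rw [e1, e2] at b1 b2
    exact ⟨⟨left_ne_zero_of_mul b1, left_ne_zero_of_mul b2⟩,
      ⟨fun h => right_ne_zero_of_mul b1 (by rw [h, map_zero]),
        fun h => right_ne_zero_of_mul b2 (by rw [h, map_zero])⟩⟩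
  have h2 : ∫⁻ t : ℝ, ENNReal.ofReal
      ((Real.log ‖L2 G₁ τ (t * I) / L2 G₂ τ (t * I)‖ - 2 * ρ * Real.log |t| - 2 * Real.log A) ^ 2 /
        t ^ 2) = 4 * ∫⁻ t : ℝ, ENNReal.ofReal
      (((Real.log ‖G₁ ((τ + t) * I) / G₂ ((τ + t) * I)‖ +
        Real.log ‖G₁ ((τ - t) * I) / G₂ ((τ - t) * I)‖) / 2 - ρ * Real.log |t| - Real.log A) ^ 2 /
          t ^ 2) := by
    rw [← lintegral_const_mul' _ _ (by norm_num)]
    refine lintegral_congr_ae ?_
    filter_upwards [hae] with t ht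
    have e1 : (t : ℂ) * I + τ * I = (τ + t) * I := by ring
    have e2 : conj ((t : ℂ) * I) + τ * I = (τ - t) * I := by
      rw [map_mul, Complex.conj_ofReal, Complex.conj_I]
      ring
    have e3 : Real.log ‖L2 G₁ τ (t * I) / L2 G₂ τ (t * I)‖ =
        Real.log ‖G₁ ((τ + t) * I) / G₂ ((τ + t) * I)‖ +
          Real.log ‖G₁ ((τ - t) * I) / G₂ ((τ - t) * I)‖ := by
      unfold L2
      rw [e1, e2, norm_div, norm_mul, norm_mul, Complex.norm_conj, Complex.norm_conj,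
        ← div_mul_div_comm, ← norm_div, ← norm_div, Real.log_mul
        (norm_ne_zero_iff.2 (div_ne_zero ht.1.1 ht.1.2))
        (norm_ne_zero_iff.2 (div_ne_zero ht.2.1 ht.2.2))]
    rw [e3, show (4 : ℝ≥0∞) = ENNReal.ofReal 4 by norm_num, ← ENNReal.ofReal_mul (by norm_num)]
    congr 1
    ring
  rw [h2] at h1
  have h5 : (4 : ℝ≥0∞) ≠ 0 := by norm_num
  have h6 : (4 : ℝ≥0∞) ≠ ⊤ := by norm_num
  have h7 : ∀ a x y : ℝ≥0∞, 4 * x = a * (4 * y) → x = a * y := by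
    intro a x y h
    have h8 : 4 * x = 4 * (a * y) := by rw [h]; ring
    exact (ENNReal.mul_right_inj h5 h6).1 h8
  exact h7 _ _ _ h1

/-- the order and the leading coefficient at a point of the line -/
theorem exists_order (Q : Qe N α G₁ G₂ κ η C b) (τ : ℝ) : ∃ (k : ℤ) (A : ℝ), 0 < A ∧
    meromorphicOrderAt (fun s => G₁ s / G₂ s) (τ * I) = k ∧
    Tendsto (fun s => ‖G₁ (s + τ * I) / G₂ (s + τ * I)‖ / ‖s‖ ^ k) (𝓝[≠] (0 : ℂ)) (𝓝 A) := by
  have h00 : -η < ((0 : ℂ) + τ * I).re := by rw [Pc.re_lt]; simpa using Q.hη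
  obtain ⟨p, g, hp, hg, hg0, e⟩ := Q.local_quot h00
  have hn : 0 < ‖g (0 + τ * I)‖ := norm_pos_iff.2 hg0
  have m1 : Tendsto (fun s : ℂ => s + τ * I) (𝓝[≠] 0) (𝓝[≠] ((0 : ℂ) + τ * I)) := by
    refine tendsto_nhdsWithin_iff.2 ⟨?_, ?_⟩
    · have h1 : Continuous fun s : ℂ => s + τ * I := by fun_prop
      exact (h1.tendsto 0).mono_left nhdsWithin_le_nhds
    · filter_upwards [self_mem_nhdsWithin] with z hz
      intro h
      exact hz (add_right_cancel (show z + τ * I = 0 + τ * I from h))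
  have s1 : ∀ᶠ s in 𝓝[≠] (0 : ℂ), ‖G₁ (s + τ * I) / G₂ (s + τ * I)‖ =
      ‖s - 0‖ ^ p * ‖g (s + τ * I)‖ := by
    filter_upwards [m1.eventually e] with s hs
    rw [hs, norm_mul, norm_zpow]
    congr 2
    ring_nf
  have s2 : Tendsto (fun s => ‖g (s + τ * I)‖) (𝓝[≠] (0 : ℂ)) (𝓝 ‖g (0 + τ * I)‖) :=
    ((hg.continuousAt.tendsto.mono_left nhdsWithin_le_nhds).comp m1).norm
  refine ⟨p, ‖g (0 + τ * I)‖, hn, ?_, ?_⟩
  · rw [zero_add] at hp
    exact hp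
  · have h2 := (lim_iff (x := 0) (k := p) hn hn s1 s2).2 ⟨rfl, rfl⟩
    simpa using h2

/-- the order from the limit -/
theorem order_of (Q : Qe N α G₁ G₂ κ η C b) {τ : ℝ} {k : ℤ} {A : ℝ} (hA : 0 < A)
    (h : Tendsto (fun s => ‖G₁ (s + τ * I) / G₂ (s + τ * I)‖ / ‖s‖ ^ k) (𝓝[≠] (0 : ℂ)) (𝓝 A)) :
    meromorphicOrderAt (fun s => G₁ s / G₂ s) (τ * I) = k := by
  obtain ⟨k', A', hA', h1, h2⟩ := Q.exists_order τ
  have h3 := (lim_iff (F := fun s => ‖G₁ (s + τ * I) / G₂ (s + τ * I)‖)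
    (G := fun s => ‖G₁ (s + τ * I) / G₂ (s + τ * I)‖ / ‖s‖ ^ k') (x := 0) (p := k') (k := k) hA' hA (by
      filter_upwards [self_mem_nhdsWithin] with s hs
      have hs0 : ‖s‖ ≠ 0 := norm_ne_zero_iff.2 hs
      rw [sub_zero]
      field_simp) h2).1 (by simpa using h)
  rw [h1, h3.1]

end Qe

end Pool.Agent.V11288.QU
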