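import Pool.Agent.V11288.QU.Dbl

/-!
# Quotients: general Dirichlet series

The theorems of `QU.Mero` and `QU.Dbl` for logarithms given by general Dirichlet series.
-/

set_option autoImplicit false

open MeasureTheory Filter Topology Set Complex
open scoped ENNReal ComplexConjugate
open Pool.Agent.TH942.LS (Dat)
open Pool.Agent.TH942.SL
open Pool.Agent.TH942.ES
open Pool.Agent.TH270.MS
open Pool.Agent.V11288.HS

namespace Pool.Agent.V11288.QU

/-- the exponential of a Dirichlet series with a continuation as a quotient of two functions of polynomial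
growth -/
structure Qd (lam c : ℕ → ℝ) (δ σ : ℝ) (G₁ G₂ : ℂ → ℂ) (κ : ℕ) (η C b : ℝ) : Prop where
  D : Dat lam c δ σ
  hη : 0 < η
  hG₁ : ∀ s : ℂ, -η < s.re → DifferentiableAt ℂ G₁ s
  hG₂ : ∀ s : ℂ, -η < s.re → DifferentiableAt ℂ G₂ s
  hgrow₁ : ∀ s : ℂ, -η < s.re → ‖G₁ s‖ ≤ C * (1 + ‖s‖) ^ κ
  hgrow₂ : ∀ s : ℂ, -η < s.re → ‖G₂ s‖ ≤ C * (1 + ‖s‖) ^ κ
  hexp : ∀ s : ℂ, b < s.re → exp (DD lam c s) * G₂ s = G₁ s
  hlow : ∀ s : ℂ, b < s.re → 1 ≤ C * (1 + ‖s‖) ^ κ * ‖G₂ s‖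

namespace Qd

variable {lam c : ℕ → ℝ} {δ σ : ℝ} {G₁ G₂ : ℂ → ℂ} {κ : ℕ} {η C b : ℝ}

theorem open_hp (c : ℝ) : IsOpen {s : ℂ | c < s.re} := isOpen_lt continuous_const continuous_re

/-- the data for the Laplace transform -/
theorem gq (Q : Qd lam c δ σ G₁ G₂ κ η C b) (r q : ℝ) :
    ∃ a B : ℝ, Gq (Df lam c r q) G₁ G₂ r q κ a η C B := by
  have D := Q.D
  set S₀ : ℝ := ∑' n, |c n| * Real.exp (-(σ * lam n)) with hS₀
  have hS0 : 0 ≤ S₀ := tsum_nonneg fun n => by positivity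
  set a : ℝ := max (max 1 σ) b with ha
  have ha1 : 1 ≤ a := (le_max_left _ _).trans (le_max_left _ _)
  have haσ : σ ≤ a := (le_max_right _ _).trans (le_max_left _ _)
  have hab : b ≤ a := le_max_right _ _
  have hel : ∀ s : ℂ, a < s.re → el (Df lam c r q) r q s = DD lam c s := by
    intro s hs
    have h1 := ell_eq D r q (s := s) (by linarith)
    rw [← h1]
    rfl
  have hne : ∀ s : ℂ, b < s.re → G₂ s ≠ 0 := by
    intro s hs h
    have h1 := Q.hlow s hs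
    rw [h, norm_zero, mul_zero] at h1
    linarith
  have hbd : ∀ s : ℂ, σ ≤ s.re → ‖DD lam c s‖ ≤ S₀ := by
    intro s hs
    have h1 : ∀ n, ‖(c n : ℂ) * exp (-(s * lam n))‖ ≤ |c n| * Real.exp (-(σ * lam n)) := by
      intro n
      rw [dd_term]
      gcongr
      exact (D.lam0 n).le
    unfold DD
    exact (norm_tsum_le_tsum_norm (Summable.of_nonneg_of_le (fun n => norm_nonneg _) h1 D.sum)).trans
      (Summable.tsum_le_tsum h1 (Summable.of_nonneg_of_le (fun n => norm_nonneg _) h1 D.sum) D.sum)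
  refine ⟨a, S₀ + |Real.log C| + κ, ⟨df_meas D r q, fun u hu => df_zero r q hu, by linarith,
    fun x hx => df_int D r q (by rw [Complex.ofReal_re]; linarith), Q.hη, by positivity, Q.hG₁, Q.hG₂,
    Q.hgrow₁, Q.hgrow₂, fun s hs => ?_, fun s hs => ?_, fun s hs => hne s (by linarith),
    fun s hs => ?_⟩⟩
  · rw [hel s hs]
    exact Q.hexp s (by linarith)
  · rw [hel s hs]
    have l0 : 0 ≤ Real.log (1 + ‖s‖) := Real.log_nonneg (by linarith [norm_nonneg s])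
    refine (hbd s (by linarith)).trans ?_
    have h1 : S₀ ≤ S₀ + |Real.log C| + κ := by
      have := abs_nonneg (Real.log C)
      have h2 : (0 : ℝ) ≤ κ := κ.cast_nonneg
      linarith
    have h3 : 0 ≤ (S₀ + |Real.log C| + κ) * Real.log (1 + ‖s‖) := by positivity
    linarith
  · have l0 : 0 ≤ Real.log (1 + ‖s‖) := Real.log_nonneg (by linarith [norm_nonneg s])
    have h1 := Q.hlow s (by linarith)
    have h2 : 0 < ‖G₂ s‖ := norm_pos_iff.2 (hne s (by linarith))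
    have h3 : (0 : ℝ) < (1 + ‖s‖) ^ κ := by positivity
    have hC : 0 < C := by
      by_contra hC
      push Not at hC
      have : C * (1 + ‖s‖) ^ κ * ‖G₂ s‖ ≤ 0 :=
        mul_nonpos_of_nonpos_of_nonneg (mul_nonpos_of_nonpos_of_nonneg hC h3.le) h2.le
      linarith
    have h4 := Real.log_nonneg h1
    rw [Real.log_mul (by positivity) h2.ne', Real.log_mul hC.ne' h3.ne', Real.log_pow] at h4
    have h5 := le_abs_self (Real.log C)
    have h6 : 0 ≤ (S₀ + |Real.log C|) * Real.log (1 + ‖s‖) := by positivity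
    have h7 : (0 : ℝ) ≤ κ := κ.cast_nonneg
    nlinarith

theorem an₁ (Q : Qd lam c δ σ G₁ G₂ κ η C b) : AnalyticOnNhd ℂ G₁ {s : ℂ | -η < s.re} :=
  DifferentiableOn.analyticOnNhd (fun z hz => (Q.hG₁ z hz).differentiableWithinAt) (open_hp _)

theorem an₂ (Q : Qd lam c δ σ G₁ G₂ κ η C b) : AnalyticOnNhd ℂ G₂ {s : ℂ | -η < s.re} :=
  DifferentiableOn.analyticOnNhd (fun z hz => (Q.hG₂ z hz).differentiableWithinAt) (open_hp _)

/-- the denominator does not vanish identically near a point -/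
theorem ev_ne₂ (Q : Qd lam c δ σ G₁ G₂ κ η C b) {s : ℂ} (hs : -η < s.re) : ∀ᶠ z in 𝓝[≠] s, G₂ z ≠ 0 := by
  set z₀ : ℂ := ((max b 0 + 1 : ℝ) : ℂ) with hz₀
  have hb : b < z₀.re := by
    rw [hz₀, ofReal_re]
    linarith [le_max_left b 0]
  have h0 : (0 : ℝ) < z₀.re := by
    rw [hz₀, ofReal_re]
    linarith [le_max_right b 0]
  have hη := Q.hη
  have hz1 : z₀ ∈ {s : ℂ | -η < s.re} := by
    show -η < z₀.re
    linarith
  have hne : G₂ z₀ ≠ 0 := by
    intro h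
    have h1 := Q.hlow z₀ hb
    rw [h, norm_zero, mul_zero] at h1
    linarith
  have h1 : analyticOrderAt G₂ z₀ ≠ ⊤ := by
    rw [(Q.an₂ _ hz1).analyticOrderAt_eq_zero.2 hne]
    exact ENat.zero_ne_top
  have h2 := Q.an₂.analyticOrderAt_ne_top_of_isPreconnected
    (convex_halfSpace_re_gt (-η)).isPreconnected hz1 (show s ∈ {s : ℂ | -η < s.re} from hs) h1
  rcases (Q.an₂ s hs).eventually_eq_zero_or_eventually_ne_zero with h | h
  · exact absurd (analyticOrderAt_eq_top.2 h) h2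
  · exact h

/-- the numerator does not vanish identically near a point -/
theorem ev_ne₁ (Q : Qd lam c δ σ G₁ G₂ κ η C b) {s : ℂ} (hs : -η < s.re) : ∀ᶠ z in 𝓝[≠] s, G₁ z ≠ 0 := by
  set z₀ : ℂ := ((max b 0 + 1 : ℝ) : ℂ) with hz₀
  have hb : b < z₀.re := by
    rw [hz₀, ofReal_re]
    linarith [le_max_left b 0]
  have h0 : (0 : ℝ) < z₀.re := by
    rw [hz₀, ofReal_re]
    linarith [le_max_right b 0]
  have hη := Q.hη
  have hz1 : z₀ ∈ {s : ℂ | -η < s.re} := by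
    show -η < z₀.re
    linarith
  have hne : G₁ z₀ ≠ 0 := by
    rw [← Q.hexp z₀ hb]
    refine mul_ne_zero (exp_ne_zero _) ?_
    intro h
    have h1 := Q.hlow z₀ hb
    rw [h, norm_zero, mul_zero] at h1
    linarith
  have h1 : analyticOrderAt G₁ z₀ ≠ ⊤ := by
    rw [(Q.an₁ _ hz1).analyticOrderAt_eq_zero.2 hne]
    exact ENat.zero_ne_top
  have h2 := Q.an₁.analyticOrderAt_ne_top_of_isPreconnected
    (convex_halfSpace_re_gt (-η)).isPreconnected hz1 (show s ∈ {s : ℂ | -η < s.re} from hs) h1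
  rcases (Q.an₁ s hs).eventually_eq_zero_or_eventually_ne_zero with h | h
  · exact absurd (analyticOrderAt_eq_top.2 h) h2
  · exact h

theorem mero (Q : Qd lam c δ σ G₁ G₂ κ η C b) {s : ℂ} (hs : -η < s.re) :
    MeromorphicAt (fun s => G₁ s / G₂ s) s :=
  (Q.an₁ s hs).meromorphicAt.div (Q.an₂ s hs).meromorphicAt

/-- the local form of the quotient -/
theorem local_quot (Q : Qd lam c δ σ G₁ G₂ κ η C b) {s : ℂ} (hs : -η < s.re) :
    ∃ (p : ℤ) (g : ℂ → ℂ), meromorphicOrderAt (fun s => G₁ s / G₂ s) s = p ∧ AnalyticAt ℂ g s ∧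
      g s ≠ 0 ∧ ∀ᶠ z in 𝓝[≠] s, G₁ z / G₂ z = (z - s) ^ p * g z := by
  have h1 : meromorphicOrderAt (fun s => G₁ s / G₂ s) s ≠ ⊤ := by
    intro h
    rw [meromorphicOrderAt_eq_top_iff] at h
    have h2 : ∀ᶠ z in 𝓝[≠] s, False := by
      filter_upwards [h, Q.ev_ne₁ hs, Q.ev_ne₂ hs] with z h3 h4 h5
      exact div_ne_zero h4 h5 h3
    rw [eventually_false_iff_eq_bot] at h2
    exact (NeBot.ne inferInstance) h2
  obtain ⟨p, hp⟩ := WithTop.ne_top_iff_exists.1 h1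
  obtain ⟨g, hg, hg0, hge⟩ := (meromorphicOrderAt_eq_int_iff (Q.mero hs)).1 hp.symm
  refine ⟨p, g, hp.symm, hg, hg0, ?_⟩
  filter_upwards [hge] with z hz
  rw [hz, smul_eq_mul]

/-- **The criterion and the formula, for quotients** -/
theorem crit (Q : Qd lam c δ σ G₁ G₂ κ η C b) (r : ℝ) {A : ℝ} (hA : 0 < A) :
    (((∀ s : ℂ, 0 < s.re → meromorphicOrderAt (fun s => G₁ s / G₂ s) s = 0) ∧ ∃ k : ℤ, r = k ∧
      Tendsto (fun s => ‖G₁ s / G₂ s‖ / ‖s‖ ^ k) (𝓝[≠] (0 : ℂ)) (𝓝 A)) ↔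
      ∫⁻ u : ℝ, ENNReal.ofReal (Df lam c r (Real.log A) u ^ 2) < ⊤) ∧
    (∫⁻ u : ℝ, ENNReal.ofReal (Df lam c r (Real.log A) u ^ 2) < ⊤ →
      ∫⁻ u : ℝ, ENNReal.ofReal (Df lam c r (Real.log A) u ^ 2) =
        ENNReal.ofReal Real.pi⁻¹ * ∫⁻ t : ℝ, ENNReal.ofReal
          ((Real.log ‖G₁ (t * I) / G₂ (t * I)‖ - r * Real.log |t| - Real.log A) ^ 2 / t ^ 2)) := by
  obtain ⟨a, B, E⟩ := Q.gq r (Real.log A)
  have hη := Q.hη
  have h00 : -η < (0 : ℂ).re := by simpa using hη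
  obtain ⟨p, g, hp, hg, hg0, hge⟩ := Q.local_quot h00
  simp only [sub_zero] at hge
  refine ⟨⟨?_, fun hf => ?_⟩, fun hf => E.line hf⟩
  · rintro ⟨h1, k, hk, h2⟩
    obtain ⟨hpk, hgA⟩ := (norm_lim hA hg hg0 hge).1 h2
    set M : ℂ → ℂ := fun s => G₁ s / G₂ s with hM
    have hmer : MeromorphicOn M {s : ℂ | 0 < s.re} := fun s hs => Q.mero (by
      have : 0 < s.re := hs
      linarith)
    set Ψ : ℂ → ℂ := toMeromorphicNFOn M {s : ℂ | 0 < s.re} with hΨ
    have hNF : ∀ s : ℂ, 0 < s.re → MeromorphicNFAt Ψ s := fun s hs =>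
      meromorphicNFOn_toMeromorphicNFOn M _ hs
    have hord : ∀ s : ℂ, 0 < s.re → meromorphicOrderAt Ψ s = 0 := fun s hs => by
      rw [hΨ, meromorphicOrderAt_toMeromorphicNFOn hmer hs]
      exact h1 s hs
    have hd : ∀ s : ℂ, 0 < s.re → DifferentiableAt ℂ Ψ s := fun s hs =>
      ((hNF s hs).meromorphicOrderAt_nonneg_iff_analyticAt.1 (hord s hs).ge).differentiableAt
    have hne : ∀ s : ℂ, 0 < s.re → Ψ s ≠ 0 := fun s hs =>
      (hNF s hs).meromorphicOrderAt_eq_zero_iff.1 (hord s hs)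
    have hrel : ∀ s : ℂ, 0 < s.re → Ψ s * G₂ s = G₁ s := by
      intro s hs
      have hs' : -η < s.re := by linarith
      have t1 : Tendsto (fun z => Ψ z * G₂ z) (𝓝[≠] s) (𝓝 (Ψ s * G₂ s)) :=
        ((hd s hs).continuousAt.mul (Q.hG₂ s hs').continuousAt).tendsto.mono_left
          nhdsWithin_le_nhds
      have t2 : Tendsto G₁ (𝓝[≠] s) (𝓝 (G₁ s)) :=
        (Q.hG₁ s hs').continuousAt.tendsto.mono_left nhdsWithin_le_nhds
      refine tendsto_nhds_unique (t1.congr' ?_) t2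
      filter_upwards [hmer.toMeromorphicNFOn_eq_self_on_nhdsNE hs, Q.ev_ne₂ hs'] with z h3 h4
      have h5 : Ψ z = M z := h3
      rw [h5, hM]
      field_simp
    refine E.fwd hd hne hrel (p := p) hg (by rw [hgA, Real.exp_log hA]) ?_ (by rw [hk, hpk])
    have h3 := (Q.ev_ne₂ h00).and hge
    rw [eventually_nhdsWithin_iff] at h3
    filter_upwards [h3] with s hs hs0
    have h4 : s ∈ ({0}ᶜ : Set ℂ) := by
      rw [mem_compl_iff, mem_singleton_iff]
      exact Gq.ne s hs0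
    obtain ⟨h5, h6⟩ := hs h4
    rw [← h6, ← hrel s hs0]
    field_simp
  · obtain ⟨c1, c2, c3⟩ := E.cont hf
    refine ⟨fun s hs => ?_, p, ?_⟩
    · have hs' : -η < s.re := by linarith
      refine (meromorphicOrderAt_eq_int_iff (n := 0) (Q.mero hs')).2
        ⟨fun z => exp (el (Df lam c r (Real.log A)) r (Real.log A) z), ?_,
          exp_ne_zero _, ?_⟩
      · have hdo : DifferentiableOn ℂ (fun z => exp (el (Df lam c r (Real.log A)) r
            (Real.log A) z)) {s : ℂ | 0 < s.re} :=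
          fun z hz => (c1 z hz).cexp.differentiableWithinAt
        exact hdo.analyticOnNhd (open_hp 0) s hs
      · have h5 : ∀ᶠ z in 𝓝[≠] s, 0 < z.re :=
          nhdsWithin_le_nhds ((open_hp 0).mem_nhds hs)
        filter_upwards [Q.ev_ne₂ hs', h5] with z h3 h4
        rw [zpow_zero, one_smul, ← c3 z h4]
        field_simp
    · have h3 := (Q.ev_ne₂ h00).and hge
      rw [eventually_nhdsWithin_iff] at h3
      obtain ⟨e1, e2⟩ := E.conv hf p g hg.continuousAt hg0 (by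
        filter_upwards [h3] with s hs hs0
        have h4 : s ∈ ({0}ᶜ : Set ℂ) := by
          rw [mem_compl_iff, mem_singleton_iff]
          exact Gq.ne s hs0
        obtain ⟨h5, h6⟩ := hs h4
        rw [← h6, ← c3 s hs0]
        field_simp)
      refine ⟨e1.symm, (norm_lim hA hg hg0 hge).2 ⟨rfl, ?_⟩⟩
      rw [e2, Real.exp_log hA]

/-- the order and the leading coefficient at the point -/
theorem exists_order (Q : Qd lam c δ σ G₁ G₂ κ η C b) : ∃ (k : ℤ) (A : ℝ), 0 < A ∧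
    meromorphicOrderAt (fun s => G₁ s / G₂ s) 0 = k ∧
    Tendsto (fun s => ‖G₁ s / G₂ s‖ / ‖s‖ ^ k) (𝓝[≠] (0 : ℂ)) (𝓝 A) := by
  have h00 : -η < (0 : ℂ).re := by simpa using Q.hη
  obtain ⟨p, g, hp, hg, hg0, hge⟩ := Q.local_quot h00
  simp only [sub_zero] at hge
  exact ⟨p, ‖g 0‖, norm_pos_iff.2 hg0, hp, (norm_lim (norm_pos_iff.2 hg0) hg hg0 hge).2 ⟨rfl, rfl⟩⟩

/-- the order from the limit -/
theorem order_of (Q : Qd lam c δ σ G₁ G₂ κ η C b) {k : ℤ} {A : ℝ} (hA : 0 < A)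
    (h : Tendsto (fun s => ‖G₁ s / G₂ s‖ / ‖s‖ ^ k) (𝓝[≠] (0 : ℂ)) (𝓝 A)) :
    meromorphicOrderAt (fun s => G₁ s / G₂ s) 0 = k := by
  have h00 : -η < (0 : ℂ).re := by simpa using Q.hη
  obtain ⟨p, g, hp, hg, hg0, hge⟩ := Q.local_quot h00
  simp only [sub_zero] at hge
  rw [hp, ((norm_lim hA hg hg0 hge).1 h).1]

end Qd

end Pool.Agent.V11288.QU
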