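import Pool.Agent.V11288.QU.Loc
import Pool.Agent.V11288.HS.Gen

/-!
# Square means of logarithms of quotients over vertical lines

Adaptations of `TH270.MS.local_L2`, `TH270.MS.glob_L2` and `HS.glob_n`.
-/

set_option autoImplicit false

open MeasureTheory Filter Topology Set Complex
open scoped ENNReal
open Pool.Agent.TH270.MS
open Pool.Agent.TH270.MS.LocL2

namespace Pool.Agent.V11288.QU

theorem local_quo {η a : ℝ} (hη : 0 < η) (hη1 : η ≤ 1) (ha : 1 ≤ a) :
    ∃ K : ℝ, 0 ≤ K ∧ ∀ (F₁ F₂ L : ℂ → ℂ) (T M m : ℝ), 1 ≤ M → 0 ≤ m →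
      (∀ s : ℂ, -η < s.re → DifferentiableAt ℂ F₁ s) →
      (∀ s : ℂ, -η < s.re → DifferentiableAt ℂ F₂ s) →
      (∀ s : ℂ, -η < s.re → ‖s - (a + T * I)‖ ≤ a + η → ‖F₁ s‖ ≤ M) →
      (∀ s : ℂ, -η < s.re → ‖s - (a + T * I)‖ ≤ a + η → ‖F₂ s‖ ≤ M) →
      (∀ s : ℂ, 0 < s.re → DifferentiableAt ℂ L s) →
      (∀ s : ℂ, 0 < s.re → exp (L s) * F₂ s = F₁ s) →
      ‖L (a + T * I)‖ ≤ m → F₂ (a + T * I) ≠ 0 → -m ≤ Real.log ‖F₂ (a + T * I)‖ →
      ∀ x : ℝ, 0 < x → x ≤ 1 →
        ∫⁻ t in Icc (T - η / 4) (T + η / 4), ‖L (x + t * I)‖ₑ ^ 2 ≤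
          ENNReal.ofReal (K * (1 + m + Real.log M) ^ 2) := by
  set r : ℝ := a + η / 4 with hr
  set R' : ℝ := a + η / 2 with hR'
  set R : ℝ := a + 3 * η / 4 with hR
  set R₁ : ℝ := a + η with hR₁
  have h1 : a < r := by linarith
  have h2 : r < R' := by linarith
  have h3 : R' < R := by linarith
  have h4 : R < R₁ := by linarith
  have hR0 : 0 < R := by linarith
  set c0 : ℝ := 1 / Real.log (R / R') with hc0
  have hlogpos : 0 < Real.log (R / R') := by
    apply Real.log_pos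
    rw [lt_div_iff₀ (by linarith)]
    linarith
  have hc0pos : 0 < c0 := by positivity
  set P0 : ℝ := 1 + 2 * r / (R' - r) + c0 * CC a r R' R with hP0
  have hP0pos : 0 ≤ P0 := by
    have h5 := CC_nonneg a r R' R
    have h6 : 0 ≤ 2 * r / (R' - r) := div_nonneg (by linarith) (by linarith)
    positivity
  refine ⟨9 * (η * P0 ^ 2 + 2 * c0 ^ 2 * JJ (2 * R)), by
    have := JJ_nonneg (2 * R)
    positivity, ?_⟩
  intro F₁ F₂ L T M m hM hm hF₁ hF₂ hFM₁ hFM₂ hL hexp hLm hne₂ hlow x hx hx1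
  set c : ℂ := a + T * I with hc
  have hcre : c.re = a := by simp [hc]
  have hcim : c.im = T := by simp [hc]
  have hlogM : 0 ≤ Real.log M := Real.log_nonneg hM
  set Λ : ℝ := 1 + (3 * m + 1) + 2 * Real.log M with hΛ
  have hΛ1 : 1 ≤ Λ := by linarith
  have hre : ∀ z : ℂ, ‖z‖ < R₁ → -η < (c + z).re := by
    intro z h5
    rw [add_re, hcre]
    have h7 := (abs_le.1 (abs_re_le_norm z)).1
    linarith
  obtain ⟨n, γ, hn, hγ, hb⟩ := disc2 (M := M) (m := m) (f₁ := fun z => F₁ (c + z))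
    (f₂ := fun z => F₂ (c + z))
    (l := fun z => L (c + z)) ha h1 h2 h3 h4 (by
      intro z hz
      have h5 : ‖z‖ < R₁ := mem_ball_zero_iff.1 hz
      exact ((hF₁ _ (hre z h5)).comp z (by fun_prop)).differentiableWithinAt) (by
      intro z hz
      have h5 : ‖z‖ < R₁ := mem_ball_zero_iff.1 hz
      exact ((hF₂ _ (hre z h5)).comp z (by fun_prop)).differentiableWithinAt) (by
      intro z hz
      refine hFM₁ _ (hre z (by linarith)) ?_
      rw [add_sub_cancel_left]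
      linarith) (by
      intro z hz
      refine hFM₂ _ (hre z (by linarith)) ?_
      rw [add_sub_cancel_left]
      linarith) (by
      intro z hz
      have h6 : 0 < (c + z).re := by
        rw [add_re, hcre]
        linarith
      exact (hL _ h6).comp z (by fun_prop)) (by
      intro z hz
      have h6 : 0 < (c + z).re := by
        rw [add_re, hcre]
        linarith
      exact hexp _ h6) (by simpa using hLm) (by simpa using hne₂) (by simpa using hlow)
  -- the number of the zeros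
  have hn2 : (n : ℝ) ≤ c0 * Λ := by
    rw [hc0, one_div, inv_mul_eq_div, le_div_iff₀ hlogpos]
    linarith
  set P : ℝ := (3 * m + 1) + 2 * r / (R' - r) * (2 * Real.log M + (3 * m + 1) + 1) +
    n * CC a r R' R with hP
  have hP1 : P ≤ P0 * Λ := by
    have h5 : (n : ℝ) * CC a r R' R ≤ c0 * Λ * CC a r R' R :=
      mul_le_mul_of_nonneg_right hn2 (CC_nonneg _ _ _ _)
    have h6 : 3 * m + 1 ≤ Λ := by linarith
    rw [hP, hP0]
    have h7 : 2 * r / (R' - r) * (2 * Real.log M + (3 * m + 1) + 1) = 2 * r / (R' - r) * Λ := by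
      rw [hΛ]
      ring
    rw [h7]
    nlinarith
  have hPpos : 0 ≤ P := by
    have h5 := CC_nonneg a r R' R
    have h6 : 0 ≤ 2 * r / (R' - r) := div_nonneg (by linarith) (by linarith)
    positivity
  -- the pointwise bound
  have hpt : ∀ t ∈ Icc (T - η / 4) (T + η / 4), (∀ i, t ≠ T + γ i) →
      ‖L (x + t * I)‖ ^ 2 ≤ 2 * P ^ 2 + ∑ i, 2 * n * Real.log (t - (T + γ i)) ^ 2 := by
    intro t ht htγ
    set z : ℂ := (x - a : ℝ) + ((t - T : ℝ) : ℂ) * I with hz
    have hzre : z.re = x - a := by simp [hz]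
    have hzim : z.im = t - T := by simp [hz]
    have hcz : c + z = x + t * I := by
      rw [hc, hz]
      push_cast
      ring
    have h5 : ‖z‖ ≤ r := by
      have h6 : ‖z‖ ^ 2 ≤ r ^ 2 := by
        rw [← normSq_eq_norm_sq, normSq_apply, hzre, hzim]
        have h7 : |t - T| ≤ η / 4 := abs_le.2 ⟨by linarith [ht.1], by linarith [ht.2]⟩
        have h8 : (t - T) * (t - T) ≤ (η / 4) * (η / 4) := by
          rw [← abs_mul_abs_self (t - T)]
          exact mul_self_le_mul_self (abs_nonneg _) h7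
        have h9 : (x - a) * (x - a) ≤ a * a := by nlinarith
        rw [hr]
        nlinarith
      exact (pow_le_pow_iff_left₀ (norm_nonneg _) (by linarith) two_ne_zero).1 h6
    have h6 := hb z (by rw [hzre]; linarith) h5 (fun i hi => htγ i (by
      rw [hzim] at hi
      linarith))
    simp only [hcz] at h6
    have h7 : ‖L (x + t * I)‖ ≤ P + ∑ i, |Real.log (t - (T + γ i))| := by
      refine h6.trans (le_of_eq ?_)
      rw [hP]
      congr 1
      refine Finset.sum_congr rfl fun i _ => ?_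
      rw [hzim]
      congr 2
      ring
    have h8 : ‖L (x + t * I)‖ ^ 2 ≤ (P + ∑ i, |Real.log (t - (T + γ i))|) ^ 2 :=
      pow_le_pow_left₀ (norm_nonneg _) h7 2
    have h9 : (∑ i, |Real.log (t - (T + γ i))|) ^ 2 ≤
        n * ∑ i, Real.log (t - (T + γ i)) ^ 2 := by
      have h10 := sq_sum_le_card_mul_sum_sq (s := (Finset.univ : Finset (Fin n)))
        (f := fun i => |Real.log (t - (T + γ i))|)
      rw [Finset.card_univ, Fintype.card_fin] at h10
      simpa only [sq_abs] using h10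
    have h10 : ∑ i, 2 * (n : ℝ) * Real.log (t - (T + γ i)) ^ 2 =
        2 * (n * ∑ i, Real.log (t - (T + γ i)) ^ 2) := by
      rw [← Finset.mul_sum]
      ring
    rw [h10]
    nlinarith [sq_nonneg (P - ∑ i, |Real.log (t - (T + γ i))|)]
  -- integration
  have hae : ∀ᵐ t : ℝ ∂(volume.restrict (Icc (T - η / 4) (T + η / 4))),
      ‖L (x + t * I)‖ₑ ^ 2 ≤ ENNReal.ofReal (2 * P ^ 2) +
        ∑ i, ENNReal.ofReal (2 * n) * ENNReal.ofReal (Real.log (t - (T + γ i)) ^ 2) := by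
    have h5 : (Set.range fun i => T + γ i)ᶜ ∈ ae (volume.restrict
        (Icc (T - η / 4) (T + η / 4))) := by
      rw [mem_ae_iff, compl_compl]
      exact (Set.finite_range _).measure_zero _
    filter_upwards [h5, ae_restrict_mem measurableSet_Icc] with t ht1 ht2
    have h6 : ∀ i, t ≠ T + γ i := fun i hi => ht1 ⟨i, hi.symm⟩
    have h7 := hpt t ht2 h6
    have h8 : ‖L (x + t * I)‖ₑ ^ 2 = ENNReal.ofReal (‖L (x + t * I)‖ ^ 2) := by
      rw [← ofReal_norm, ENNReal.ofReal_pow (norm_nonneg _)]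
    rw [h8]
    refine (ENNReal.ofReal_le_ofReal h7).trans ?_
    rw [ENNReal.ofReal_add (by positivity) (Finset.sum_nonneg fun i _ => by positivity),
      ENNReal.ofReal_sum_of_nonneg (fun i _ => by positivity)]
    refine add_le_add le_rfl (Finset.sum_le_sum fun i _ => ?_)
    rw [ENNReal.ofReal_mul (by positivity)]
  refine (lintegral_mono_ae hae).trans ?_
  rw [lintegral_add_left measurable_const, lintegral_const, lintegral_finset_sum _ (fun i _ => by
    fun_prop)]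
  have hvol : (volume.restrict (Icc (T - η / 4) (T + η / 4))) Set.univ =
      ENNReal.ofReal (η / 2) := by
    rw [Measure.restrict_apply_univ, Real.volume_Icc]
    congr 1
    ring
  rw [hvol]
  have hterm : ∀ i, ∫⁻ t in Icc (T - η / 4) (T + η / 4),
      ENNReal.ofReal (2 * n) * ENNReal.ofReal (Real.log (t - (T + γ i)) ^ 2) ≤
        ENNReal.ofReal (2 * n) * ENNReal.ofReal (JJ (2 * R)) := by
    intro i
    rw [lintegral_const_mul _ (by fun_prop)]
    refine mul_le_mul_right ?_ _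
    have h5 := abs_le.1 (hγ i)
    exact int_log (by linarith) (by linarith) (by linarith)
  refine (add_le_add le_rfl (Finset.sum_le_sum fun i _ => hterm i)).trans ?_
  rw [Finset.sum_const, Finset.card_univ, Fintype.card_fin, nsmul_eq_mul,
    ← ENNReal.ofReal_natCast, ← ENNReal.ofReal_mul (by positivity),
    ← ENNReal.ofReal_mul (by positivity), ← ENNReal.ofReal_mul (by positivity),
    ← ENNReal.ofReal_add (by positivity) (by
      have := JJ_nonneg (2 * R)
      positivity)]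
  refine ENNReal.ofReal_le_ofReal ?_
  have h5 := JJ_nonneg (2 * R)
  have h6 : P ^ 2 ≤ P0 ^ 2 * Λ ^ 2 := by
    rw [← mul_pow]
    exact pow_le_pow_left₀ hPpos hP1 2
  have h7 : (n : ℝ) ^ 2 ≤ c0 ^ 2 * Λ ^ 2 := by
    rw [← mul_pow]
    exact pow_le_pow_left₀ (Nat.cast_nonneg _) hn2 2
  have h8 : (n : ℝ) ^ 2 * JJ (2 * R) ≤ c0 ^ 2 * Λ ^ 2 * JJ (2 * R) :=
    mul_le_mul_of_nonneg_right h7 h5
  have h9 : η * P ^ 2 ≤ η * (P0 ^ 2 * Λ ^ 2) := mul_le_mul_of_nonneg_left h6 hη.le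
  have h10 : Λ ^ 2 ≤ 9 * (1 + m + Real.log M) ^ 2 := by
    have h11 : Λ ≤ 3 * (1 + m + Real.log M) := by
      rw [hΛ]
      linarith
    calc Λ ^ 2 ≤ (3 * (1 + m + Real.log M)) ^ 2 := pow_le_pow_left₀ (by linarith) h11 2
      _ = _ := by ring
  have h11 : (η * P0 ^ 2 + 2 * c0 ^ 2 * JJ (2 * R)) * Λ ^ 2 ≤
      (η * P0 ^ 2 + 2 * c0 ^ 2 * JJ (2 * R)) * (9 * (1 + m + Real.log M) ^ 2) :=
    mul_le_mul_of_nonneg_left h10 (by positivity)
  nlinarith

/-- **Global bound.** -/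
theorem glob_quo {F₁ F₂ L : ℂ → ℂ} {η a C B : ℝ} {κ : ℕ} (hη : 0 < η) (ha : 1 ≤ a) (hB : 0 ≤ B)
    (hF₁ : ∀ s : ℂ, -η < s.re → DifferentiableAt ℂ F₁ s)
    (hF₂ : ∀ s : ℂ, -η < s.re → DifferentiableAt ℂ F₂ s)
    (hgrow₁ : ∀ s : ℂ, -η < s.re → ‖F₁ s‖ ≤ C * (1 + ‖s‖) ^ κ)
    (hgrow₂ : ∀ s : ℂ, -η < s.re → ‖F₂ s‖ ≤ C * (1 + ‖s‖) ^ κ)
    (hL : ∀ s : ℂ, 0 < s.re → DifferentiableAt ℂ L s)
    (hexp : ∀ s : ℂ, 0 < s.re → exp (L s) * F₂ s = F₁ s)
    (hm : ∀ T : ℝ, ‖L (a + T * I)‖ ≤ B * (1 + Real.log (1 + |T|)))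
    (hne₂ : ∀ T : ℝ, F₂ (a + T * I) ≠ 0)
    (hlow : ∀ T : ℝ, -(B * (1 + Real.log (1 + |T|))) ≤ Real.log ‖F₂ (a + T * I)‖) :
    ∃ K : ℝ≥0∞, K < ⊤ ∧ ∀ x : ℝ, 0 < x → x ≤ 1 → ∫⁻ t : ℝ, ‖L (x + t * I)‖ₑ ^ 2 * wq t ≤ K := by
  set η' : ℝ := min η 1 with hη'
  have hη'0 : 0 < η' := lt_min hη one_pos
  have hη'1 : η' ≤ 1 := min_le_right _ _
  have hη'η : η' ≤ η := min_le_left _ _
  obtain ⟨K₀, hK₀, hloc⟩ := local_quo hη'0 hη'1 ha
  set lc : ℝ := Real.log (|C| + 1) + κ * Real.log (2 * a + 2) with hlc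
  have hlc0 : 0 ≤ lc := by
    have e1 : 0 ≤ Real.log (|C| + 1) := Real.log_nonneg (by linarith [abs_nonneg C])
    have e2 : 0 ≤ Real.log (2 * a + 2) := Real.log_nonneg (by linarith)
    positivity
  set K₁ : ℝ := K₀ * (1 + B + (lc + κ)) ^ 2 with hK₁
  have hK₁0 : 0 ≤ K₁ := by positivity
  refine ⟨ENNReal.ofReal (3 / (2 * (η' / 4))) * (ENNReal.ofReal K₁ *
    ∫⁻ T : ℝ, wq T * ENNReal.ofReal ((1 + Real.log (1 + |T|)) ^ 2)), ?_, fun x hx hx1 => ?_⟩
  · exact ENNReal.mul_lt_top ENNReal.ofReal_lt_top (ENNReal.mul_lt_top ENNReal.ofReal_lt_top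
      wq_log_fin)
  · have hline : Continuous fun t : ℝ => L (x + t * I) := by
      rw [continuous_iff_continuousAt]
      intro t
      have h1 : ContinuousAt L ((x : ℂ) + t * I) := (hL _ (by simpa using hx)).continuousAt
      exact ContinuousAt.comp (f := fun t : ℝ => (x : ℂ) + t * I) h1 (by fun_prop)
    have hmeas : Measurable fun t : ℝ => ‖L (x + t * I)‖ₑ ^ 2 := (hline.measurable.enorm).pow_const 2
    have key : ∀ T : ℝ, ∫⁻ t in Icc (T - η' / 4) (T + η' / 4), ‖L (x + t * I)‖ₑ ^ 2 ≤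
        ENNReal.ofReal (K₁ * (1 + Real.log (1 + |T|)) ^ 2) := by
      intro T
      have hT0 := abs_nonneg T
      have l0 : 0 ≤ Real.log (1 + |T|) := Real.log_nonneg (by linarith)
      set M : ℝ := (|C| + 1) * ((2 * a + 2) * (1 + |T|)) ^ κ with hM
      have hM1 : 1 ≤ M := by
        have e1 : 1 ≤ |C| + 1 := by linarith [abs_nonneg C]
        have e2 : 1 ≤ ((2 * a + 2) * (1 + |T|)) ^ κ := one_le_pow₀ (by nlinarith)
        nlinarith
      have hbd : ∀ F : ℂ → ℂ, (∀ s : ℂ, -η < s.re → ‖F s‖ ≤ C * (1 + ‖s‖) ^ κ) →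
          ∀ s : ℂ, -η' < s.re → ‖s - (a + T * I)‖ ≤ a + η' → ‖F s‖ ≤ M := by
        intro F hgrow s hs hs2
        have e1 : ‖s‖ ≤ 2 * a + 1 + |T| := by
          have e2 : ‖s‖ ≤ ‖s - (a + T * I)‖ + ‖((a : ℂ) + T * I)‖ := by
            have := norm_add_le (s - ((a : ℂ) + T * I)) ((a : ℂ) + T * I)
            simpa using this
          have e3 : ‖((a : ℂ) + T * I)‖ ≤ a + |T| := by
            refine (norm_add_le _ _).trans ?_
            rw [norm_mul, Complex.norm_I, mul_one, Complex.norm_real, Complex.norm_real,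
              Real.norm_eq_abs, Real.norm_eq_abs, abs_of_nonneg (by linarith : 0 ≤ a)]
          linarith
        refine (hgrow s (by linarith)).trans ?_
        have e4 : C ≤ |C| + 1 := by linarith [le_abs_self C]
        have e5 : 1 + ‖s‖ ≤ (2 * a + 2) * (1 + |T|) := by nlinarith
        calc C * (1 + ‖s‖) ^ κ ≤ (|C| + 1) * (1 + ‖s‖) ^ κ :=
              mul_le_mul_of_nonneg_right e4 (by positivity)
          _ ≤ M := by
            rw [hM]
            gcongr
      have h1 := hloc F₁ F₂ L T M (B * (1 + Real.log (1 + |T|))) hM1 (by positivity)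
        (fun s hs => hF₁ s (by linarith)) (fun s hs => hF₂ s (by linarith)) (hbd F₁ hgrow₁)
        (hbd F₂ hgrow₂) hL hexp (hm T) (hne₂ T) (hlow T) x hx hx1
      refine h1.trans (ENNReal.ofReal_le_ofReal ?_)
      have e1 : Real.log M = lc + κ * Real.log (1 + |T|) := by
        rw [hM, Real.log_mul (by positivity) (by positivity), Real.log_pow,
          Real.log_mul (by positivity) (by positivity), hlc]
        ring
      rw [e1, hK₁, mul_assoc, ← mul_pow]
      apply mul_le_mul_of_nonneg_left _ hK₀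
      apply pow_le_pow_left₀ (by positivity)
      have e2 : 0 ≤ lc * Real.log (1 + |T|) := mul_nonneg hlc0 l0
      have e3 : (0 : ℝ) ≤ κ := Nat.cast_nonneg κ
      nlinarith
    have h2 := avg_short hmeas (h := η' / 4) (by linarith) (by linarith) key
    refine h2.trans (le_of_eq ?_)
    congr 1
    rw [← lintegral_const_mul' _ _ ENNReal.ofReal_ne_top]
    refine lintegral_congr fun T => ?_
    rw [ENNReal.ofReal_mul hK₁0]
    ring

/-- mean squares of logarithms of quotients on all vertical lines of a strip -/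
theorem glob_quo_n {F₁ F₂ L : ℂ → ℂ} {η a C B : ℝ} {κ : ℕ} (hη : 0 < η) (ha : 1 ≤ a) (hB : 0 ≤ B)
    (hF₁ : ∀ s : ℂ, -η < s.re → DifferentiableAt ℂ F₁ s)
    (hF₂ : ∀ s : ℂ, -η < s.re → DifferentiableAt ℂ F₂ s)
    (hgrow₁ : ∀ s : ℂ, -η < s.re → ‖F₁ s‖ ≤ C * (1 + ‖s‖) ^ κ)
    (hgrow₂ : ∀ s : ℂ, -η < s.re → ‖F₂ s‖ ≤ C * (1 + ‖s‖) ^ κ)
    (hL : ∀ s : ℂ, 0 < s.re → DifferentiableAt ℂ L s)
    (hexp : ∀ s : ℂ, 0 < s.re → exp (L s) * F₂ s = F₁ s)
    (hfar : ∀ s : ℂ, a ≤ s.re → ‖L s‖ ≤ B * (1 + Real.log (1 + ‖s‖)))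
    (hne₂ : ∀ s : ℂ, a ≤ s.re → F₂ s ≠ 0)
    (hlow : ∀ s : ℂ, a ≤ s.re → -(B * (1 + Real.log (1 + ‖s‖))) ≤ Real.log ‖F₂ s‖) (n : ℕ) :
    ∃ K : ℝ≥0∞, K < ⊤ ∧ ∀ x : ℝ, 0 < x → x ≤ n → ∫⁻ t : ℝ, ‖L (x + t * I)‖ₑ ^ 2 * wq t ≤ K := by
  induction n with
  | zero => exact ⟨0, by simp, fun x hx hx1 => absurd hx (not_lt.2 (by simpa using hx1))⟩
  | succ n ih =>
    obtain ⟨K, hK, hb⟩ := ih
    have hn : (0 : ℝ) ≤ n := n.cast_nonneg
    have hre : ∀ s : ℂ, (s + n).re = s.re + n := fun s => by simp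
    have hlog0 : 0 ≤ Real.log (1 + a + n) := Real.log_nonneg (by linarith)
    have hgr : ∀ F : ℂ → ℂ, (∀ s : ℂ, -η < s.re → ‖F s‖ ≤ C * (1 + ‖s‖) ^ κ) →
        ∀ s : ℂ, -η < s.re → ‖F (s + n)‖ ≤ |C| * (1 + n) ^ κ * (1 + ‖s‖) ^ κ := by
      intro F hgrow s hs
      refine (hgrow _ (by rw [hre]; linarith)).trans ?_
      have h1 : 1 + ‖s + (n : ℂ)‖ ≤ (1 + n) * (1 + ‖s‖) := by
        have h2 := norm_add_le s (n : ℂ)
        rw [Complex.norm_natCast] at h2
        have : 0 ≤ (n : ℝ) * ‖s‖ := by positivity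
        nlinarith
      calc C * (1 + ‖s + (n : ℂ)‖) ^ κ ≤ |C| * ((1 + n) * (1 + ‖s‖)) ^ κ :=
            mul_le_mul (le_abs_self _) (pow_le_pow_left₀ (by positivity) h1 κ) (by positivity)
              (abs_nonneg _)
        _ = _ := by rw [mul_pow]; ring
    have hlg : ∀ T : ℝ, B * (1 + Real.log (1 + ‖(a : ℂ) + T * I + n‖)) ≤
        B * (1 + Real.log (1 + a + n)) * (1 + Real.log (1 + |T|)) := by
      intro T
      have h2 : 1 + ‖(a : ℂ) + T * I + n‖ ≤ (1 + a + n) * (1 + |T|) := by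
        have h3 : ‖(a : ℂ) + T * I + n‖ ≤ a + |T| + n := by
          refine (norm_add_le _ _).trans ?_
          rw [Complex.norm_natCast]
          gcongr
          refine (norm_add_le _ _).trans ?_
          rw [norm_mul, Complex.norm_I, mul_one, Complex.norm_real, Complex.norm_real,
            Real.norm_eq_abs, Real.norm_eq_abs, abs_of_nonneg (by linarith : 0 ≤ a)]
        have h4 : 0 ≤ (a + n) * |T| := by positivity
        nlinarith
      have h3 : Real.log (1 + ‖(a : ℂ) + T * I + n‖) ≤ Real.log (1 + a + n) + Real.log (1 + |T|) := by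
        rw [← Real.log_mul (by positivity) (by positivity)]
        exact Real.log_le_log (by positivity) h2
      have h5 : 0 ≤ Real.log (1 + |T|) := Real.log_nonneg (by linarith [abs_nonneg T])
      rw [mul_assoc]
      apply mul_le_mul_of_nonneg_left _ hB
      nlinarith [mul_nonneg hlog0 h5]
    obtain ⟨K', hK', hb'⟩ := glob_quo (F₁ := fun s => F₁ (s + n)) (F₂ := fun s => F₂ (s + n))
      (L := fun s => L (s + n)) (η := η)
      (a := a) (C := |C| * (1 + n) ^ κ) (B := B * (1 + Real.log (1 + a + n))) (κ := κ) hη ha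
      (by positivity)
      (fun s hs => DifferentiableAt.comp (f := fun s : ℂ => s + n) s (hF₁ _ (by rw [hre]; linarith))
        (by fun_prop))
      (fun s hs => DifferentiableAt.comp (f := fun s : ℂ => s + n) s (hF₂ _ (by rw [hre]; linarith))
        (by fun_prop))
      (hgr F₁ hgrow₁) (hgr F₂ hgrow₂)
      (fun s hs => DifferentiableAt.comp (f := fun s : ℂ => s + n) s (hL _ (by rw [hre]; linarith))
        (by fun_prop))
      (fun s hs => hexp _ (by rw [hre]; linarith))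
      (fun T => (hfar ((a : ℂ) + T * I + n) (by simp)).trans (hlg T))
      (fun T => hne₂ _ (by simp))
      (fun T => (neg_le_neg (hlg T)).trans (hlow ((a : ℂ) + T * I + n) (by simp)))
    refine ⟨K + K', ENNReal.add_lt_top.2 ⟨hK, hK'⟩, fun x hx hx1 => ?_⟩
    rcases le_or_gt x n with h | h
    · exact (hb x hx h).trans le_self_add
    · have h1 := hb' (x - n) (by linarith) (by push_cast at hx1; linarith)
      refine le_trans (le_of_eq (lintegral_congr fun t => ?_)) (h1.trans le_add_self)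
      congr 4
      push_cast
      ring

end Pool.Agent.V11288.QU
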