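import Pool.Agent.V11288.QU.Glob
import Pool.Agent.V11288.HS.Gen3

/-!
# Square integrable functions and logarithms of quotients

Adaptations of `HS.Gn.fwd`, `HS.Gn.cont`, `HS.Gn.conv` and `HS.Gn.line`.
-/

set_option autoImplicit false

open MeasureTheory Filter Topology Set Complex
open scoped ENNReal
open Pool.Agent.TH942.SL
open Pool.Agent.TH270.MS
open Pool.Agent.TH942.RZ (log_near)
open Pool.Agent.V11288.HS

namespace Pool.Agent.V11288.QU

/-- a function whose Laplace transform is the logarithm of a quotient of two functions -/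
structure Gq (f : ℝ → ℝ) (G₁ G₂ : ℂ → ℂ) (r q : ℝ) (κ : ℕ) (a η C B : ℝ) : Prop where
  meas : Measurable f
  zero : ∀ u : ℝ, u ≤ 0 → f u = 0
  ha : 1 ≤ a
  int : ∀ x : ℝ, a < x → Integrable fun u : ℝ => (f u : ℂ) * exp (-((x : ℂ) * u))
  hη : 0 < η
  hB : 0 ≤ B
  hG₁ : ∀ s : ℂ, -η < s.re → DifferentiableAt ℂ G₁ s
  hG₂ : ∀ s : ℂ, -η < s.re → DifferentiableAt ℂ G₂ s
  hgrow₁ : ∀ s : ℂ, -η < s.re → ‖G₁ s‖ ≤ C * (1 + ‖s‖) ^ κ
  hgrow₂ : ∀ s : ℂ, -η < s.re → ‖G₂ s‖ ≤ C * (1 + ‖s‖) ^ κ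
  hexp : ∀ s : ℂ, a < s.re → exp (el f r q s) * G₂ s = G₁ s
  hfar : ∀ s : ℂ, a < s.re → ‖el f r q s‖ ≤ B * (1 + Real.log (1 + ‖s‖))
  hne₂ : ∀ s : ℂ, a < s.re → G₂ s ≠ 0
  hlow : ∀ s : ℂ, a < s.re → -(B * (1 + Real.log (1 + ‖s‖))) ≤ Real.log ‖G₂ s‖

/-- **the logarithm near a zero or a pole at the boundary** -/
theorem log_near_z {Ψ H g : ℂ → ℂ} {p : ℤ} (hH : ∀ s : ℂ, 0 < s.re → exp (H s) = Ψ s)
    (hHd : ∀ s : ℂ, 0 < s.re → DifferentiableAt ℂ H s)
    (hg : AnalyticAt ℂ g 0) (hg0 : g 0 ≠ 0)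
    (near : ∀ᶠ s in 𝓝 (0 : ℂ), 0 < s.re → Ψ s = s ^ p * g s) :
    ∃ (r : ℝ) (Γ : ℂ → ℂ), 0 < r ∧ ContinuousOn Γ (Metric.ball 0 r) ∧ exp (Γ 0) = g 0 ∧
      ∀ s : ℂ, 0 < s.re → ‖s‖ < r → H s = p * log s + Γ s := by
  classical
  have hne : ∀ s : ℂ, 0 < s.re → s ≠ 0 := fun s hs => by rintro rfl; simp at hs
  set Φ : ℂ → ℂ := fun s => if 0 < s.re then Ψ s * s ^ (-p) else g s with hΦ
  have hexp : ∀ s : ℂ, 0 < s.re → exp (H s - p * log s) = Φ s := by
    intro s hs
    rw [hΦ]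
    simp only
    rw [if_pos hs, exp_sub, hH s hs, exp_int_mul, exp_log (hne s hs), zpow_neg, div_eq_mul_inv]
  have hU : IsOpen {s : ℂ | 0 < s.re} := isOpen_lt continuous_const continuous_re
  have hd : ∀ s : ℂ, 0 < s.re → HasDerivAt (fun s => H s - p * log s) (deriv Φ s / Φ s) s := by
    intro s hs
    have h1 : DifferentiableAt ℂ (fun s => H s - p * log s) s :=
      (hHd s hs).sub ((differentiableAt_id.clog (Or.inl hs)).const_mul _)
    have h2 := h1.hasDerivAt.cexp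
    have h3 : Φ =ᶠ[𝓝 s] fun s => exp (H s - p * log s) := by
      filter_upwards [hU.mem_nhds hs] with w hw
      exact (hexp w hw).symm
    have h4 : deriv Φ s = exp (H s - p * log s) * deriv (fun s => H s - p * log s) s := by
      rw [h3.deriv_eq]
      exact h2.deriv
    have h5 : deriv Φ s / Φ s = deriv (fun s => H s - p * log s) s := by
      rw [h4, ← hexp s hs]
      field_simp [exp_ne_zero]
    rw [h5]
    exact h1.hasDerivAt
  obtain ⟨r, Γ, h1, h2, h3, h4⟩ := log_near (m := 0) hexp hd hg hg0 (by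
    filter_upwards [near] with s hs
    rw [hΦ]
    simp only
    rw [pow_zero, one_mul]
    split_ifs with h
    · rw [hs h, mul_comm (s ^ p) (g s), mul_assoc, ← zpow_add₀ (hne s h), add_neg_cancel, zpow_zero,
        mul_one]
    · rfl)
  refine ⟨r, Γ, h1, h2, h3, fun s hs hsr => ?_⟩
  have h5 := h4 s hs hsr
  simp only [Nat.cast_zero, zero_mul, zero_add] at h5
  rw [← h5]
  ring

namespace Gq

variable {f : ℝ → ℝ} {G₁ G₂ : ℂ → ℂ} {r q : ℝ} {κ : ℕ} {a η C B : ℝ}

theorem int' (E : Gq f G₁ G₂ r q κ a η C B) {s : ℂ} (hs : a < s.re) :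
    Integrable fun u : ℝ => (f u : ℂ) * exp (-(s * u)) := by
  have h1 := E.int s.re hs
  refine h1.norm.mono' ((Complex.measurable_ofReal.comp E.meas).mul
    (by fun_prop)).aestronglyMeasurable (Eventually.of_forall fun u => ?_)
  rw [norm_mul, norm_mul, norm_exp_neg, norm_exp_neg, Complex.ofReal_re]

theorem diff (E : Gq f G₁ G₂ r q κ a η C B) {s : ℂ} (hs : a < s.re) :
    DifferentiableAt ℂ (el f r q) s := by
  have hL : ∀ w : ℝ, a < w → Pool.Agent.W263.BSD.LInt f w := by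
    intro w hw
    have h4 := (E.int w hw).re.integrableOn (s := Ioi (0 : ℝ))
    unfold Pool.Agent.W263.BSD.LInt
    refine IntegrableOn.congr_fun h4 (fun u _ => ?_) measurableSet_Ioi
    have e : ((f u : ℝ) : ℂ) * exp (-((w : ℂ) * u)) =
        ((f u * Real.exp (-(w * u)) : ℝ) : ℂ) := by
      push_cast
      rfl
    rw [e]
    exact Complex.ofReal_re _
  have h5 := Pool.Agent.W263.BSD.lapC_differentiableAt E.meas (w0 := a)
    (fun w hw => hL w hw) hs
  have e : HS.LT f = Pool.Agent.W263.BSD.lapC f := by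
    funext z
    unfold Pool.Agent.W263.BSD.lapC HS.LT
    symm
    refine setIntegral_eq_integral_of_forall_compl_eq_zero fun u hu => ?_
    rw [E.zero u (by simpa using hu)]
    simp
  rw [← e] at h5
  have h6 : DifferentiableAt ℂ log s :=
    (Complex.hasDerivAt_log (Or.inl (by linarith [E.ha]))).differentiableAt
  unfold el
  exact ((differentiableAt_id.mul h5).add (h6.const_mul _)).add_const _

theorem ne (s : ℂ) (hs : 0 < s.re) : s ≠ 0 := by rintro rfl; simp at hs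

/-- **no zeros and poles: square integrability** -/
theorem fwd (E : Gq f G₁ G₂ r q κ a η C B) {Ψ : ℂ → ℂ}
    (hΨ : ∀ s : ℂ, 0 < s.re → DifferentiableAt ℂ Ψ s) (hne : ∀ s : ℂ, 0 < s.re → Ψ s ≠ 0)
    (hrel : ∀ s : ℂ, 0 < s.re → Ψ s * G₂ s = G₁ s) {g : ℂ → ℂ} {p : ℤ}
    (hg : AnalyticAt ℂ g 0) (hg0 : ‖g 0‖ = Real.exp q)
    (near : ∀ᶠ s in 𝓝 (0 : ℂ), 0 < s.re → Ψ s = s ^ p * g s)
    (hp : (p : ℝ) = r) : ∫⁻ u : ℝ, ENNReal.ofReal (f u ^ 2) < ⊤ := by
  have hη := E.hη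
  have ha := E.ha
  have hg0' : g 0 ≠ 0 := by rw [← norm_pos_iff, hg0]; exact Real.exp_pos _
  have hU : IsOpen {s : ℂ | 0 < s.re} := isOpen_lt continuous_const Complex.continuous_re
  have hUc : Convex ℝ {s : ℂ | 0 < s.re} := convex_halfSpace_re_gt _
  obtain ⟨H, hHd, hHe⟩ := Pool.Agent.TH942.RZ.exists_log hU hUc (Ψ := Ψ)
    (fun z hz => (hΨ z hz).differentiableWithinAt) hne
  replace hHd : ∀ s : ℂ, 0 < s.re → HasDerivAt H (deriv Ψ s / Ψ s) s := hHd
  replace hHe : ∀ s : ℂ, 0 < s.re → exp (H s) = Ψ s := hHe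
  -- the branch
  have hlogd : ∀ s : ℂ, 0 < s.re → DifferentiableAt ℂ (fun s => log s) s := fun s hs =>
    differentiableAt_id.clog (Or.inl hs)
  set J : ℂ → ℂ := fun s => el f r q s with hJ
  have hJe : ∀ s : ℂ, a < s.re → exp (J s) = Ψ s := by
    intro s hs
    have h1 := E.hexp s hs
    rw [← hrel s (by linarith)] at h1
    exact mul_right_cancel₀ (E.hne₂ s hs) h1
  have hVo : IsOpen {s : ℂ | a < s.re} := isOpen_lt continuous_const Complex.continuous_re
  have hVc : Convex ℝ {s : ℂ | a < s.re} := convex_halfSpace_re_gt _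
  set z₀ : ℂ := ((a + 1 : ℝ) : ℂ) with hz₀
  have hz₀' : a < z₀.re := by rw [hz₀, Complex.ofReal_re]; linarith
  have hconst : ∀ s : ℂ, a < s.re → H s - J s = H z₀ - J z₀ := by
    intro s hs
    refine Pool.Agent.TH270.MS.LocL2.const_of_exp (c := 1) hVo hVc.isPreconnected (D := fun s => H s - J s) (fun z hz => ?_)
      (fun z hz => ?_) hs hz₀'
    · have h1 : a < z.re := hz
      exact (hHd z (by linarith)).differentiableAt.sub (E.diff h1)
    · have h1 : a < z.re := hz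
      rw [Complex.exp_sub, hHe z (by linarith), hJe z h1, div_self (hne z (by linarith))]
  obtain ⟨r₀, Γ, hr₀, hΓc, hΓ0, hΓn⟩ := log_near_z hHe (fun s hs => (hHd s hs).differentiableAt)
    hg hg0' near
  set κc : ℂ := Γ 0 - q - (H z₀ - J z₀) with hκc
  have hκ1 : ‖exp κc‖ = 1 := by
    rw [hκc, Complex.exp_sub, Complex.exp_sub, Complex.exp_sub, hΓ0,
      hHe z₀ (by linarith), hJe z₀ hz₀', div_self (hne z₀ (by linarith)), div_one, norm_div, hg0,
      Complex.norm_exp, Complex.ofReal_re, div_self (Real.exp_pos _).ne']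
  have hκre : κc.re = 0 := by
    rw [Complex.norm_exp, Real.exp_eq_one_iff] at hκ1
    exact hκ1
  -- the continuation of the Laplace transform
  set Hh : ℂ → ℂ := fun s => (H s - p * log s - Γ 0) / s with hHh
  have hHhd : ∀ s : ℂ, 0 < s.re → DifferentiableAt ℂ Hh s := fun s hs =>
    (((hHd s hs).differentiableAt.sub ((hlogd s hs).const_mul _)).sub_const _).div
      differentiableAt_id (ne s hs)
  set kf : ℝ → ℂ := fun u => (f u : ℂ) - κc * (Ici (0 : ℝ)).indicator (fun _ => (1 : ℂ)) u with hkf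
  have ek : ∀ (s : ℂ) (u : ℝ), kf u * exp (-(s * u)) = (f u : ℂ) * exp (-(s * u)) -
      κc * (Ici (0 : ℝ)).indicator (fun T : ℝ => exp (-(s * T))) u := by
    intro s u
    rw [hkf]
    by_cases hu : u ∈ Ici (0 : ℝ)
    · simp only
      rw [indicator_of_mem hu, indicator_of_mem hu]
      ring
    · simp only
      rw [indicator_of_notMem hu, indicator_of_notMem hu]
      ring
  have i3 : ∀ s : ℂ, 0 < s.re → Integrable fun u : ℝ => κc *
      (Ici (0 : ℝ)).indicator (fun T : ℝ => exp (-(s * T))) u := fun s hs =>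
    (integrable_step hs 0).const_mul _
  have hk1 : ∀ s : ℂ, a < s.re → Integrable fun u : ℝ => kf u * exp (-(s * u)) := by
    intro s hs
    refine ((E.int' hs).sub (i3 s (by linarith))).congr ?_
    exact Eventually.of_forall fun u => (ek s u).symm
  have hk2 : ∀ s : ℂ, a < s.re → Hh s = ∫ u : ℝ, kf u * exp (-(s * u)) := by
    intro s hs
    have hs0 : 0 < s.re := by linarith
    have h0 := ne s hs0
    simp only [ek]
    rw [integral_sub (E.int' hs) (i3 s hs0), integral_const_mul, integral_step hs0]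
    simp only [Complex.ofReal_zero, mul_zero, neg_zero, Complex.exp_zero]
    have h1 := hconst s hs
    have h2 : (p : ℂ) = r := by exact_mod_cast hp
    have h3 : H s - p * log s - Γ 0 = s * HS.LT f s - κc := by
      rw [hκc, ← h1, hJ]
      simp only
      rw [h2]
      unfold el
      ring
    rw [hHh]
    simp only
    rw [h3]
    unfold HS.LT
    field_simp
  -- bounds far to the right
  obtain ⟨Bf, hBf, hfar⟩ : ∃ Bf : ℝ, 0 ≤ Bf ∧ ∀ s : ℂ, a + 1 ≤ s.re →
      ‖H s‖ ≤ Bf * (1 + Real.log (1 + ‖s‖)) := by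
    refine ⟨B + ‖H z₀ - J z₀‖, by have := E.hB; positivity, fun s hs => ?_⟩
    have hs1 : a < s.re := by linarith
    have h1 : H s = J s + (H z₀ - J z₀) := by rw [← hconst s hs1]; ring
    have h3 := E.hfar s hs1
    have h4 : 0 ≤ Real.log (1 + ‖s‖) := Real.log_nonneg (by linarith [norm_nonneg s])
    have h5 : ‖H s‖ ≤ ‖el f r q s‖ + ‖H z₀ - J z₀‖ := by
      rw [h1]
      exact norm_add_le _ _
    refine h5.trans ?_
    have h7 : ‖H z₀ - J z₀‖ ≤ ‖H z₀ - J z₀‖ * (1 + Real.log (1 + ‖s‖)) := by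
      nlinarith [norm_nonneg (H z₀ - J z₀)]
    nlinarith
  -- bound near zero
  obtain ⟨r₁, Cn, hr₁, hCn, hnear⟩ : ∃ r₁ Cn : ℝ, 0 < r₁ ∧ 0 ≤ Cn ∧ ∀ s : ℂ, 0 < s.re → ‖s‖ < r₁ →
      ‖Hh s‖ ≤ Cn := by
    have hΓat : ContinuousAt Γ 0 := hΓc.continuousAt (Metric.ball_mem_nhds 0 hr₀)
    obtain ⟨ρ₁, hρ₁, hb1⟩ := Metric.continuousAt_iff.1 hΓat (1 / 2) (by norm_num)
    obtain ⟨Cg, hCg⟩ := hg.differentiableAt.isBigO_sub.bound
    obtain ⟨ρ₂, hρ₂, hb2⟩ := Metric.eventually_nhds_iff_ball.1 (hCg.and near)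
    refine ⟨min (min r₀ ρ₁) ρ₂, 2 * (|Cg| / ‖g 0‖), by positivity,
      by positivity, fun s hs hsn => ?_⟩
    have hn : 0 < ‖s‖ := norm_pos_iff.2 (ne s hs)
    have m1 : ‖s‖ < r₀ := hsn.trans_le ((min_le_left _ _).trans (min_le_left _ _))
    have m2 : ‖s‖ < ρ₁ := hsn.trans_le ((min_le_left _ _).trans (min_le_right _ _))
    have m3 : ‖s‖ < ρ₂ := hsn.trans_le (min_le_right _ _)
    have e1 := hΓn s hs m1
    have e2 : ‖Γ s - Γ 0‖ ≤ 1 / 2 := by
      have := hb1 (x := s) (by rwa [dist_zero_right])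
      rw [dist_eq_norm] at this
      exact this.le
    obtain ⟨e3, e4⟩ := hb2 s (by rwa [Metric.mem_ball, dist_zero_right])
    have e5 : exp (Γ s - Γ 0) = g s / g 0 := by
      have h1 : exp (H s) = s ^ p * exp (Γ s) := by
        rw [e1, Complex.exp_add, Complex.exp_int_mul, Complex.exp_log (ne s hs)]
      rw [hHe s hs, e4 hs] at h1
      have h2 := mul_left_cancel₀ (zpow_ne_zero p (ne s hs)) h1
      rw [Complex.exp_sub, hΓ0, ← h2]
    have e6 : ‖Γ s - Γ 0‖ ≤ 2 * (|Cg| / ‖g 0‖) * ‖s‖ := by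
      have h1 := exp_small e2
      rw [e5] at h1
      have h2 : ‖g s / g 0 - 1‖ ≤ |Cg| / ‖g 0‖ * ‖s‖ := by
        have h3 : g s / g 0 - 1 = (g s - g 0) / g 0 := by
          field_simp
        rw [h3, norm_div, div_mul_eq_mul_div]
        apply div_le_div_of_nonneg_right _ (norm_nonneg _)
        rw [sub_zero] at e3
        exact e3.trans (mul_le_mul_of_nonneg_right (le_abs_self _) (norm_nonneg _))
      linarith
    rw [hHh]
    simp only
    rw [norm_div, div_le_iff₀ hn]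
    have e8 : H s - p * log s - Γ 0 = Γ s - Γ 0 := by rw [e1]; ring
    rw [e8]
    exact e6
  -- the square means
  obtain ⟨n, hn⟩ := exists_nat_ge (a + 2)
  have hB := E.hB
  obtain ⟨K1, hK1, hb1⟩ := glob_quo_n (F₁ := G₁) (F₂ := G₂) (L := H) (a := a + 1) (B := Bf + B) hη
    (by linarith) (by positivity) E.hG₁ E.hG₂ E.hgrow₁ E.hgrow₂
    (fun s hs => (hHd s hs).differentiableAt) (fun s hs => by rw [hHe s hs, hrel s hs])
    (fun s hs => by
      have l0 : 0 ≤ Real.log (1 + ‖s‖) := Real.log_nonneg (by linarith [norm_nonneg s])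
      refine (hfar s hs).trans ?_
      nlinarith)
    (fun s hs => E.hne₂ s (by linarith))
    (fun s hs => by
      have l0 : 0 ≤ Real.log (1 + ‖s‖) := Real.log_nonneg (by linarith [norm_nonneg s])
      refine le_trans ?_ (E.hlow s (by linarith))
      nlinarith) n
  obtain ⟨K2, hK2, hb2⟩ := glob_n (F := fun s => s) (L := fun s => log s) (a := a + 1) (C := 1)
    (κ := 1) hη (by linarith) (by norm_num : (0 : ℝ) ≤ 4)
    (fun s _ => differentiableAt_id)
    (fun s _ => by rw [one_mul, pow_one]; linarith) hlogd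
    (fun s hs => Complex.exp_log (ne s hs)) (fun s hs => log_far (by linarith)) n
  set Cτ : ℝ := 1 + 1 / r₁ ^ 2 with hCτ
  set K : ℝ≥0∞ := ENNReal.ofReal (Cn ^ 2) * ENNReal.ofReal (2 * r₁) +
    ENNReal.ofReal (3 * Cτ) * (K1 + ENNReal.ofReal (|(p : ℝ)| ^ 2) * K2 +
      ENNReal.ofReal (‖Γ 0‖ ^ 2) *
        ∫⁻ T : ℝ, wq T * ENNReal.ofReal ((1 + Real.log (1 + |T|)) ^ 2)) with hK
  have hKt : K < ⊤ := by
    rw [hK]
    refine ENNReal.add_lt_top.2 ⟨ENNReal.mul_lt_top ENNReal.ofReal_lt_top ENNReal.ofReal_lt_top,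
      ENNReal.mul_lt_top ENNReal.ofReal_lt_top ?_⟩
    refine ENNReal.add_lt_top.2 ⟨ENNReal.add_lt_top.2 ⟨hK1, ?_⟩, ?_⟩
    · exact ENNReal.mul_lt_top ENNReal.ofReal_lt_top hK2
    · exact ENNReal.mul_lt_top ENNReal.ofReal_lt_top wq_log_fin
  have hmain : ∀ δ' : ℝ, 0 < δ' → δ' < a + 2 → ∫⁻ t : ℝ, ‖Hh (δ' + t * I)‖ₑ ^ 2 ≤ K := by
    intro δ' hδ' hδ1
    have hpt : ∀ t : ℝ, ‖Hh (δ' + t * I)‖ₑ ^ 2 ≤
        (Icc (-r₁) r₁).indicator (fun _ => ENNReal.ofReal (Cn ^ 2)) t +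
        ENNReal.ofReal (3 * Cτ) * (‖H (δ' + t * I)‖ₑ ^ 2 * wq t +
          ENNReal.ofReal (|(p : ℝ)| ^ 2) * (‖log (δ' + t * I)‖ₑ ^ 2 * wq t) +
          ENNReal.ofReal (‖Γ 0‖ ^ 2) * (wq t * ENNReal.ofReal ((1 + Real.log (1 + |t|)) ^ 2))) := by
      intro t
      set s : ℂ := δ' + t * I with hs
      have hsre : s.re = δ' := by simp [hs]
      have hsim : s.im = t := by simp [hs]
      have hs1 : 0 < s.re := by rw [hsre]; exact hδ'
      have hen : ∀ z : ℂ, ‖z‖ₑ ^ 2 = ENNReal.ofReal (‖z‖ ^ 2) := by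
        intro z
        rw [← ofReal_norm, ENNReal.ofReal_pow (norm_nonneg _)]
      have hn' : |t| ≤ ‖s‖ := by
        rw [← hsim]
        exact Complex.abs_im_le_norm s
      rcases lt_or_ge ‖s‖ r₁ with hsr | hsr
      · rw [indicator_of_mem (show t ∈ Icc (-r₁) r₁ from abs_le.1 (hn'.trans hsr.le))]
        refine le_trans ?_ le_self_add
        rw [hen]
        apply ENNReal.ofReal_le_ofReal
        apply pow_le_pow_left₀ (norm_nonneg _)
        exact hnear s hs1 hsr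
      · refine le_trans ?_ le_add_self
        have hn0 : 0 < ‖s‖ := hr₁.trans_le hsr
        have l0 : 0 ≤ Real.log (1 + |t|) := Real.log_nonneg (by linarith [abs_nonneg t])
        simp only [hen, wq]
        rw [← ENNReal.ofReal_mul (by positivity), ← ENNReal.ofReal_mul (by positivity),
          ← ENNReal.ofReal_mul (by positivity), ← ENNReal.ofReal_mul (by positivity),
          ← ENNReal.ofReal_mul (by positivity), ← ENNReal.ofReal_add (by positivity) (by positivity),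
          ← ENNReal.ofReal_add (by positivity) (by positivity),
          ← ENNReal.ofReal_mul (by positivity)]
        apply ENNReal.ofReal_le_ofReal
        have e1 : ‖H s - p * log s - Γ 0‖ ≤ ‖H s‖ + |(p : ℝ)| * ‖log s‖ + ‖Γ 0‖ := by
          refine (norm_sub_le _ _).trans ?_
          gcongr
          refine (norm_sub_le _ _).trans ?_
          rw [norm_mul, Complex.norm_intCast]
        have e2 : ‖Hh s‖ ^ 2 ≤ (‖H s‖ + |(p : ℝ)| * ‖log s‖ + ‖Γ 0‖) ^ 2 / ‖s‖ ^ 2 := by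
          rw [hHh]
          simp only
          rw [norm_div, div_pow]
          have := pow_le_pow_left₀ (norm_nonneg _) e1 2
          gcongr
        have e3 : 1 / ‖s‖ ^ 2 ≤ Cτ * (1 / (1 + t ^ 2)) := by
          have e4 : t ^ 2 ≤ ‖s‖ ^ 2 := by
            rw [← sq_abs]
            exact pow_le_pow_left₀ (abs_nonneg _) hn' 2
          rw [hCτ, mul_one_div, div_le_div_iff₀ (by positivity) (by positivity), one_mul]
          have e6 : 1 ≤ 1 / r₁ ^ 2 * ‖s‖ ^ 2 := by
            rw [one_div, inv_mul_eq_div, one_le_div (by positivity)]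
            exact pow_le_pow_left₀ hr₁.le hsr 2
          nlinarith
        set a1 := ‖H s‖
        set a2 := |(p : ℝ)| * ‖log s‖ with ha2
        set a4 := ‖Γ 0‖
        have e4 : (a1 + a2 + a4) ^ 2 ≤ 3 * (a1 ^ 2 + a2 ^ 2 + a4 ^ 2) := by
          nlinarith [sq_nonneg (a1 - a2), sq_nonneg (a1 - a4), sq_nonneg (a2 - a4)]
        have e5 : a4 ^ 2 ≤ a4 ^ 2 * (1 + Real.log (1 + |t|)) ^ 2 := by
          have : 1 ≤ (1 + Real.log (1 + |t|)) ^ 2 := one_le_pow₀ (by linarith)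
          nlinarith [sq_nonneg a4]
        have e6 : a2 ^ 2 = |(p : ℝ)| ^ 2 * ‖log s‖ ^ 2 := by rw [ha2]; ring
        calc ‖Hh s‖ ^ 2 ≤ (a1 + a2 + a4) ^ 2 * (1 / ‖s‖ ^ 2) := by
              rw [mul_one_div]
              exact e2
          _ ≤ (3 * (a1 ^ 2 + a2 ^ 2 + a4 ^ 2)) * (Cτ * (1 / (1 + t ^ 2))) :=
              mul_le_mul e4 e3 (by positivity) (by positivity)
          _ ≤ (3 * (a1 ^ 2 + a2 ^ 2 + a4 ^ 2 * (1 + Real.log (1 + |t|)) ^ 2)) *
              (Cτ * (1 / (1 + t ^ 2))) := by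
              apply mul_le_mul_of_nonneg_right _ (by positivity)
              linarith
          _ = _ := by
              rw [e6]
              ring
    have m1 : Measurable fun t : ℝ => ‖H (δ' + t * I)‖ₑ ^ 2 * wq t :=
      (line_meas (L := H) (fun s hs => (hHd s hs).continuousAt) hδ').mul wq_meas
    have m2 := (line_meas (L := fun s => log s) (fun s hs => (hlogd s hs).continuousAt) hδ').mul
      wq_meas
    have m5 : Measurable fun t : ℝ => (Icc (-r₁) r₁).indicator (fun _ => ENNReal.ofReal (Cn ^ 2)) t :=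
      measurable_const.indicator measurableSet_Icc
    refine (lintegral_mono hpt).trans ?_
    rw [lintegral_add_left m5, lintegral_indicator measurableSet_Icc, setLIntegral_const,
      Real.volume_Icc, lintegral_const_mul' _ _ ENNReal.ofReal_ne_top, hK]
    have e0 : r₁ - -r₁ = 2 * r₁ := by ring
    rw [e0]
    gcongr
    have q2 : Measurable fun t : ℝ => ‖H (δ' + t * I)‖ₑ ^ 2 * wq t +
          ENNReal.ofReal (|(p : ℝ)| ^ 2) * (‖log (δ' + t * I)‖ₑ ^ 2 * wq t) :=
      m1.add (m2.const_mul _)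
    rw [lintegral_add_left q2, lintegral_add_left m1,
      lintegral_const_mul' _ _ ENNReal.ofReal_ne_top,
      lintegral_const_mul' _ _ ENNReal.ofReal_ne_top]
    gcongr
    · exact hb1 δ' hδ' (by linarith)
    · exact hb2 δ' hδ' (by linarith)
  have hfin := of_hardy' (k := kf) (H := Hh) (a := a) (M := K.toReal) (by linarith)
    ENNReal.toReal_nonneg (fun x hx => hk1 x (by simpa using hx)) hk2 hHhd (fun x hx hx2 => by
      rw [ENNReal.ofReal_toReal hKt.ne]
      exact hmain x hx hx2)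
  refine lt_of_le_of_lt (le_trans (lintegral_mono fun u => ?_) hfin) ENNReal.ofReal_lt_top
  rw [← ofReal_norm, ← ENNReal.ofReal_pow (norm_nonneg _)]
  apply ENNReal.ofReal_le_ofReal
  have e1 : (kf u).re = f u := by
    rw [hkf]
    simp only
    by_cases hu : u ∈ Ici (0 : ℝ)
    · rw [indicator_of_mem hu, mul_one, Complex.sub_re, hκre, Complex.ofReal_re, sub_zero]
    · rw [indicator_of_notMem hu, mul_zero, sub_zero, Complex.ofReal_re]
  rw [← e1, ← sq_abs (kf u).re]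
  exact pow_le_pow_left₀ (abs_nonneg _) (Complex.abs_re_le_norm _) 2


end Gq

end Pool.Agent.V11288.QU
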