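import Pool.Agent.V11288.QU.Gq

/-!
# Square integrable functions and logarithms of quotients: the converse and the line
-/

set_option autoImplicit false

open MeasureTheory Filter Topology Set Complex
open scoped ENNReal
open Pool.Agent.TH942.SL
open Pool.Agent.TH270.MS
open Pool.Agent.V11288.HS

namespace Pool.Agent.V11288.QU

namespace Gq

variable {f : ℝ → ℝ} {G₁ G₂ : ℂ → ℂ} {r q : ℝ} {κ : ℕ} {a η C B : ℝ}

/-- square integrability: the continuation of the logarithm -/
theorem cont (E : Gq f G₁ G₂ r q κ a η C B) (h : ∫⁻ u : ℝ, ENNReal.ofReal (f u ^ 2) < ⊤) :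
    (∀ s : ℂ, 0 < s.re → DifferentiableAt ℂ (el f r q) s) ∧
    (∀ s : ℂ, 0 < s.re → ‖el f r q s - r * log s - q‖ ^ 2 ≤
      (∫⁻ u : ℝ, ENNReal.ofReal (f u ^ 2)).toReal * ‖s‖ ^ 2 / (2 * s.re)) ∧
    ∀ s : ℂ, 0 < s.re → exp (el f r q s) * G₂ s = G₁ s := by
  set A : ℝ := (∫⁻ u : ℝ, ENNReal.ofReal (f u ^ 2)).toReal with hA
  have hA0 : 0 ≤ A := ENNReal.toReal_nonneg
  have ha := E.ha
  set kk : ℝ → ℂ := fun u => (f u : ℂ) with hkk
  have hkm : Measurable kk := Complex.measurable_ofReal.comp E.meas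
  have hsq : ∫⁻ u : ℝ, ‖kk u‖ₑ ^ 2 ≤ ENNReal.ofReal A := by
    rw [hA, ENNReal.ofReal_toReal h.ne]
    refine le_of_eq (lintegral_congr fun u => ?_)
    rw [← ofReal_norm, ← ENNReal.ofReal_pow (norm_nonneg _), hkk]
    simp only
    rw [Complex.norm_real, Real.norm_eq_abs, sq_abs]
  obtain ⟨h1, -, h3⟩ := to_hardy hkm.aestronglyMeasurable
    (fun u hu => by rw [hkk]; simp only; rw [E.zero u hu.le]; simp) hA0 hsq
  have hdiff : ∀ s : ℂ, 0 < s.re → DifferentiableAt ℂ (el f r q) s := by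
    intro s hs
    have hL : ∀ w : ℝ, 0 < w → Pool.Agent.W263.BSD.LInt f w := by
      intro w hw
      have h4 := (h1 w hw).re.integrableOn (s := Ioi (0 : ℝ))
      unfold Pool.Agent.W263.BSD.LInt
      refine IntegrableOn.congr_fun h4 (fun u _ => ?_) measurableSet_Ioi
      simp only [hkk]
      have e : ((f u : ℝ) : ℂ) * exp (-((w : ℂ) * u)) =
          ((f u * Real.exp (-(w * u)) : ℝ) : ℂ) := by
        push_cast
        rfl
      rw [e]
      exact Complex.ofReal_re _
    have h5 := Pool.Agent.W263.BSD.lapC_differentiableAt E.meas (w0 := 0)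
      (fun w hw => hL w hw) hs
    have e : HS.LT f = Pool.Agent.W263.BSD.lapC f := by
      funext z
      unfold Pool.Agent.W263.BSD.lapC HS.LT
      symm
      refine setIntegral_eq_integral_of_forall_compl_eq_zero fun u hu => ?_
      rw [E.zero u (by simpa using hu)]
      simp
    rw [← e] at h5
    have h6 : DifferentiableAt ℂ log s :=
      (Complex.hasDerivAt_log (Or.inl hs)).differentiableAt
    unfold el
    exact ((differentiableAt_id.mul h5).add (h6.const_mul _)).add_const _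
  refine ⟨hdiff, fun s hs => ?_, fun s hs => ?_⟩
  · have h4 := h3 s hs
    have h0 := ne s hs
    have key : el f r q s - r * log s - q = s * ∫ u : ℝ, kk u * exp (-(s * u)) := by
      unfold el HS.LT
      ring
    rw [key, norm_mul, mul_pow]
    have h5 := mul_le_mul_of_nonneg_left h4 (sq_nonneg ‖s‖)
    refine h5.trans (le_of_eq ?_)
    ring
  · have hU : IsOpen {s : ℂ | 0 < s.re} := isOpen_lt continuous_const Complex.continuous_re
    have hUc : Convex ℝ {s : ℂ | 0 < s.re} := convex_halfSpace_re_gt _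
    have a1 : AnalyticOnNhd ℂ (fun s => exp (el f r q s) * G₂ s) {s : ℂ | 0 < s.re} :=
      DifferentiableOn.analyticOnNhd (fun z hz => ((hdiff z hz).cexp.mul (E.hG₂ z (by
        have : 0 < z.re := hz
        linarith [E.hη]))).differentiableWithinAt) hU
    have a2 : AnalyticOnNhd ℂ G₁ {s : ℂ | 0 < s.re} :=
      DifferentiableOn.analyticOnNhd (fun z hz => (E.hG₁ z (by
        have : 0 < z.re := hz
        linarith [E.hη])).differentiableWithinAt) hU
    have h2 : ((a + 1 : ℝ) : ℂ) ∈ {s : ℂ | 0 < s.re} := by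
      show 0 < ((a + 1 : ℝ) : ℂ).re
      rw [Complex.ofReal_re]
      linarith
    have ho : IsOpen {z : ℂ | a < z.re} := isOpen_lt continuous_const Complex.continuous_re
    refine a1.eqOn_of_preconnected_of_eventuallyEq a2 hUc.isPreconnected h2 ?_ hs
    have h3 : ((a + 1 : ℝ) : ℂ) ∈ {z : ℂ | a < z.re} := by
      show a < ((a + 1 : ℝ) : ℂ).re
      rw [Complex.ofReal_re]
      linarith
    filter_upwards [ho.mem_nhds h3] with z hz
    exact E.hexp z hz

/-- **square integrability: the leading term** -/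
theorem conv (E : Gq f G₁ G₂ r q κ a η C B) (h : ∫⁻ u : ℝ, ENNReal.ofReal (f u ^ 2) < ⊤)
    (p : ℤ) (g : ℂ → ℂ) (hg : ContinuousAt g 0) (hg0 : g 0 ≠ 0)
    (near : ∀ᶠ s in 𝓝 (0 : ℂ), 0 < s.re → exp (el f r q s) = s ^ p * g s) :
    (p : ℝ) = r ∧ ‖g 0‖ = Real.exp q := by
  obtain ⟨h1, h2, h3⟩ := E.cont h
  set A : ℝ := (∫⁻ u : ℝ, ENNReal.ofReal (f u ^ 2)).toReal with hA
  have hA0 : 0 ≤ A := ENNReal.toReal_nonneg
  -- real points
  have hx : Tendsto (fun x : ℝ => (x : ℂ)) (𝓝[>] 0) (𝓝 0) := by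
    have := (Complex.continuous_ofReal.tendsto 0).mono_left
      (nhdsWithin_le_nhds (s := Ioi (0 : ℝ)))
    simpa using this
  have t1 : Tendsto (fun x : ℝ => Real.log ‖g (x : ℂ)‖) (𝓝[>] 0) (𝓝 (Real.log ‖g 0‖)) :=
    ((hg.tendsto.comp hx).norm).log (norm_ne_zero_iff.2 hg0)
  have t2 : Tendsto (fun x : ℝ => (el f r q x - r * log x - q).re) (𝓝[>] 0) (𝓝 0) := by
    have h4 : Tendsto (fun x : ℝ => √(A * x / 2)) (𝓝[>] 0) (𝓝 0) := by
      have h5 : Tendsto (fun x : ℝ => A * x / 2) (𝓝[>] 0) (𝓝 (A * 0 / 2)) :=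
        ((tendsto_id.mono_left nhdsWithin_le_nhds).const_mul A).div_const 2
      have h6 := (Real.continuous_sqrt.tendsto _).comp h5
      simpa [Function.comp_def] using h6
    refine squeeze_zero_norm' ?_ h4
    filter_upwards [self_mem_nhdsWithin] with x hx
    have hx0 : (0 : ℝ) < x := hx
    have h5 := h2 x (by simpa using hx0)
    rw [Complex.ofReal_re, Complex.norm_real, Real.norm_eq_abs, sq_abs] at h5
    apply Real.le_sqrt_of_sq_le
    rw [Real.norm_eq_abs]
    have h6 : |(el f r q x - r * log x - q).re| ^ 2 ≤ ‖el f r q x - r * log x - q‖ ^ 2 :=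
      pow_le_pow_left₀ (abs_nonneg _) (Complex.abs_re_le_norm _) 2
    refine (h6.trans h5).trans (le_of_eq ?_)
    field_simp
  have t3 : Tendsto (fun x : ℝ => (el f r q x - r * log x - q).re + (q - Real.log ‖g (x : ℂ)‖))
      (𝓝[>] 0) (𝓝 (0 + (q - Real.log ‖g 0‖))) := t2.add (t1.const_sub q)
  -- the identity
  have hid : ∀ᶠ x : ℝ in 𝓝[>] 0, (el f r q x - r * log x - q).re + (q - Real.log ‖g (x : ℂ)‖) =
      ((p : ℝ) - r) * Real.log x := by
    have hgn : ∀ᶠ x : ℝ in 𝓝[>] 0, g (x : ℂ) ≠ 0 := hx.eventually (hg.eventually_ne hg0)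
    filter_upwards [hx.eventually near, hgn, self_mem_nhdsWithin] with x h5 h6 hx
    have hx0 : (0 : ℝ) < x := hx
    have h7 := h5 (by simpa using hx0)
    have h8 := congrArg norm h7
    rw [norm_mul, norm_zpow, Complex.norm_real, Real.norm_eq_abs,
      abs_of_pos hx0, Complex.norm_exp] at h8
    have h9 := congrArg Real.log h8
    rw [Real.log_exp, Real.log_mul (by positivity)
      (norm_ne_zero_iff.2 h6), Real.log_zpow] at h9
    rw [Complex.sub_re, Complex.sub_re, Complex.ofReal_re, Complex.re_ofReal_mul, Complex.log_re,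
      Complex.norm_real, Real.norm_eq_abs, abs_of_pos hx0]
    linarith
  have t4 : Tendsto (fun x : ℝ => ((p : ℝ) - r) * Real.log x) (𝓝[>] 0)
      (𝓝 (0 + (q - Real.log ‖g 0‖))) := t3.congr' hid
  have hpr : (p : ℝ) - r = 0 := by
    by_contra hne
    have t5 : Tendsto (fun x : ℝ => Real.log x) (𝓝[>] 0)
        (𝓝 (((p : ℝ) - r)⁻¹ * (0 + (q - Real.log ‖g 0‖)))) := by
      refine (t4.const_mul ((p : ℝ) - r)⁻¹).congr fun x => ?_
      field_simp
    have h5 := Real.tendsto_log_nhdsGT_zero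
    exact not_tendsto_nhds_of_tendsto_atBot h5 _ t5
  refine ⟨by linarith, ?_⟩
  rw [hpr] at t4
  simp only [zero_mul] at t4
  have h5 := tendsto_nhds_unique t4 tendsto_const_nhds
  have h6 : Real.log ‖g 0‖ = q := by linarith
  rw [← h6, Real.exp_log (norm_pos_iff.2 hg0)]

/-- **the formula on the line** -/
theorem line (E : Gq f G₁ G₂ r q κ a η C B) (h : ∫⁻ u : ℝ, ENNReal.ofReal (f u ^ 2) < ⊤) :
    ∫⁻ u : ℝ, ENNReal.ofReal (f u ^ 2) = ENNReal.ofReal Real.pi⁻¹ *
      ∫⁻ t : ℝ, ENNReal.ofReal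
        ((Real.log ‖G₁ (t * I) / G₂ (t * I)‖ - r * Real.log |t| - q) ^ 2 / t ^ 2) := by
  obtain ⟨hl1, hl3, hexp⟩ := E.cont h
  set B₁ : ℝ := (∫⁻ u : ℝ, ENNReal.ofReal (f u ^ 2)).toReal with hB₁
  have hB0 : 0 ≤ B₁ := ENNReal.toReal_nonneg
  have hη := E.hη
  have ha := E.ha
  have hmem : MemLp f 2 := by
    refine ⟨E.meas.aestronglyMeasurable, ?_⟩
    rw [en_real]
    exact ENNReal.rpow_lt_top_of_nonneg (by norm_num) h.ne
  set z₀ : ℂ := ((a + 1 : ℝ) : ℂ) with hz₀
  have hz₀' : a < z₀.re := by rw [hz₀, Complex.ofReal_re]; linarith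
  have hG2 : G₂ z₀ ≠ 0 := E.hne₂ z₀ hz₀'
  have hG1 : G₁ z₀ ≠ 0 := by
    rw [← hexp z₀ (by linarith)]
    exact mul_ne_zero (Complex.exp_ne_zero _) hG2
  have hae1 := ae_ne hη E.hG₁ (z := z₀) (by linarith) hG1
  have hae2 := ae_ne hη E.hG₂ (z := z₀) (by linarith) hG2
  have hae0 : ∀ᵐ t : ℝ, t ≠ 0 := by
    rw [ae_iff]
    simp
  have hline := im_line (k := f) E.zero hmem
    (h := fun t => -(Real.log ‖G₁ (t * I) / G₂ (t * I)‖ - r * Real.log |t| - q) / t) (by
      filter_upwards [hae1, hae2, hae0] with t ht1 ht2 ht0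
      have htI : (t : ℂ) * I ≠ 0 := mul_ne_zero (by exact_mod_cast ht0) I_ne_zero
      set s : ℝ → ℂ := fun x => (x : ℂ) + t * I with hs
      have hsre : ∀ x, (s x).re = x := fun x => by simp [hs]
      have hsim : ∀ x, (s x).im = t := fun x => by simp [hs]
      have hst : Tendsto s (𝓝[>] 0) (𝓝 (t * I)) := by
        have h1 : Continuous s := by fun_prop
        have h2 := h1.tendsto 0
        have h3 : s 0 = t * I := by simp [hs]
        rw [h3] at h2
        exact h2.mono_left nhdsWithin_le_nhds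
      set w : ℝ → ℂ := fun x => el f r q (s x) - r * log (s x) - q with hw
      have hLT : ∀ x : ℝ, 0 < x → HS.LT f (s x) = w x / s x := by
        intro x hx
        have h1 : s x ≠ 0 := ne _ (by rw [hsre]; exact hx)
        simp only [hw]
        unfold el
        field_simp
        ring
      have hG1c : ContinuousAt G₁ (t * I) := (E.hG₁ _ (by simpa using hη)).continuousAt
      have hG2c : ContinuousAt G₂ (t * I) := (E.hG₂ _ (by simpa using hη)).continuousAt
      have hwre : ∀ x : ℝ, 0 < x → G₂ (s x) ≠ 0 → (w x).re =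
          Real.log ‖G₁ (s x) / G₂ (s x)‖ - r * Real.log ‖s x‖ - q := by
        intro x hx hx2
        have hs0 : 0 < (s x).re := by rw [hsre]; exact hx
        have h1 := hexp (s x) hs0
        have h2 : 0 < ‖s x‖ := norm_pos_iff.2 (ne _ hs0)
        have h3 : Real.log ‖G₁ (s x) / G₂ (s x)‖ = (el f r q (s x)).re := by
          rw [← h1, mul_div_assoc, div_self hx2, mul_one, Complex.norm_exp, Real.log_exp]
        simp only [hw]
        rw [Complex.sub_re, Complex.sub_re, Complex.ofReal_re, Complex.re_ofReal_mul, Complex.log_re, h3]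
      have hRe : Tendsto (fun x => (w x).re) (𝓝[>] 0)
          (𝓝 (Real.log ‖G₁ (t * I) / G₂ (t * I)‖ - r * Real.log |t| - q)) := by
        have h1 : Tendsto (fun x => Real.log ‖G₁ (s x) / G₂ (s x)‖) (𝓝[>] 0)
            (𝓝 (Real.log ‖G₁ (t * I) / G₂ (t * I)‖)) :=
          (((hG1c.tendsto.comp hst).div (hG2c.tendsto.comp hst) ht2).norm).log
            (norm_ne_zero_iff.2 (div_ne_zero ht1 ht2))
        have h2 : Tendsto (fun x => Real.log ‖s x‖) (𝓝[>] 0) (𝓝 (Real.log ‖(t : ℂ) * I‖)) :=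
          hst.norm.log (norm_ne_zero_iff.2 htI)
        have h3 : Tendsto (fun x => Real.log ‖G₁ (s x) / G₂ (s x)‖ - r * Real.log ‖s x‖ - q) (𝓝[>] 0)
            (𝓝 (Real.log ‖G₁ (t * I) / G₂ (t * I)‖ - r * Real.log ‖(t : ℂ) * I‖ - q)) :=
          (h1.sub (h2.const_mul _)).sub_const _
        have e : Real.log ‖G₁ (t * I) / G₂ (t * I)‖ - r * Real.log ‖(t : ℂ) * I‖ - q =
            Real.log ‖G₁ (t * I) / G₂ (t * I)‖ - r * Real.log |t| - q := by
          have h4 : ‖(t : ℂ) * I‖ = |t| := by simp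
          rw [h4]
        rw [e] at h3
        refine h3.congr' ?_
        have h4 : ∀ᶠ x : ℝ in 𝓝[>] 0, G₂ (s x) ≠ 0 := hst.eventually (hG2c.eventually_ne ht2)
        filter_upwards [self_mem_nhdsWithin, h4] with x hx hx2
        exact (hwre x hx hx2).symm
      have hIm : Tendsto (fun x => (w x).im * x) (𝓝[>] 0) (𝓝 0) := by
        have h1 : Tendsto (fun x => √(B₁ * ‖s x‖ ^ 2 * x / 2)) (𝓝[>] 0) (𝓝 0) := by
          have h2 : Tendsto (fun x => B₁ * ‖s x‖ ^ 2 * x / 2) (𝓝[>] 0)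
              (𝓝 (B₁ * ‖(t : ℂ) * I‖ ^ 2 * 0 / 2)) :=
            (((hst.norm.pow 2).const_mul B₁).mul (tendsto_id.mono_left nhdsWithin_le_nhds)).div_const 2
          have h3 := (Real.continuous_sqrt.tendsto _).comp h2
          simpa [Function.comp_def] using h3
        refine squeeze_zero_norm' ?_ h1
        filter_upwards [self_mem_nhdsWithin] with x hx
        have hx0 : 0 < x := hx
        have hs0 : 0 < (s x).re := by rw [hsre]; exact hx0
        have h2 := hl3 (s x) hs0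
        rw [hsre] at h2
        apply Real.le_sqrt_of_sq_le
        rw [norm_mul, mul_pow, Real.norm_eq_abs, Real.norm_eq_abs, sq_abs x]
        have h3 : |(w x).im| ^ 2 ≤ ‖w x‖ ^ 2 :=
          pow_le_pow_left₀ (abs_nonneg _) (Complex.abs_im_le_norm _) 2
        calc |(w x).im| ^ 2 * x ^ 2 ≤ (B₁ * ‖s x‖ ^ 2 / (2 * x)) * x ^ 2 := by
              gcongr
              exact h3.trans h2
          _ = B₁ * ‖s x‖ ^ 2 * x / 2 := by field_simp
      have hq : ∀ x : ℝ, 0 < x → (HS.LT f (s x)).im =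
          ((w x).im * x - (w x).re * t) / (x ^ 2 + t ^ 2) := by
        intro x hx
        rw [hLT x hx, Complex.div_im, Complex.normSq_apply, hsre, hsim]
        have : x * x + t * t = x ^ 2 + t ^ 2 := by ring
        rw [this]
        ring
      have hden : Tendsto (fun x : ℝ => x ^ 2 + t ^ 2) (𝓝[>] 0) (𝓝 (0 ^ 2 + t ^ 2)) :=
        ((tendsto_id.mono_left nhdsWithin_le_nhds).pow 2).add_const _
      have hfinal := (hIm.sub (hRe.mul_const t)).div hden (by positivity)
      have e : (0 - (Real.log ‖G₁ (t * I) / G₂ (t * I)‖ - r * Real.log |t| - q) * t) /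
          (0 ^ 2 + t ^ 2) =
          -(Real.log ‖G₁ (t * I) / G₂ (t * I)‖ - r * Real.log |t| - q) / t := by
        field_simp
        ring
      rw [e] at hfinal
      refine hfinal.congr' ?_
      filter_upwards [self_mem_nhdsWithin] with x hx
      exact (hq x hx).symm)
  have h7 : ∫⁻ t : ℝ, ENNReal.ofReal
      ((-(Real.log ‖G₁ (t * I) / G₂ (t * I)‖ - r * Real.log |t| - q) / t) ^ 2) =
      ∫⁻ t : ℝ, ENNReal.ofReal
        ((Real.log ‖G₁ (t * I) / G₂ (t * I)‖ - r * Real.log |t| - q) ^ 2 / t ^ 2) := by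
    refine lintegral_congr fun t => ?_
    congr 1
    rw [div_pow, neg_sq]
  rw [h7] at hline
  rw [hline, ← mul_assoc, ← ENNReal.ofReal_mul (by positivity), inv_mul_cancel₀ Real.pi_ne_zero,
    ENNReal.ofReal_one, one_mul]

end Gq

end Pool.Agent.V11288.QU
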