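import Pool.Agent.V11288.QU.Dir

/-!
# Quotients: logarithms given by absolutely convergent Dirichlet series with complex coefficients

The index type is arbitrary.  The proofs from `local_quot` on repeat those of `QU.Dbl`.
-/

set_option autoImplicit false

open MeasureTheory Filter Topology Set Complex
open scoped ENNReal ComplexConjugate
open Pool.Agent.TH942.LS (Dat)
open Pool.Agent.TH942.SL
open Pool.Agent.TH942.ES
open Pool.Agent.TH270.MS
open Pool.Agent.V11288.HS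

namespace Pool.Agent.V11288.QU

variable {ι : Type}

/-- the real parts of the partial sums at `iτ` -/
noncomputable def Si (lam : ι → ℝ) (a : ι → ℂ) (τ u : ℝ) : ℝ :=
  ∑' i, if lam i ≤ u then (a i * exp (-(((τ * lam i : ℝ) : ℂ) * I))).re else 0

/-- the mean square deviation -/
noncomputable def Mi (lam : ι → ℝ) (a : ι → ℂ) (τ r q : ℝ) : ℝ≥0∞ :=
  ∫⁻ u in Ioi (0 : ℝ), ENNReal.ofReal ((Si lam a τ u + r * HS.gl u - q) ^ 2)

/-- the exponential of a Dirichlet series with a continuation as a quotient of two functions of polynomial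
growth -/
structure Qi (lam : ι → ℝ) (a : ι → ℂ) (δ σ : ℝ) (G₁ G₂ : ℂ → ℂ) (κ : ℕ) (η C b : ℝ) : Prop where
  cnt : Countable ι
  δ0 : 0 < δ
  σ0 : 0 < σ
  lam_ge : ∀ i, δ ≤ lam i
  sum : Summable fun i => ‖a i‖ * Real.exp (-(σ * lam i))
  hη : 0 < η
  hG₁ : ∀ s : ℂ, -η < s.re → DifferentiableAt ℂ G₁ s
  hG₂ : ∀ s : ℂ, -η < s.re → DifferentiableAt ℂ G₂ s
  hgrow₁ : ∀ s : ℂ, -η < s.re → ‖G₁ s‖ ≤ C * (1 + ‖s‖) ^ κ
  hgrow₂ : ∀ s : ℂ, -η < s.re → ‖G₂ s‖ ≤ C * (1 + ‖s‖) ^ κ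
  hexp : ∀ s : ℂ, b < s.re → exp (∑' i, a i * exp (-(s * lam i))) * G₂ s = G₁ s
  hlow : ∀ s : ℂ, b < s.re → 1 ≤ C * (1 + ‖s‖) ^ κ * ‖G₂ s‖

/-- the frequencies, indexed by `ℕ` -/
noncomputable def lamN (e : ι → ℕ) (lam : ι → ℝ) (δ : ℝ) : ℕ → ℝ := Function.extend e lam (fun _ => δ)

/-- the coefficients, indexed by `ℕ` -/
noncomputable def cN (e : ι → ℕ) (c : ι → ℝ) : ℕ → ℝ := Function.extend e c 0

section ext

variable {e : ι → ℕ} (he : Function.Injective e) (lam c : ι → ℝ) (δ : ℝ)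
include he

theorem lamN_apply (i : ι) : lamN e lam δ (e i) = lam i := he.extend_apply _ _ _

theorem cN_apply (i : ι) : cN e c (e i) = c i := he.extend_apply _ _ _

omit he in
theorem cN_zero {n : ℕ} (hn : n ∉ Set.range e) : cN e c n = 0 := by
  unfold cN
  rw [Function.extend_apply' _ _ _ hn]
  rfl

theorem tsum_N {E' : Type} [NormedAddCommGroup E'] (f : ℝ → ℝ → E') (h0 : ∀ l, f 0 l = 0) :
    ∑' n, f (cN e c n) (lamN e lam δ n) = ∑' i, f (c i) (lam i) := by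
  rw [← he.tsum_eq (f := fun n => f (cN e c n) (lamN e lam δ n))]
  · simp only [lamN_apply he, cN_apply he]
  · intro n hn
    by_contra h
    exact hn (by
      change f (cN e c n) (lamN e lam δ n) = 0
      rw [cN_zero c h, h0])

theorem summable_N {E' : Type} [NormedAddCommGroup E'] (f : ℝ → ℝ → E') (h0 : ∀ l, f 0 l = 0) :
    Summable (fun n => f (cN e c n) (lamN e lam δ n)) ↔ Summable fun i => f (c i) (lam i) := by
  rw [← he.summable_iff (f := fun n => f (cN e c n) (lamN e lam δ n))]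
  · have : ((fun n => f (cN e c n) (lamN e lam δ n)) ∘ e) = fun i => f (c i) (lam i) := by
      funext v
      simp only [Function.comp_apply, lamN_apply he, cN_apply he]
    rw [this]
  · intro n hn
    rw [cN_zero c hn, h0]

theorem dd_N (s : ℂ) : DD (lamN e lam δ) (cN e c) s = ∑' i, (c i : ℂ) * exp (-(s * lam i)) :=
  tsum_N he lam c δ (fun x l => (x : ℂ) * exp (-(s * l))) (by simp)

theorem sh_N (u : ℝ) : Sh (lamN e lam δ) (cN e c) u = ∑' i, if lam i ≤ u then c i else 0 :=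
  tsum_N he lam c δ (fun x l => if l ≤ u then x else 0) (by simp)

theorem dat_N {σ : ℝ} (hδ : 0 < δ) (hσ : 0 < σ) (hlam : ∀ i, δ ≤ lam i)
    (hs : Summable fun i => |c i| * Real.exp (-(σ * lam i))) : Dat (lamN e lam δ) (cN e c) δ σ := by
  refine ⟨hδ, hσ, fun n => ?_, (summable_N he lam c δ (fun x l => |x| * Real.exp (-(σ * l))) (by simp)).2 hs⟩
  by_cases hn : n ∈ Set.range e
  · obtain ⟨i, rfl⟩ := hn
    rw [lamN_apply he]
    exact hlam i
  · unfold lamN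
    rw [Function.extend_apply' _ _ _ hn]

end ext

/-- the doubled coefficients -/
noncomputable def cc (lam : ι → ℝ) (a : ι → ℂ) (τ : ℝ) (i : ι) : ℝ :=
  2 * (a i * exp (-(((τ * lam i : ℝ) : ℂ) * I))).re

theorem cc_le (lam : ι → ℝ) (a : ι → ℂ) (τ : ℝ) (i : ι) : |cc lam a τ i| ≤ 2 * ‖a i‖ := by
  unfold cc
  rw [abs_mul, abs_of_pos (by norm_num : (0 : ℝ) < 2)]
  have h1 := Complex.abs_re_le_norm (a i * exp (-(((τ * lam i : ℝ) : ℂ) * I)))
  have h2 : ‖exp (-(((τ * lam i : ℝ) : ℂ) * I))‖ = 1 := by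
    rw [← neg_mul, ← Complex.ofReal_neg]
    exact Complex.norm_exp_ofReal_mul_I _
  rw [norm_mul, h2, mul_one] at h1
  linarith

theorem term_norm (lam : ι → ℝ) (a : ι → ℂ) (s : ℂ) (i : ι) :
    ‖a i * exp (-(s * lam i))‖ = ‖a i‖ * Real.exp (-(s.re * lam i)) := by
  rw [norm_mul, Complex.norm_exp]
  congr 2
  simp

namespace Qi

variable {lam : ι → ℝ} {a : ι → ℂ} {δ σ : ℝ} {G₁ G₂ : ℂ → ℂ} {κ : ℕ} {η C b : ℝ}

theorem summ (Q : Qi lam a δ σ G₁ G₂ κ η C b) {s : ℂ} (hs : σ ≤ s.re) :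
    Summable fun i => a i * exp (-(s * lam i)) := by
  refine Summable.of_norm (Summable.of_nonneg_of_le (fun i => norm_nonneg _) (fun i => ?_) Q.sum)
  rw [term_norm]
  have h1 : 0 ≤ lam i := Q.δ0.le.trans (Q.lam_ge i)
  gcongr

theorem term_split (lam : ι → ℝ) (a : ι → ℂ) (τ : ℝ) (s : ℂ) (i : ι) :
    (cc lam a τ i : ℂ) * exp (-(s * lam i)) =
      a i * exp (-((s + τ * I) * lam i)) + conj (a i * exp (-((conj s + τ * I) * lam i))) := by
  have h1 : (cc lam a τ i : ℂ) = a i * exp (-(((τ * lam i : ℝ) : ℂ) * I)) +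
      conj (a i * exp (-(((τ * lam i : ℝ) : ℂ) * I))) := by
    rw [Complex.add_conj]
    rfl
  rw [h1, map_mul, map_mul, ← Complex.exp_conj, ← Complex.exp_conj, add_mul, mul_assoc, mul_assoc,
    ← Complex.exp_add, ← Complex.exp_add]
  congr 3
  · push_cast
    ring
  · congr 1
    simp only [map_neg, map_mul, map_add, Complex.conj_conj, Complex.conj_I, Complex.conj_ofReal]
    push_cast
    ring

theorem dd_dbl (Q : Qi lam a δ σ G₁ G₂ κ η C b) (τ : ℝ) {s : ℂ} (hs : σ ≤ s.re) :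
    ∑' i, (cc lam a τ i : ℂ) * exp (-(s * lam i)) =
      (∑' i, a i * exp (-((s + τ * I) * lam i))) +
        conj (∑' i, a i * exp (-((conj s + τ * I) * lam i))) := by
  have h1 := Q.summ (s := s + τ * I) (by rw [Pc.re_lt]; exact hs)
  have h2 := Q.summ (s := conj s + τ * I) (by rw [Pc.re_lt, Complex.conj_re]; exact hs)
  have h3 : HasSum (fun i => conj (a i * exp (-((conj s + τ * I) * lam i))))
      (conj (∑' i, a i * exp (-((conj s + τ * I) * lam i)))) :=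
    h2.hasSum.map (starRingEnd ℂ) Complex.continuous_conj
  have h4 := h1.hasSum.add h3
  rw [← h4.tsum_eq]
  exact tsum_congr fun i => term_split lam a τ s i

theorem C0 (Q : Qi lam a δ σ G₁ G₂ κ η C b) : 0 ≤ C := by
  have h1 := (norm_nonneg _).trans (Q.hgrow₁ 0 (by simpa using Q.hη))
  simpa using h1

/-- an enumeration -/
noncomputable def enc (Q : Qi lam a δ σ G₁ G₂ κ η C b) : ι → ℕ :=
  (@exists_injective_nat ι Q.cnt).choose

theorem enc_inj (Q : Qi lam a δ σ G₁ G₂ κ η C b) : Function.Injective Q.enc :=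
  (@exists_injective_nat ι Q.cnt).choose_spec

/-- the doubled series -/
theorem qd (Q : Qi lam a δ σ G₁ G₂ κ η C b) (τ : ℝ) :
    Qd (lamN Q.enc lam δ) (cN Q.enc (cc lam a τ)) δ σ (L2 G₁ τ) (L2 G₂ τ) (κ + κ) η
      (C * (1 + |τ|) ^ κ * (C * (1 + |τ|) ^ κ)) (max b σ) where
  D := by
    refine dat_N Q.enc_inj lam _ δ Q.δ0 Q.σ0 Q.lam_ge ?_
    refine Summable.of_nonneg_of_le (fun i => by positivity) (fun i => ?_) (Q.sum.mul_left 2)
    rw [← mul_assoc]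
    exact mul_le_mul_of_nonneg_right (cc_le lam a τ i) (by positivity)
  hη := Q.hη
  hG₁ := fun s hs => l2_diff Q.hG₁ τ hs
  hG₂ := fun s hs => l2_diff Q.hG₂ τ hs
  hgrow₁ := fun s hs => l2_grow Q.hgrow₁ τ hs
  hgrow₂ := fun s hs => l2_grow Q.hgrow₂ τ hs
  hexp := by
    intro s hs
    have h1 : b < s.re := (le_max_left _ _).trans_lt hs
    have h2 : σ < s.re := (le_max_right _ _).trans_lt hs
    rw [dd_N Q.enc_inj, Q.dd_dbl τ h2.le, Complex.exp_add, Complex.exp_conj]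
    unfold L2
    rw [← Q.hexp (s + τ * I) (by rw [Pc.re_lt]; exact h1),
      ← Q.hexp (conj s + τ * I) (by rw [Pc.re_lt, Complex.conj_re]; exact h1), map_mul]
    ring
  hlow := by
    intro s hs
    have h1 : b < s.re := (le_max_left _ _).trans_lt hs
    have hC := Q.C0
    have key : ∀ z : ℂ, b < z.re → 1 ≤ C * (1 + |τ|) ^ κ * (1 + ‖z‖) ^ κ * ‖G₂ (z + τ * I)‖ := by
      intro z hz
      refine (Q.hlow (z + τ * I) (by rw [Pc.re_lt]; exact hz)).trans ?_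
      have h5 := shift_le τ z
      calc C * (1 + ‖z + τ * I‖) ^ κ * ‖G₂ (z + τ * I)‖ ≤
            C * ((1 + |τ|) * (1 + ‖z‖)) ^ κ * ‖G₂ (z + τ * I)‖ := by gcongr
        _ = _ := by rw [mul_pow]; ring
    have e1 := key s h1
    have e2 := key (conj s) (by rw [Complex.conj_re]; exact h1)
    rw [Complex.norm_conj] at e2
    unfold L2
    rw [norm_mul, Complex.norm_conj, pow_add]
    calc (1 : ℝ) ≤ (C * (1 + |τ|) ^ κ * (1 + ‖s‖) ^ κ * ‖G₂ (s + τ * I)‖) *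
          (C * (1 + |τ|) ^ κ * (1 + ‖s‖) ^ κ * ‖G₂ (conj s + τ * I)‖) :=
          one_le_mul_of_one_le_of_one_le e1 e2
      _ = _ := by ring

theorem sh_cc (Q : Qi lam a δ σ G₁ G₂ κ η C b) (τ u : ℝ) :
    Sh (lamN Q.enc lam δ) (cN Q.enc (cc lam a τ)) u = 2 * Si lam a τ u := by
  rw [sh_N Q.enc_inj]
  unfold Si
  rw [← tsum_mul_left]
  refine tsum_congr fun i => ?_
  unfold cc
  split_ifs
  · rfl
  · rw [mul_zero]

/-- the mean square of the doubled series -/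
theorem mi_dbl (Q : Qi lam a δ σ G₁ G₂ κ η C b) (τ r q : ℝ) :
    ∫⁻ u : ℝ, ENNReal.ofReal (Df (lamN Q.enc lam δ) (cN Q.enc (cc lam a τ)) (2 * r) (2 * q) u ^ 2) =
      4 * Mi lam a τ r q := by
  unfold Mi
  rw [← lintegral_const_mul' _ _ (by norm_num), ← lintegral_indicator measurableSet_Ioi]
  refine lintegral_congr fun u => ?_
  rcases lt_or_ge 0 u with hu | hu
  · rw [indicator_of_mem (show u ∈ Ioi (0 : ℝ) from hu)]
    unfold Df
    rw [indicator_of_mem (show u ∈ Ioi (0 : ℝ) from hu), Q.sh_cc,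
      show (4 : ℝ≥0∞) = ENNReal.ofReal 4 by norm_num, ← ENNReal.ofReal_mul (by norm_num)]
    congr 1
    ring
  · rw [indicator_of_notMem (show u ∉ Ioi (0 : ℝ) from not_lt.2 hu), df_zero _ _ hu]
    simp

/-- the local form of the quotient -/
theorem local_quot (Q : Qi lam a δ σ G₁ G₂ κ η C b) {s : ℂ} (hs : -η < s.re) :
    ∃ (p : ℤ) (g : ℂ → ℂ), meromorphicOrderAt (fun s => G₁ s / G₂ s) s = p ∧ AnalyticAt ℂ g s ∧
      g s ≠ 0 ∧ ∀ᶠ z in 𝓝[≠] s, G₁ z / G₂ z = (z - s) ^ p * g z := by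
  -- the doubled system at the height of `s`, on the real axis
  set τ : ℝ := s.im with hτ
  have hre : ((s.re : ℝ) : ℂ) + τ * I = s := by rw [hτ]; exact Complex.re_add_im s
  have Q' := Q.qd τ
  have hs' : -η < ((s.re : ℝ) : ℂ).re := by rw [Complex.ofReal_re]; exact hs
  have hev : ∀ᶠ z in 𝓝[≠] ((s.re : ℝ) : ℂ), L2 G₁ τ z ≠ 0 ∧ L2 G₂ τ z ≠ 0 :=
    (Q'.ev_ne₁ hs').and (Q'.ev_ne₂ hs')
  have hmap : Tendsto (fun z : ℂ => z - τ * I) (𝓝[≠] s) (𝓝[≠] ((s.re : ℝ) : ℂ)) := by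
    refine tendsto_nhdsWithin_iff.2 ⟨?_, ?_⟩
    · have h1 : Continuous fun z : ℂ => z - τ * I := by fun_prop
      have h2 := (h1.tendsto s).mono_left (nhdsWithin_le_nhds (s := {s}ᶜ))
      have h3 : s - τ * I = ((s.re : ℝ) : ℂ) := by
        rw [sub_eq_iff_eq_add]
        exact hre.symm
      rwa [h3] at h2
    · filter_upwards [self_mem_nhdsWithin] with z hz
      intro h
      apply hz
      have h4 : z - τ * I = ((s.re : ℝ) : ℂ) := h
      rw [mem_singleton_iff, ← hre, ← h4]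
      ring
  have hne : ∀ᶠ z in 𝓝[≠] s, G₁ z ≠ 0 ∧ G₂ z ≠ 0 := by
    filter_upwards [hmap.eventually hev] with z hz
    unfold L2 at hz
    rw [sub_add_cancel] at hz
    exact ⟨left_ne_zero_of_mul hz.1, left_ne_zero_of_mul hz.2⟩
  have hU : IsOpen {s : ℂ | -η < s.re} := isOpen_lt continuous_const continuous_re
  have a1 : AnalyticAt ℂ G₁ s := DifferentiableOn.analyticOnNhd
    (fun z hz => (Q.hG₁ z hz).differentiableWithinAt) hU s hs
  have a2 : AnalyticAt ℂ G₂ s := DifferentiableOn.analyticOnNhd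
    (fun z hz => (Q.hG₂ z hz).differentiableWithinAt) hU s hs
  have hm : MeromorphicAt (fun s => G₁ s / G₂ s) s := a1.meromorphicAt.div a2.meromorphicAt
  have h1 : meromorphicOrderAt (fun s => G₁ s / G₂ s) s ≠ ⊤ := by
    intro h
    rw [meromorphicOrderAt_eq_top_iff] at h
    have h2 : ∀ᶠ z in 𝓝[≠] s, False := by
      filter_upwards [h, hne] with z h3 h4
      exact div_ne_zero h4.1 h4.2 h3
    rw [eventually_false_iff_eq_bot] at h2
    exact (NeBot.ne inferInstance) h2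
  obtain ⟨p, hp⟩ := WithTop.ne_top_iff_exists.1 h1
  obtain ⟨g, hg, hg0, hge⟩ := (meromorphicOrderAt_eq_int_iff hm).1 hp.symm
  refine ⟨p, g, hp.symm, hg, hg0, ?_⟩
  filter_upwards [hge] with z hz
  rw [hz, smul_eq_mul]

/-- the order of the doubled quotient -/
theorem ord_dbl (Q : Qi lam a δ σ G₁ G₂ κ η C b) (τ : ℝ) {s₀ : ℂ} (hs : -η < s₀.re) :
    meromorphicOrderAt (fun s => L2 G₁ τ s / L2 G₂ τ s) s₀ = 0 ↔
      meromorphicOrderAt (fun s => G₁ s / G₂ s) (s₀ + τ * I) +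
        meromorphicOrderAt (fun s => G₁ s / G₂ s) (conj s₀ + τ * I) = 0 := by
  obtain ⟨p₁, g₁, hp₁, hg₁, hg₁0, e₁⟩ := Q.local_quot (s := s₀ + τ * I) (by rw [Pc.re_lt]; exact hs)
  obtain ⟨p₂, g₂, hp₂, hg₂, hg₂0, e₂⟩ := Q.local_quot (s := conj s₀ + τ * I) (by
    rw [Pc.re_lt, Complex.conj_re]
    exact hs)
  obtain ⟨f1, f2⟩ := dbl_form τ hg₁.continuousAt hg₂.continuousAt e₁ e₂
  have hc : 0 < ‖g₁ (s₀ + τ * I)‖ * ‖g₂ (conj s₀ + τ * I)‖ :=
    mul_pos (norm_pos_iff.2 hg₁0) (norm_pos_iff.2 hg₂0)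
  rw [ord_zero_iff ((Q.qd τ).mero hs), hp₁, hp₂]
  have e3 : ((p₁ : WithTop ℤ) + (p₂ : WithTop ℤ) = 0) ↔ p₁ + p₂ = 0 := by
    rw [← WithTop.coe_add, ← WithTop.coe_zero, WithTop.coe_inj]
  rw [e3]
  constructor
  · rintro ⟨c, hc0, h⟩
    have h1 := (lim_iff (k := 0) hc hc0 f1 f2).1 (by simpa using h)
    exact h1.1
  · intro h
    refine ⟨_, hc, ?_⟩
    have h1 := (lim_iff (k := 0) hc hc f1 f2).2 ⟨h, rfl⟩
    simpa using h1

/-- **The criterion at one point of the line** -/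
theorem point (Q : Qi lam a δ σ G₁ G₂ κ η C b) (τ ρ : ℝ) {A : ℝ} (hA : 0 < A) :
    ((∀ s : ℂ, 0 < s.re → meromorphicOrderAt (fun s => G₁ s / G₂ s) (s + τ * I) +
        meromorphicOrderAt (fun s => G₁ s / G₂ s) (conj s + τ * I) = 0) ∧
      ∃ k : ℤ, ρ = k ∧ Tendsto (fun s => ‖G₁ (s + τ * I) / G₂ (s + τ * I)‖ / ‖s‖ ^ k)
        (𝓝[≠] (0 : ℂ)) (𝓝 A)) ↔ Mi lam a τ ρ (Real.log A) < ⊤ := by
  have hη := Q.hη
  have h00 : -η < (0 : ℂ).re := by simpa using hη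
  obtain ⟨p, g, hp, hg, hg0, e⟩ := Q.local_quot (s := (0 : ℂ) + τ * I) (by rw [Pc.re_lt]; exact h00)
  have hg' : AnalyticAt ℂ g (conj (0 : ℂ) + τ * I) := by rwa [map_zero]
  have e' : ∀ᶠ z in 𝓝[≠] (conj (0 : ℂ) + τ * I), G₁ z / G₂ z = (z - (conj (0 : ℂ) + τ * I)) ^ p * g z := by
    rw [map_zero]
    exact e
  obtain ⟨f1, f2⟩ := dbl_form τ hg.continuousAt hg'.continuousAt e e'
  rw [map_zero] at f2
  have hn : 0 < ‖g (0 + τ * I)‖ := norm_pos_iff.2 hg0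
  have hc : 0 < ‖g (0 + τ * I)‖ * ‖g (0 + τ * I)‖ := mul_pos hn hn
  -- the single form
  have m1 : Tendsto (fun s : ℂ => s + τ * I) (𝓝[≠] 0) (𝓝[≠] ((0 : ℂ) + τ * I)) := by
    refine tendsto_nhdsWithin_iff.2 ⟨?_, ?_⟩
    · have h1 : Continuous fun s : ℂ => s + τ * I := by fun_prop
      exact (h1.tendsto 0).mono_left nhdsWithin_le_nhds
    · filter_upwards [self_mem_nhdsWithin] with z hz
      intro h
      exact hz (add_right_cancel (show z + τ * I = 0 + τ * I from h))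
  have s1 : ∀ᶠ s in 𝓝[≠] (0 : ℂ), ‖G₁ (s + τ * I) / G₂ (s + τ * I)‖ =
      ‖s - 0‖ ^ p * ‖g (s + τ * I)‖ := by
    filter_upwards [m1.eventually e] with s hs
    rw [hs, norm_mul, norm_zpow]
    congr 2
    ring_nf
  have s2 : Tendsto (fun s => ‖g (s + τ * I)‖) (𝓝[≠] (0 : ℂ)) (𝓝 ‖g (0 + τ * I)‖) :=
    ((hg.continuousAt.tendsto.mono_left nhdsWithin_le_nhds).comp m1).norm
  have hcrit := (Q.qd τ).crit (2 * ρ) (A := A ^ 2) (by positivity)
  have hlog : Real.log (A ^ 2) = 2 * Real.log A := by rw [Real.log_pow]; norm_num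
  rw [hlog, Q.mi_dbl] at hcrit
  rw [← mul_four_lt (x := Mi lam a τ ρ (Real.log A)), ← hcrit.1]
  refine and_congr ?_ ?_
  · refine forall_congr' fun s => ?_
    constructor
    · intro h hs
      exact (Q.ord_dbl τ (by linarith)).2 (h hs)
    · intro h hs
      exact (Q.ord_dbl τ (by linarith)).1 (h hs)
  · constructor
    · rintro ⟨k, hk, h⟩
      have h1 := (lim_iff (x := 0) (k := k) hn hA s1 s2).1 (by simpa using h)
      refine ⟨k + k, by rw [hk]; push_cast; ring, ?_⟩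
      have h2 := (lim_iff (x := 0) (k := k + k) (A := A ^ 2) hc (by positivity) f1 f2).2
        ⟨by rw [h1.1], by rw [h1.2]; ring⟩
      simpa using h2
    · rintro ⟨k, hk, h⟩
      have h1 := (lim_iff (x := 0) (k := k) (A := A ^ 2) hc (by positivity) f1 f2).1 (by simpa using h)
      have h3 : ‖g (0 + τ * I)‖ = A := by
        have h4 := h1.2
        nlinarith
      refine ⟨p, ?_, ?_⟩
      · have h4 : (k : ℝ) = p + p := by
          rw [← h1.1]
          push_cast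
          ring
        rw [h4] at hk
        linarith
      · have h2 := (lim_iff (x := 0) (k := p) hn hA s1 s2).2 ⟨rfl, h3⟩
        simpa using h2

/-- **The criterion for the whole line** -/
theorem all (Q : Qi lam a δ σ G₁ G₂ κ η C b) (ρ A : ℝ → ℝ) (hA : ∀ t, 0 < A t) :
    ((∀ s : ℂ, 0 < s.re → meromorphicOrderAt (fun s => G₁ s / G₂ s) s = 0) ∧
      ∀ t : ℝ, ∃ k : ℤ, ρ t = k ∧ Tendsto (fun s => ‖G₁ (s + t * I) / G₂ (s + t * I)‖ / ‖s‖ ^ k)
        (𝓝[≠] (0 : ℂ)) (𝓝 (A t))) ↔ ∀ t : ℝ, Mi lam a t (ρ t) (Real.log (A t)) < ⊤ := by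
  constructor
  · rintro ⟨h1, h2⟩ t
    refine (Q.point t (ρ t) (hA t)).1 ⟨fun s hs => ?_, h2 t⟩
    rw [h1 _ (by rw [Pc.re_lt]; exact hs), h1 _ (by rw [Pc.re_lt, Complex.conj_re]; exact hs), add_zero]
  · intro h
    refine ⟨fun s hs => ?_, fun t => ((Q.point t (ρ t) (hA t)).2 (h t)).2⟩
    have h1 := ((Q.point s.im (ρ s.im) (hA _)).2 (h s.im)).1 (s.re : ℂ) (by simpa using hs)
    rw [Complex.conj_ofReal, Complex.re_add_im] at h1
    have hη := Q.hη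
    obtain ⟨p, g, hp, -⟩ := Q.local_quot (s := s) (by linarith)
    rw [hp] at h1 ⊢
    have e3 : ((p : WithTop ℤ) + (p : WithTop ℤ) = 0) ↔ p + p = 0 := by
      rw [← WithTop.coe_add, ← WithTop.coe_zero, WithTop.coe_inj]
    rw [e3] at h1
    have h2 : p = 0 := by omega
    rw [h2]
    rfl

/-- **The formula on the line** -/
theorem formula (Q : Qi lam a δ σ G₁ G₂ κ η C b) (τ ρ : ℝ) {A : ℝ} (hA : 0 < A)
    (h : Mi lam a τ ρ (Real.log A) < ⊤) :
    Mi lam a τ ρ (Real.log A) = ENNReal.ofReal Real.pi⁻¹ * ∫⁻ t : ℝ, ENNReal.ofReal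
      (((Real.log ‖G₁ ((τ + t) * I) / G₂ ((τ + t) * I)‖ +
        Real.log ‖G₁ ((τ - t) * I) / G₂ ((τ - t) * I)‖) / 2 - ρ * Real.log |t| - Real.log A) ^ 2 /
          t ^ 2) := by
  have hcrit := (Q.qd τ).crit (2 * ρ) (A := A ^ 2) (by positivity)
  have hlog : Real.log (A ^ 2) = 2 * Real.log A := by rw [Real.log_pow]; norm_num
  rw [hlog, Q.mi_dbl] at hcrit
  have h1 := hcrit.2 (mul_four_lt.2 h)
  have hae : ∀ᵐ t : ℝ, (G₁ ((τ + t) * I) ≠ 0 ∧ G₂ ((τ + t) * I) ≠ 0) ∧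
      (G₁ ((τ - t) * I) ≠ 0 ∧ G₂ ((τ - t) * I) ≠ 0) := by
    have hη := Q.hη
    have Q' := Q.qd τ
    set z₀ : ℂ := ((max b 0 + 1 : ℝ) : ℂ) with hz₀
    have h0 : (0 : ℝ) < z₀.re := by
      rw [hz₀, ofReal_re]
      linarith [le_max_right b 0]
    -- points where the doubled functions do not vanish
    have hz1 : -η < z₀.re := by linarith
    obtain ⟨w, hw1, hw2, hw3⟩ : ∃ w : ℂ, -η < w.re ∧ L2 G₁ τ w ≠ 0 ∧ L2 G₂ τ w ≠ 0 := by
      have h3 : ∀ᶠ w in 𝓝[≠] z₀, -η < w.re :=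
        nhdsWithin_le_nhds ((isOpen_lt continuous_const continuous_re).mem_nhds hz1)
      obtain ⟨w, ⟨h4, h5⟩, h6⟩ := (((Q'.ev_ne₁ hz1).and (Q'.ev_ne₂ hz1)).and h3).exists
      exact ⟨w, h6, h4, h5⟩
    have a1 := ae_ne hη (fun s hs => l2_diff Q.hG₁ τ hs) hw1 hw2
    have a2 := ae_ne hη (fun s hs => l2_diff Q.hG₂ τ hs) hw1 hw3
    filter_upwards [a1, a2] with t b1 b2
    unfold L2 at b1 b2
    have e1 : (t : ℂ) * I + τ * I = (τ + t) * I := by ring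
    have e2 : conj ((t : ℂ) * I) + τ * I = (τ - t) * I := by
      rw [map_mul, Complex.conj_ofReal, Complex.conj_I]
      ring
    rw [e1, e2] at b1 b2
    exact ⟨⟨left_ne_zero_of_mul b1, left_ne_zero_of_mul b2⟩,
      ⟨fun h => right_ne_zero_of_mul b1 (by rw [h, map_zero]),
        fun h => right_ne_zero_of_mul b2 (by rw [h, map_zero])⟩⟩
  have h2 : ∫⁻ t : ℝ, ENNReal.ofReal
      ((Real.log ‖L2 G₁ τ (t * I) / L2 G₂ τ (t * I)‖ - 2 * ρ * Real.log |t| - 2 * Real.log A) ^ 2 /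
        t ^ 2) = 4 * ∫⁻ t : ℝ, ENNReal.ofReal
      (((Real.log ‖G₁ ((τ + t) * I) / G₂ ((τ + t) * I)‖ +
        Real.log ‖G₁ ((τ - t) * I) / G₂ ((τ - t) * I)‖) / 2 - ρ * Real.log |t| - Real.log A) ^ 2 /
          t ^ 2) := by
    rw [← lintegral_const_mul' _ _ (by norm_num)]
    refine lintegral_congr_ae ?_
    filter_upwards [hae] with t ht
    have e1 : (t : ℂ) * I + τ * I = (τ + t) * I := by ring
    have e2 : conj ((t : ℂ) * I) + τ * I = (τ - t) * I := by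
      rw [map_mul, Complex.conj_ofReal, Complex.conj_I]
      ring
    have e3 : Real.log ‖L2 G₁ τ (t * I) / L2 G₂ τ (t * I)‖ =
        Real.log ‖G₁ ((τ + t) * I) / G₂ ((τ + t) * I)‖ +
          Real.log ‖G₁ ((τ - t) * I) / G₂ ((τ - t) * I)‖ := by
      unfold L2
      rw [e1, e2, norm_div, norm_mul, norm_mul, Complex.norm_conj, Complex.norm_conj,
        ← div_mul_div_comm, ← norm_div, ← norm_div, Real.log_mul
        (norm_ne_zero_iff.2 (div_ne_zero ht.1.1 ht.1.2))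
        (norm_ne_zero_iff.2 (div_ne_zero ht.2.1 ht.2.2))]
    rw [e3, show (4 : ℝ≥0∞) = ENNReal.ofReal 4 by norm_num, ← ENNReal.ofReal_mul (by norm_num)]
    congr 1
    ring
  rw [h2] at h1
  have h5 : (4 : ℝ≥0∞) ≠ 0 := by norm_num
  have h6 : (4 : ℝ≥0∞) ≠ ⊤ := by norm_num
  have h7 : ∀ a x y : ℝ≥0∞, 4 * x = a * (4 * y) → x = a * y := by
    intro a x y h
    have h8 : 4 * x = 4 * (a * y) := by rw [h]; ring
    exact (ENNReal.mul_right_inj h5 h6).1 h8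
  exact h7 _ _ _ h1

/-- the order and the leading coefficient at a point of the line -/
theorem exists_order (Q : Qi lam a δ σ G₁ G₂ κ η C b) (τ : ℝ) : ∃ (k : ℤ) (A : ℝ), 0 < A ∧
    meromorphicOrderAt (fun s => G₁ s / G₂ s) (τ * I) = k ∧
    Tendsto (fun s => ‖G₁ (s + τ * I) / G₂ (s + τ * I)‖ / ‖s‖ ^ k) (𝓝[≠] (0 : ℂ)) (𝓝 A) := by
  have h00 : -η < ((0 : ℂ) + τ * I).re := by rw [Pc.re_lt]; simpa using Q.hη
  obtain ⟨p, g, hp, hg, hg0, e⟩ := Q.local_quot h00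
  have hn : 0 < ‖g (0 + τ * I)‖ := norm_pos_iff.2 hg0
  have m1 : Tendsto (fun s : ℂ => s + τ * I) (𝓝[≠] 0) (𝓝[≠] ((0 : ℂ) + τ * I)) := by
    refine tendsto_nhdsWithin_iff.2 ⟨?_, ?_⟩
    · have h1 : Continuous fun s : ℂ => s + τ * I := by fun_prop
      exact (h1.tendsto 0).mono_left nhdsWithin_le_nhds
    · filter_upwards [self_mem_nhdsWithin] with z hz
      intro h
      exact hz (add_right_cancel (show z + τ * I = 0 + τ * I from h))
  have s1 : ∀ᶠ s in 𝓝[≠] (0 : ℂ), ‖G₁ (s + τ * I) / G₂ (s + τ * I)‖ =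
      ‖s - 0‖ ^ p * ‖g (s + τ * I)‖ := by
    filter_upwards [m1.eventually e] with s hs
    rw [hs, norm_mul, norm_zpow]
    congr 2
    ring_nf
  have s2 : Tendsto (fun s => ‖g (s + τ * I)‖) (𝓝[≠] (0 : ℂ)) (𝓝 ‖g (0 + τ * I)‖) :=
    ((hg.continuousAt.tendsto.mono_left nhdsWithin_le_nhds).comp m1).norm
  refine ⟨p, ‖g (0 + τ * I)‖, hn, ?_, ?_⟩
  · rw [zero_add] at hp
    exact hp
  · have h2 := (lim_iff (x := 0) (k := p) hn hn s1 s2).2 ⟨rfl, rfl⟩
    simpa using h2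

/-- the order from the limit -/
theorem order_of (Q : Qi lam a δ σ G₁ G₂ κ η C b) {τ : ℝ} {k : ℤ} {A : ℝ} (hA : 0 < A)
    (h : Tendsto (fun s => ‖G₁ (s + τ * I) / G₂ (s + τ * I)‖ / ‖s‖ ^ k) (𝓝[≠] (0 : ℂ)) (𝓝 A)) :
    meromorphicOrderAt (fun s => G₁ s / G₂ s) (τ * I) = k := by
  obtain ⟨k', A', hA', h1, h2⟩ := Q.exists_order τ
  have h3 := (lim_iff (F := fun s => ‖G₁ (s + τ * I) / G₂ (s + τ * I)‖)
    (G := fun s => ‖G₁ (s + τ * I) / G₂ (s + τ * I)‖ / ‖s‖ ^ k') (x := 0) (p := k') (k := k) hA' hA (by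
      filter_upwards [self_mem_nhdsWithin] with s hs
      have hs0 : ‖s‖ ≠ 0 := norm_ne_zero_iff.2 hs
      rw [sub_zero]
      field_simp) h2).1 (by simpa using h)
  rw [h1, h3.1]

end Qi

end Pool.Agent.V11288.QU
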