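import Pool.Agent.V11288.QU.Ind
import Pool.Agent.V11288.QU.App

/-!
# Quotients: Dirichlet series with complex coefficients, on any vertical line
-/

set_option autoImplicit false

open MeasureTheory Filter Topology Set Complex
open scoped ENNReal ComplexConjugate
open Pool.Agent.TH942.SL
open Pool.Agent.TH942.ES
open Pool.Agent.TH270.MS
open Pool.Agent.V11288.HS

namespace Pool.Agent.V11288.QU

variable {ι : Type} {lam : ι → ℝ}

namespace Qi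

variable {a : ι → ℂ} {δ σ : ℝ} {G₁ G₂ : ℂ → ℂ} {κ : ℕ} {η C b : ℝ}

/-- real coefficients -/
theorem real (Q : Qi lam a δ σ G₁ G₂ κ η C b) (hr : ∀ i, (a i).im = 0) :
    Qd (lamN Q.enc lam δ) (cN Q.enc (fun i => (a i).re)) δ σ G₁ G₂ κ η C b where
  D := by
    refine dat_N Q.enc_inj lam _ δ Q.δ0 Q.σ0 Q.lam_ge ?_
    refine Summable.of_nonneg_of_le (fun i => by positivity) (fun i => ?_) Q.sum
    exact mul_le_mul_of_nonneg_right (Complex.abs_re_le_norm _) (by positivity)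
  hη := Q.hη
  hG₁ := Q.hG₁
  hG₂ := Q.hG₂
  hgrow₁ := Q.hgrow₁
  hgrow₂ := Q.hgrow₂
  hexp := by
    intro s hs
    rw [dd_N Q.enc_inj, ← Q.hexp s hs]
    congr 3
    funext i
    congr 1
    exact Complex.ext (by simp) (by simp [hr i])
  hlow := Q.hlow

theorem mi_real (Q : Qi lam a δ σ G₁ G₂ κ η C b) (r q : ℝ) :
    ∫⁻ u : ℝ, ENNReal.ofReal (Df (lamN Q.enc lam δ) (cN Q.enc (fun i => (a i).re)) r q u ^ 2) =
      Mi lam a 0 r q := by
  unfold Mi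
  rw [← lintegral_indicator measurableSet_Ioi]
  refine lintegral_congr fun u => ?_
  rcases lt_or_ge 0 u with hu | hu
  · rw [indicator_of_mem (show u ∈ Ioi (0 : ℝ) from hu)]
    unfold Df
    rw [indicator_of_mem (show u ∈ Ioi (0 : ℝ) from hu), sh_N Q.enc_inj]
    congr 4
    unfold Si
    refine tsum_congr fun i => ?_
    simp
  · rw [indicator_of_notMem (show u ∉ Ioi (0 : ℝ) from not_lt.2 hu), df_zero _ _ hu]
    simp

/-- **The criterion at the real point** -/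
theorem real_crit (Q : Qi lam a δ σ G₁ G₂ κ η C b) (hr : ∀ i, (a i).im = 0) (r : ℝ) {A : ℝ} (hA : 0 < A) :
    ((∀ s : ℂ, 0 < s.re → meromorphicOrderAt (fun s => G₁ s / G₂ s) s = 0) ∧ ∃ k : ℤ, r = k ∧
      Tendsto (fun s => ‖G₁ s / G₂ s‖ / ‖s‖ ^ k) (𝓝[≠] (0 : ℂ)) (𝓝 A)) ↔
      Mi lam a 0 r (Real.log A) < ⊤ := by
  rw [← Q.mi_real]
  exact ((Q.real hr).crit r hA).1

end Qi

/-- a Dirichlet series which converges absolutely somewhere -/
structure Ser (lam : ι → ℝ) (c : ι → ℂ) : Prop where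
  cnt : Countable ι
  low : ∃ δ : ℝ, 0 < δ ∧ ∀ i, δ ≤ lam i
  sum : ∃ σ₁ : ℝ, Summable fun i => ‖c i‖ * Real.exp (-(σ₁ * lam i))

/-- The exponential of the series is, far to the right, the quotient of two functions which are holomorphic
and of polynomial growth on a half plane containing the line `Re s = σ` -/
def IsQ (lam : ι → ℝ) (c : ι → ℂ) (σ : ℝ) (G₁ G₂ : ℂ → ℂ) : Prop :=
  (∃ (η C : ℝ) (κ : ℕ), 0 < η ∧ ∀ s : ℂ, σ - η < s.re →
    DifferentiableAt ℂ G₁ s ∧ DifferentiableAt ℂ G₂ s ∧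
      ‖G₁ s‖ ≤ C * (1 + ‖s‖) ^ κ ∧ ‖G₂ s‖ ≤ C * (1 + ‖s‖) ^ κ) ∧
  ∃ (b C : ℝ) (κ : ℕ), ∀ s : ℂ, b < s.re →
    exp (∑' i, c i * exp (-(s * lam i))) = G₁ s / G₂ s ∧ 1 ≤ C * (1 + ‖s‖) ^ κ * ‖G₂ s‖

/-- `log |P(σ + it; Y)|` -/
noncomputable def lA (lam : ι → ℝ) (c : ι → ℂ) (σ t Y : ℝ) : ℝ :=
  ∑' i, if lam i ≤ Real.log Y then (c i * exp (-((σ + t * I) * lam i))).re else 0

/-- The mean square deviation -/
noncomputable def mS (lam : ι → ℝ) (c : ι → ℂ) (σ t r A : ℝ) : ℝ≥0∞ :=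
  ∫⁻ Y in Ioi (1 : ℝ), ENNReal.ofReal
    ((lA lam c σ t Y + r * (Real.eulerMascheroniConstant + Real.log (Real.log Y)) - Real.log A) ^ 2 / Y)

/-- the coefficients at the line -/
noncomputable def sh (lam : ι → ℝ) (c : ι → ℂ) (σ : ℝ) (i : ι) : ℂ := c i * exp (-(σ * lam i))

theorem sh_norm (c : ι → ℂ) (σ : ℝ) (i : ι) : ‖sh lam c σ i‖ = ‖c i‖ * Real.exp (-(σ * lam i)) := by
  unfold sh
  rw [term_norm, Complex.ofReal_re]

theorem mS_eq (c : ι → ℂ) (σ t r A : ℝ) : mS lam c σ t r A = Mi lam (sh lam c σ) t r (Real.log A) := by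
  unfold mS Mi
  rw [← cov_lin (fun u => (Si lam (sh lam c σ) t u + r * HS.gl u - Real.log A) ^ 2)]
  refine setLIntegral_congr_fun measurableSet_Ioi fun Y hY => ?_
  have e : lA lam c σ t Y = Si lam (sh lam c σ) t (Real.log Y) := by
    unfold lA Si sh
    refine tsum_congr fun i => ?_
    rw [mul_assoc, ← Complex.exp_add]
    congr 4
    push_cast
    ring
  simp only [e]
  rfl

namespace Li

variable {c : ι → ℂ} {σ : ℝ} {G₁ G₂ : ℂ → ℂ}

/-- the data of the library -/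
theorem qi (h : Ser lam c) (hQ : IsQ lam c σ G₁ G₂) : ∃ (δ σ' : ℝ) (κ : ℕ) (η C b : ℝ),
    Qi lam (sh lam c σ) δ σ' (fun s => G₁ (s + σ)) (fun s => G₂ (s + σ)) κ η C b := by
  obtain ⟨δ, hδ, hlam⟩ := h.low
  obtain ⟨σ₁, hs⟩ := h.sum
  obtain ⟨⟨η, C₁, κ₁, hη, h1⟩, b, C₂, κ₂, h2⟩ := hQ
  have hre : ∀ s : ℂ, (s + (σ : ℂ)).re = s.re + σ := fun s => by
    rw [Complex.add_re, Complex.ofReal_re]
  have hup : ∀ (C : ℝ) (κ : ℕ) (s : ℂ), C * (1 + ‖s + (σ : ℂ)‖) ^ κ ≤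
      |C| * (1 + |σ|) ^ κ * (1 + ‖s‖) ^ κ := by
    intro C κ s
    have h5 := App.one_add_shift σ s
    calc C * (1 + ‖s + (σ : ℂ)‖) ^ κ ≤ |C| * ((1 + |σ|) * (1 + ‖s‖)) ^ κ := by
          gcongr
          exact le_abs_self C
      _ = _ := by rw [mul_pow]; ring
  set C : ℝ := |C₁| * (1 + |σ|) ^ κ₁ + |C₂| * (1 + |σ|) ^ κ₂ with hC
  have hk1 : ∀ s : ℂ, |C₁| * (1 + |σ|) ^ κ₁ * (1 + ‖s‖) ^ κ₁ ≤ C * (1 + ‖s‖) ^ (κ₁ + κ₂) := by
    intro s
    have h3 : 1 ≤ 1 + ‖s‖ := by linarith [norm_nonneg s]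
    have h4 : (1 + ‖s‖) ^ κ₁ ≤ (1 + ‖s‖) ^ (κ₁ + κ₂) := pow_le_pow_right₀ h3 (Nat.le_add_right _ _)
    have h5 : |C₁| * (1 + |σ|) ^ κ₁ ≤ C := by
      rw [hC]
      have : 0 ≤ |C₂| * (1 + |σ|) ^ κ₂ := by positivity
      linarith
    gcongr
  have hk2 : ∀ s : ℂ, |C₂| * (1 + |σ|) ^ κ₂ * (1 + ‖s‖) ^ κ₂ ≤ C * (1 + ‖s‖) ^ (κ₁ + κ₂) := by
    intro s
    have h3 : 1 ≤ 1 + ‖s‖ := by linarith [norm_nonneg s]
    have h4 : (1 + ‖s‖) ^ κ₂ ≤ (1 + ‖s‖) ^ (κ₁ + κ₂) := pow_le_pow_right₀ h3 (Nat.le_add_left _ _)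
    have h5 : |C₂| * (1 + |σ|) ^ κ₂ ≤ C := by
      rw [hC]
      have : 0 ≤ |C₁| * (1 + |σ|) ^ κ₁ := by positivity
      linarith
    gcongr
  refine ⟨δ, |σ₁ - σ| + 1, κ₁ + κ₂, η, C, b - σ, ⟨h.cnt, hδ, by positivity, hlam, ?_, hη, ?_, ?_, ?_, ?_,
    ?_, ?_⟩⟩
  · refine Summable.of_nonneg_of_le (fun i => by positivity) (fun i => ?_) hs
    have h0 : 0 ≤ lam i := hδ.le.trans (hlam i)
    rw [sh_norm, mul_assoc, ← Real.exp_add]
    have h3 : -(σ * lam i) + -((|σ₁ - σ| + 1) * lam i) ≤ -(σ₁ * lam i) := by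
      have h4 := le_abs_self (σ₁ - σ)
      have h5 : σ₁ * lam i ≤ (σ + (|σ₁ - σ| + 1)) * lam i :=
        mul_le_mul_of_nonneg_right (by linarith) h0
      linarith
    gcongr
  · intro s hs
    exact DifferentiableAt.comp (g := G₁) (f := fun s : ℂ => s + σ) s
      (h1 _ (by rw [hre]; linarith)).1 (by fun_prop)
  · intro s hs
    exact DifferentiableAt.comp (g := G₂) (f := fun s : ℂ => s + σ) s
      (h1 _ (by rw [hre]; linarith)).2.1 (by fun_prop)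
  · intro s hs
    exact ((h1 _ (by rw [hre]; linarith)).2.2.1.trans (hup _ _ _)).trans (hk1 s)
  · intro s hs
    exact ((h1 _ (by rw [hre]; linarith)).2.2.2.trans (hup _ _ _)).trans (hk1 s)
  · intro s hs
    obtain ⟨h3, h4⟩ := h2 (s + σ) (by rw [hre]; linarith)
    have h6 : G₂ (s + σ) ≠ 0 := by
      intro h7
      rw [h7, norm_zero, mul_zero] at h4
      linarith
    have h5 : ∑' i, sh lam c σ i * exp (-(s * lam i)) = ∑' i, c i * exp (-((s + σ) * lam i)) := by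
      refine tsum_congr fun i => ?_
      unfold sh
      rw [mul_assoc, ← Complex.exp_add]
      congr 2
      ring
    rw [h5, h3]
    field_simp
  · intro s hs
    refine (h2 (s + σ) (by rw [hre]; linarith)).2.trans ?_
    exact mul_le_mul_of_nonneg_right ((hup _ _ _).trans (hk2 s)) (norm_nonneg _)

/-- **The criterion for the whole line** -/
theorem all (h : Ser lam c) (hQ : IsQ lam c σ G₁ G₂) (r A : ℝ → ℝ) (hA : ∀ t, 0 < A t) :
    ((∀ s : ℂ, σ < s.re → meromorphicOrderAt (fun s => G₁ s / G₂ s) s = 0) ∧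
      ∀ t : ℝ, ∃ k : ℤ, r t = k ∧ Tendsto (fun s : ℂ => ‖G₁ s / G₂ s‖ / ‖s - (σ + t * Complex.I)‖ ^ k)
        (𝓝[≠] ((σ : ℂ) + t * Complex.I)) (𝓝 (A t))) ↔ ∀ t : ℝ, mS lam c σ t (r t) (A t) < ⊤ := by
  obtain ⟨δ, σ', κ, η, C, b, Q⟩ := qi h hQ
  rw [App.noZeros_iff]
  simp only [mS_eq]
  rw [← Q.all r A hA]
  refine and_congr Iff.rfl (forall_congr' fun t => exists_congr fun k => and_congr Iff.rfl ?_)
  exact App.lim_shift σ t (fun s => G₁ s / G₂ s) k _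

/-- **The formula at one point of the line** -/
theorem formula (h : Ser lam c) (hQ : IsQ lam c σ G₁ G₂) (t r : ℝ) {A : ℝ} (hA : 0 < A)
    (hf : mS lam c σ t r A < ⊤) :
    mS lam c σ t r A = ENNReal.ofReal Real.pi⁻¹ * ∫⁻ u : ℝ, ENNReal.ofReal
      (((Real.log ‖G₁ (σ + (t + u) * Complex.I) / G₂ (σ + (t + u) * Complex.I)‖ +
        Real.log ‖G₁ (σ + (t - u) * Complex.I) / G₂ (σ + (t - u) * Complex.I)‖) / 2 -
          r * Real.log |u| - Real.log A) ^ 2 / u ^ 2) := by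
  obtain ⟨δ, σ', κ, η, C, b, Q⟩ := qi h hQ
  rw [mS_eq] at hf ⊢
  rw [Q.formula t r hA hf]
  simp only [add_comm (_ * Complex.I) (σ : ℂ)]

/-- the order and the leading coefficient -/
theorem exists_order (h : Ser lam c) (hQ : IsQ lam c σ G₁ G₂) (t : ℝ) : ∃ (k : ℤ) (A : ℝ), 0 < A ∧
      meromorphicOrderAt (fun s => G₁ s / G₂ s) ((σ : ℂ) + t * Complex.I) = k ∧
      Tendsto (fun s : ℂ => ‖G₁ s / G₂ s‖ / ‖s - (σ + t * Complex.I)‖ ^ k)
        (𝓝[≠] ((σ : ℂ) + t * Complex.I)) (𝓝 A) := by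
  obtain ⟨δ, σ', κ, η, C, b, Q⟩ := qi h hQ
  obtain ⟨k, A, hA, h1, h2⟩ := Q.exists_order t
  refine ⟨k, A, hA, ?_, (App.lim_shift σ t (fun s => G₁ s / G₂ s) k _).2 h2⟩
  rw [← h1, add_comm]
  exact (App.order_shift (fun s => G₁ s / G₂ s) σ (t * Complex.I)).symm

/-- the order from the limit -/
theorem order_of (h : Ser lam c) (hQ : IsQ lam c σ G₁ G₂) {t : ℝ} {k : ℤ} {A : ℝ} (hA : 0 < A)
    (hl : Tendsto (fun s : ℂ => ‖G₁ s / G₂ s‖ / ‖s - (σ + t * Complex.I)‖ ^ k)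
        (𝓝[≠] ((σ : ℂ) + t * Complex.I)) (𝓝 A)) :
    meromorphicOrderAt (fun s => G₁ s / G₂ s) ((σ : ℂ) + t * Complex.I) = k := by
  obtain ⟨δ, σ', κ, η, C, b, Q⟩ := qi h hQ
  rw [← Q.order_of hA ((App.lim_shift σ t (fun s => G₁ s / G₂ s) k _).1 hl), add_comm]
  exact (App.order_shift (fun s => G₁ s / G₂ s) σ (t * Complex.I)).symm

/-- **Conditions on the orders at the points of the line** -/
theorem closed (h : Ser lam c) (hQ : IsQ lam c σ G₁ G₂) (R : ℝ → ℝ → Prop) :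
    ((∀ s : ℂ, σ < s.re → meromorphicOrderAt (fun s => G₁ s / G₂ s) s = 0) ∧
      ∀ t : ℝ, ∃ k : ℤ, meromorphicOrderAt (fun s => G₁ s / G₂ s) ((σ : ℂ) + t * Complex.I) = k ∧
        R t k) ↔ ∀ t : ℝ, ∃ r A : ℝ, 0 < A ∧ R t r ∧ mS lam c σ t r A < ⊤ := by
  choose k A hA h1 h2 using exists_order h hQ
  constructor
  · rintro ⟨h3, h4⟩ t
    refine ⟨k t, A t, hA t, ?_, ((all h hQ (fun t => (k t : ℝ)) A hA).1
      ⟨h3, fun t => ⟨k t, rfl, h2 t⟩⟩) t⟩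
    obtain ⟨k', h5, h6⟩ := h4 t
    rw [h1 t] at h5
    have h7 : k t = k' := by exact_mod_cast h5
    rw [h7]
    exact h6
  · intro h3
    choose r B hB hR hM using h3
    obtain ⟨h4, h5⟩ := (all h hQ r B hB).2 hM
    refine ⟨h4, fun t => ?_⟩
    obtain ⟨k', h6, h7⟩ := h5 t
    refine ⟨k', order_of h hQ (hB t) h7, ?_⟩
    rw [← h6]
    exact hR t

/-- **Holomorphy on the closed half plane and no zeros in the open half plane** -/
theorem holo (h : Ser lam c) (hQ : IsQ lam c σ G₁ G₂) :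
    ((∀ s : ℂ, σ < s.re → meromorphicOrderAt (fun s => G₁ s / G₂ s) s = 0) ∧
      ∀ s : ℂ, s.re = σ → 0 ≤ meromorphicOrderAt (fun s => G₁ s / G₂ s) s) ↔
      ∀ t : ℝ, ∃ r A : ℝ, 0 < A ∧ 0 ≤ r ∧ mS lam c σ t r A < ⊤ := by
  refine Iff.trans (and_congr Iff.rfl ?_) (closed h hQ (fun _ r => 0 ≤ r))
  constructor
  · intro h' t
    obtain ⟨k, A, -, h2, -⟩ := exists_order h hQ t
    refine ⟨k, h2, ?_⟩
    have h3 := h' (σ + t * Complex.I) (by simp)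
    rw [h2] at h3
    have h4 : (0 : ℤ) ≤ k := by exact_mod_cast h3
    exact_mod_cast h4
  · intro h' s hs
    obtain ⟨k, h2, h3⟩ := h' s.im
    have e : (σ : ℂ) + s.im * Complex.I = s := by
      rw [← hs]
      exact Complex.re_add_im s
    rw [e] at h2
    rw [h2]
    have h4 : (0 : ℤ) ≤ k := by exact_mod_cast h3
    exact_mod_cast h4

theorem sh_real (hr : ∀ i, (c i).im = 0) (σ : ℝ) (i : ι) : (sh lam c σ i).im = 0 := by
  unfold sh
  have h1 : exp (-((σ : ℂ) * (lam i : ℂ))) = ((Real.exp (-(σ * lam i)) : ℝ) : ℂ) := by push_cast; rfl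
  rw [h1, Complex.im_mul_ofReal, hr i, zero_mul]

/-- **The criterion at the real point**, real coefficients -/
theorem real_point (h : Ser lam c) (hr : ∀ i, (c i).im = 0) (hQ : IsQ lam c σ G₁ G₂) (r : ℝ) {A : ℝ}
    (hA : 0 < A) :
    ((∀ s : ℂ, σ < s.re → meromorphicOrderAt (fun s => G₁ s / G₂ s) s = 0) ∧
      ∃ k : ℤ, r = k ∧ Tendsto (fun s : ℂ => ‖G₁ s / G₂ s‖ / ‖s - σ‖ ^ k) (𝓝[≠] (σ : ℂ)) (𝓝 A)) ↔
      mS lam c σ 0 r A < ⊤ := by
  obtain ⟨δ, σ', κ, η, C, b, Q⟩ := qi h hQ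
  rw [mS_eq, ← Q.real_crit (sh_real hr σ) r hA, App.noZeros_iff]
  refine and_congr Iff.rfl (exists_congr fun k => and_congr Iff.rfl ?_)
  have h1 := App.lim_shift σ 0 (fun s => G₁ s / G₂ s) k (𝓝 A)
  simp only [Complex.ofReal_zero, zero_mul, add_zero] at h1
  exact h1

/-- **Zeros and poles in the half plane and the real point**, real coefficients -/
theorem real_iff (h : Ser lam c) (hr : ∀ i, (c i).im = 0) (hQ : IsQ lam c σ G₁ G₂) :
    (∀ s : ℂ, σ < s.re → meromorphicOrderAt (fun s => G₁ s / G₂ s) s = 0) ↔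
      ∃ r A : ℝ, 0 < A ∧ mS lam c σ 0 r A < ⊤ := by
  constructor
  · intro h1
    obtain ⟨k, A, hA, -, h2⟩ := exists_order h hQ 0
    simp only [Complex.ofReal_zero, zero_mul, add_zero] at h2
    exact ⟨k, A, hA, (real_point h hr hQ k hA).1 ⟨h1, k, rfl, h2⟩⟩
  · rintro ⟨r, A, hA, h1⟩
    exact ((real_point h hr hQ r hA).2 h1).1

end Li

end Pool.Agent.V11288.QU
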