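import Pool.Agent.TH270.MS.LocL2
import Pool.Agent.TH942.RZ.Log

/-!
# Logarithms of quotients on discs

`disc1` is an adaptation of `TH270.MS.LocL2.disc`; `cancel_aux` of `TH270.MS.Factor.aux`.
-/

set_option autoImplicit false

open MeasureTheory Filter Topology Set Complex
open scoped ENNReal
open Pool.Agent.TH270.MS
open Pool.Agent.TH270.MS.LocL2

namespace Pool.Agent.V11288.QU

/-- the bound in the disc, for a function without zeros in a part of a disc -/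
lemma disc1 {a r R' R R₁ M m : ℝ} (ha : 1 ≤ a) (hr : a < r) (hrR' : r < R') (hR'R : R' < R)
    (hRR₁ : R < R₁) {f l : ℂ → ℂ} (hf : DifferentiableOn ℂ f (Metric.ball 0 R₁))
    (hM : ∀ s : ℂ, ‖s‖ ≤ R → ‖f s‖ ≤ M)
    (hne : ∀ z : ℂ, ‖z‖ ≤ R' → -a < z.re → f z ≠ 0)
    (hl : ∀ z : ℂ, ‖z‖ < R' → -a < z.re → DifferentiableAt ℂ l z)
    (hexp : ∀ z : ℂ, ‖z‖ < R' → -a < z.re → exp (l z) = f z) (hm : -m ≤ Real.log ‖f 0‖) :
    ∃ (n : ℕ) (γ : Fin n → ℝ), (n : ℝ) * Real.log (R / R') ≤ Real.log M + m ∧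
      (∀ i, |γ i| ≤ R') ∧ ∀ z : ℂ, -a < z.re → ‖z‖ ≤ r → (∀ i, z.im ≠ γ i) →
      ‖l z - l 0‖ ≤ 2 * r / (R' - r) * (Real.log M + m + 1) + n * CC a r R' R +
        ∑ i, |Real.log (z.im - γ i)| := by
  have ha0 : 0 < a := by linarith
  have hr0 : 0 < r := by linarith
  have hR'0 : 0 < R' := by linarith
  have hR0 : 0 < R := by linarith
  have h00 : -a < (0 : ℂ).re := by simpa using ha0
  have hf0' : f 0 ≠ 0 := hne 0 (by simpa using hR'0.le) h00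
  obtain ⟨n, ρ, g, hn, hρ, hg, hg0, hgM, hg00, hfac⟩ := factor hR'0 hR'R hRR₁ hf hM hf0'
  have hMf : ‖f 0‖ ≤ M := hM 0 (by simpa using hR0.le)
  have hfpos : 0 < ‖f 0‖ := norm_pos_iff.2 hf0'
  have hMpos : 0 < M := lt_of_lt_of_le hfpos hMf
  have hlogM : Real.log (M / ‖f 0‖) ≤ Real.log M + m := by
    rw [Real.log_div hMpos.ne' hfpos.ne']
    linarith
  have hρre : ∀ i, (ρ i).re ≤ -a := by
    intro i
    by_contra h
    push Not at h
    exact hne (ρ i) (hρ i).1 h (hρ i).2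
  -- the logarithm of `g`
  have hsub : Metric.ball (0 : ℂ) R' ⊆ Metric.ball 0 R₁ := Metric.ball_subset_ball (by linarith)
  obtain ⟨ℓ, hℓd, hℓ⟩ := LocL2.exists_log hR'0 (hg.mono hsub)
    (fun z hz => hg0 z (mem_ball_zero_iff.1 hz).le)
  have h0b : (0 : ℂ) ∈ Metric.ball (0 : ℂ) R' := Metric.mem_ball_self hR'0
  have hℓb : ∀ z : ℂ, ‖z‖ ≤ r → ‖ℓ z - ℓ 0‖ ≤ 2 * r / (R' - r) * (Real.log M + m + 1) := by
    intro z hz
    have hB : 0 < Real.log M + m + 1 := by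
      have h1 : Real.log ‖f 0‖ ≤ Real.log M := Real.log_le_log hfpos hMf
      linarith
    have hre2 : ∀ w ∈ Metric.ball (0 : ℂ) R', (ℓ w).re = Real.log ‖g w‖ := by
      intro w hw
      rw [← hℓ w hw, norm_exp, Real.log_exp]
    have hz' : z ∈ Metric.ball (0 : ℂ) R' := mem_ball_zero_iff.2 (by linarith)
    have h1 := borelCaratheodory_zero (f := fun z => ℓ z - ℓ 0) (R := R') (z := z) hB
      (fun w hw => ((hℓd w hw).sub_const _).differentiableWithinAt) (by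
        intro w hw
        show (ℓ w - ℓ 0).re ≤ Real.log M + m + 1
        rw [sub_re, hre2 w hw, hre2 0 h0b]
        have h2 : Real.log ‖g w‖ ≤ Real.log M :=
          Real.log_le_log (norm_pos_iff.2 (hg0 w (mem_ball_zero_iff.1 hw).le))
            (hgM w (by linarith [mem_ball_zero_iff.1 hw]))
        have h3 : Real.log ‖f 0‖ ≤ Real.log ‖g 0‖ := Real.log_le_log hfpos hg00
        linarith) hR'0 hz' (by simp)
    refine h1.trans ?_
    have h2 : 0 < R' - ‖z‖ := by linarith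
    rw [div_mul_eq_mul_div, div_le_div_iff₀ h2 (by linarith)]
    have h3 : ‖z‖ * (R' - r) ≤ r * (R' - ‖z‖) := by nlinarith [norm_nonneg z]
    nlinarith [norm_nonneg z]
  -- the logarithms of the factors
  set lam : Fin n → ℂ → ℂ := fun i z =>
    log (z - ρ i) - log ((R : ℂ) ^ 2 - (starRingEnd ℂ) (ρ i) * z) with hlam
  set U : Set ℂ := Metric.ball 0 R' ∩ {z | -a < z.re} with hU
  have hUo : IsOpen U := Metric.isOpen_ball.inter (isOpen_lt continuous_const continuous_re)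
  have hUc : IsPreconnected U :=
    ((convex_ball (0 : ℂ) R').inter (convex_halfSpace_re_gt (-a))).isPreconnected
  have hden : ∀ i, ∀ z : ℂ, ‖z‖ < R' → 0 < ((R : ℂ) ^ 2 - (starRingEnd ℂ) (ρ i) * z).re := by
    intro i z hz
    have h1 : ‖(starRingEnd ℂ) (ρ i) * z‖ ≤ R' * R' := by
      rw [norm_mul, RCLike.norm_conj]
      exact mul_le_mul (hρ i).1 hz.le (norm_nonneg _) hR'0.le
    have h2 := (abs_re_le_norm ((starRingEnd ℂ) (ρ i) * z)).trans h1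
    have h3 : ((R : ℂ) ^ 2).re = R ^ 2 := by
      rw [← ofReal_pow, ofReal_re]
    rw [sub_re, h3]
    have h4 := le_abs_self ((starRingEnd ℂ) (ρ i) * z).re
    nlinarith
  have hnum : ∀ i, ∀ z : ℂ, -a < z.re → 0 < (z - ρ i).re := by
    intro i z hz
    rw [sub_re]
    linarith [hρre i]
  have hlamd : ∀ i, ∀ z ∈ U, DifferentiableAt ℂ (lam i) z := by
    intro i z hz
    have h1 : z - ρ i ∈ slitPlane := Or.inl (hnum i z hz.2)
    have h2 : (R : ℂ) ^ 2 - (starRingEnd ℂ) (ρ i) * z ∈ slitPlane :=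
      Or.inl (hden i z (mem_ball_zero_iff.1 hz.1))
    exact ((differentiableAt_id.sub_const _).clog h1).sub
      (((differentiableAt_const _).sub (differentiableAt_id.const_mul _)).clog h2)
  have hlame : ∀ i, ∀ z ∈ U, exp (lam i z) =
      (z - ρ i) / ((R : ℂ) ^ 2 - (starRingEnd ℂ) (ρ i) * z) := by
    intro i z hz
    have h1 : z - ρ i ≠ 0 := by
      intro h
      have := hnum i z hz.2
      rw [h] at this
      simp at this
    have h2 : (R : ℂ) ^ 2 - (starRingEnd ℂ) (ρ i) * z ≠ 0 := by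
      intro h
      have := hden i z (mem_ball_zero_iff.1 hz.1)
      rw [h] at this
      simp at this
    rw [hlam]
    simp only
    rw [exp_sub, exp_log h1, exp_log h2]
  have hD : ∀ z ∈ U, DifferentiableAt ℂ (fun z => l z - ∑ i, lam i z - ℓ z) z := by
    intro z hz
    have h1 : DifferentiableAt ℂ (fun z => ∑ i, lam i z) z :=
      DifferentiableAt.fun_sum fun i _ => hlamd i z hz
    exact ((hl z (mem_ball_zero_iff.1 hz.1) hz.2).sub h1).sub (hℓd z hz.1)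
  have hc : ∀ z ∈ U, exp (l z - ∑ i, lam i z - ℓ z) = (R : ℂ) ^ n := by
    intro z hz
    have hz1 : ‖z‖ < R' := mem_ball_zero_iff.1 hz.1
    rw [exp_sub, exp_sub, hexp z hz1 hz.2, hℓ z hz.1, hfac z (by linarith), exp_sum]
    simp only [hlame _ z hz]
    have h1 : ∏ i, ((R : ℂ) * (z - ρ i) / ((R : ℂ) ^ 2 - (starRingEnd ℂ) (ρ i) * z)) =
        (R : ℂ) ^ n * ∏ i, ((z - ρ i) / ((R : ℂ) ^ 2 - (starRingEnd ℂ) (ρ i) * z)) := by
      have h2 : (R : ℂ) ^ n = ∏ _i : Fin n, (R : ℂ) := by simp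
      rw [h2, ← Finset.prod_mul_distrib]
      exact Finset.prod_congr rfl fun i _ => by ring
    have h3 : ∏ i, ((z - ρ i) / ((R : ℂ) ^ 2 - (starRingEnd ℂ) (ρ i) * z)) ≠ 0 := by
      refine Finset.prod_ne_zero_iff.2 fun i _ => ?_
      rw [← hlame i z hz]
      exact exp_ne_zero _
    have h4 : g z ≠ 0 := hg0 z hz1.le
    rw [h1]
    generalize ∏ i, ((z - ρ i) / ((R : ℂ) ^ 2 - (starRingEnd ℂ) (ρ i) * z)) = X at h3 ⊢
    field_simp
  have h0U : (0 : ℂ) ∈ U := ⟨h0b, h00⟩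
  refine ⟨n, fun i => (ρ i).im, hn.trans hlogM, fun i => (abs_im_le_norm _).trans (hρ i).1, ?_⟩
  intro z hz hzr hzγ
  have hzU : z ∈ U := ⟨mem_ball_zero_iff.2 (by linarith), hz⟩
  have h1 := const_of_exp hUo hUc hD hc hzU h0U
  have h2 : l z - l 0 = (∑ i, lam i z - ∑ i, lam i 0) + (ℓ z - ℓ 0) := by
    linear_combination h1
  have h3 : ∀ i, ‖lam i z - lam i 0‖ ≤ CC a r R' R + |Real.log (z.im - (ρ i).im)| := by
    intro i
    -- the four logarithms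
    have e1 : ‖log (z - ρ i)‖ ≤
        |Real.log (|z.im - (ρ i).im|)| + |Real.log (2 * R)| + Real.pi := by
      refine norm_log_le (abs_pos.2 (sub_ne_zero.2 (hzγ i))) ?_ ?_
      · rw [← sub_im]
        exact abs_im_le_norm _
      · calc ‖z - ρ i‖ ≤ ‖z‖ + ‖ρ i‖ := norm_sub_le _ _
          _ ≤ 2 * R := by linarith [(hρ i).1]
    have e2 : ‖log (0 - ρ i)‖ ≤ |Real.log a| + |Real.log R'| + Real.pi := by
      refine norm_log_le ha0 ?_ ?_
      · rw [zero_sub, norm_neg]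
        have h5 := abs_re_le_norm (ρ i)
        have h6 := neg_abs_le (ρ i).re
        linarith [hρre i]
      · rw [zero_sub, norm_neg]
        exact (hρ i).1
    have e3 : ∀ w : ℂ, ‖w‖ ≤ r → ‖log ((R : ℂ) ^ 2 - (starRingEnd ℂ) (ρ i) * w)‖ ≤
        |Real.log (R ^ 2 - R' * r)| + |Real.log (R ^ 2 + R' * r)| + Real.pi := by
      intro w hw
      have h5 : ‖(starRingEnd ℂ) (ρ i) * w‖ ≤ R' * r := by
        rw [norm_mul, RCLike.norm_conj]
        exact mul_le_mul (hρ i).1 hw (norm_nonneg _) hR'0.le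
      have h6 : ‖(R : ℂ) ^ 2‖ = R ^ 2 := by
        rw [norm_pow, norm_real, Real.norm_eq_abs, abs_of_pos hR0]
      refine norm_log_le (by nlinarith) ?_ ?_
      · have h7 := norm_sub_norm_le ((R : ℂ) ^ 2) ((starRingEnd ℂ) (ρ i) * w)
        rw [h6] at h7
        linarith
      · refine (norm_sub_le _ _).trans ?_
        rw [h6]
        linarith
    have e4 := e3 z hzr
    have e5 := e3 0 (by simpa using hr0.le)
    have h8 : lam i z - lam i 0 = log (z - ρ i) - log ((R : ℂ) ^ 2 - (starRingEnd ℂ) (ρ i) * z) -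
        (log (0 - ρ i) - log ((R : ℂ) ^ 2 - (starRingEnd ℂ) (ρ i) * 0)) := rfl
    rw [h8]
    refine (norm_sub_le _ _).trans ?_
    have h9 := norm_sub_le (log (z - ρ i)) (log ((R : ℂ) ^ 2 - (starRingEnd ℂ) (ρ i) * z))
    have h10 := norm_sub_le (log (0 - ρ i)) (log ((R : ℂ) ^ 2 - (starRingEnd ℂ) (ρ i) * 0))
    rw [Real.log_abs] at e1
    unfold CC
    linarith
  have h4 : ‖∑ i, lam i z - ∑ i, lam i 0‖ ≤
      n * CC a r R' R + ∑ i, |Real.log (z.im - (ρ i).im)| := by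
    rw [← Finset.sum_sub_distrib]
    refine (norm_sum_le _ _).trans ?_
    refine (Finset.sum_le_sum fun i _ => h3 i).trans ?_
    rw [Finset.sum_add_distrib, Finset.sum_const, Finset.card_univ, Fintype.card_fin,
      nsmul_eq_mul]
  rw [h2]
  calc ‖(∑ i, lam i z - ∑ i, lam i 0) + (ℓ z - ℓ 0)‖
      ≤ ‖∑ i, lam i z - ∑ i, lam i 0‖ + ‖ℓ z - ℓ 0‖ := norm_add_le _ _
    _ ≤ _ := by linarith [hℓb z hzr]

/-- division by a factor -/
lemma step {R' R R₁ M : ℝ} (h0 : 0 < R') (h1 : R' < R) (h2 : R < R₁) {F : ℂ → ℂ}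
    (hF : DifferentiableOn ℂ F (Metric.ball 0 R₁)) (hM : ∀ s : ℂ, ‖s‖ ≤ R → ‖F s‖ ≤ M) {ρ : ℂ}
    (hρ : ‖ρ‖ ≤ R') (hρ0 : ρ ≠ 0) (hFρ : F ρ = 0) :
    DifferentiableOn ℂ (fun s => dslope F ρ s * (((R : ℂ) ^ 2 - (starRingEnd ℂ) ρ * s) / R))
      (Metric.ball 0 R₁) ∧
    (∀ s : ℂ, ‖s‖ ≤ R → ‖dslope F ρ s * (((R : ℂ) ^ 2 - (starRingEnd ℂ) ρ * s) / R)‖ ≤ M) ∧
    ‖F 0‖ * (R / R') ≤ ‖dslope F ρ 0 * (((R : ℂ) ^ 2 - (starRingEnd ℂ) ρ * 0) / R)‖ := by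
  have hR : 0 < R := h0.trans h1
  have hRC : (R : ℂ) ≠ 0 := by exact_mod_cast hR.ne'
  have hρn : 0 < ‖ρ‖ := norm_pos_iff.2 hρ0
  have hds : ∀ s, (s - ρ) * dslope F ρ s = F s := by
    intro s
    have h3 := sub_smul_dslope F ρ s
    rw [hFρ, sub_zero, smul_eq_mul] at h3
    exact h3
  obtain ⟨F1, hF1⟩ : ∃ F1 : ℂ → ℂ, F1 = fun s => dslope F ρ s *
    (((R : ℂ) ^ 2 - (starRingEnd ℂ) ρ * s) / R) := ⟨_, rfl⟩
  have hdiff : DifferentiableOn ℂ F1 (Metric.ball 0 R₁) := by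
    rw [hF1]
    refine DifferentiableOn.mul ?_ ?_
    · refine (Complex.differentiableOn_dslope ?_).2 hF
      refine Metric.isOpen_ball.mem_nhds ?_
      rw [mem_ball_zero_iff]
      linarith
    · exact (((differentiable_const _).sub ((differentiable_const _).mul
        differentiable_id)).div_const _).differentiableOn
  have hbd : ∀ s : ℂ, ‖s‖ = R → ‖F1 s‖ ≤ M := by
    intro s hs
    have h3 : ‖F1 s‖ = ‖F s‖ := by
      rw [← hds s, hF1]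
      simp only [norm_mul, norm_div]
      rw [Factor.norm_den hs, Complex.norm_real, Real.norm_eq_abs, abs_of_pos hR]
      field_simp
    rw [h3]
    exact hM s hs.le
  have hM1 : ∀ s : ℂ, ‖s‖ ≤ R → ‖F1 s‖ ≤ M := by
    intro s hs
    refine Complex.norm_le_of_forall_mem_frontier_norm_le (U := Metric.ball 0 R)
      Metric.isBounded_ball ?_ ?_ ?_
    · apply DifferentiableOn.diffContOnCl
      rw [closure_ball _ hR.ne']
      exact hdiff.mono (Metric.closedBall_subset_ball h2)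
    · intro z hz
      rw [frontier_ball _ hR.ne', mem_sphere_zero_iff_norm] at hz
      exact hbd z hz
    · rw [closure_ball _ hR.ne', mem_closedBall_zero_iff]
      exact hs
  have h10 : ‖F1 0‖ = ‖F 0‖ * (R / ‖ρ‖) := by
    have h3 := hds 0
    rw [zero_sub] at h3
    have h4 := congrArg norm h3
    rw [norm_mul, norm_neg] at h4
    rw [← h4, hF1]
    simp only [mul_zero, sub_zero, norm_mul, norm_div, norm_pow, Complex.norm_real,
      Real.norm_eq_abs, abs_of_pos hR]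
    field_simp
  have h11 : ‖F 0‖ * (R / R') ≤ ‖F1 0‖ := by
    rw [h10]
    refine mul_le_mul_of_nonneg_left ?_ (norm_nonneg _)
    exact div_le_div_of_nonneg_left hR.le hρn hρ
  rw [hF1] at hdiff hM1 h11
  exact ⟨hdiff, hM1, h11⟩

/-- the relation after division -/
lemma rel_step {a R' R R₁ : ℝ} (h1 : R' < R) (h2 : R < R₁) {l F₁ F₂ : ℂ → ℂ}
    (hl : ∀ z : ℂ, -a < z.re → DifferentiableAt ℂ l z)
    (hF₁ : DifferentiableOn ℂ F₁ (Metric.ball 0 R₁)) (hF₂ : DifferentiableOn ℂ F₂ (Metric.ball 0 R₁))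
    (hrel : ∀ z ∈ Metric.ball (0 : ℂ) R₁, -a < z.re → exp (l z) * F₂ z = F₁ z) {ρ : ℂ}
    (hρ : ‖ρ‖ ≤ R') (hρa : -a < ρ.re) (hFρ : F₂ ρ = 0) :
    ∀ z ∈ Metric.ball (0 : ℂ) R₁, -a < z.re → exp (l z) * dslope F₂ ρ z = dslope F₁ ρ z := by
  have hρb : ρ ∈ Metric.ball (0 : ℂ) R₁ := by
    rw [mem_ball_zero_iff]
    linarith
  have hFρ1 : F₁ ρ = 0 := by rw [← hrel ρ hρb hρa, hFρ, mul_zero]
  intro z hz hza
  by_cases h : z = ρ
  · subst h
    rw [dslope_same, dslope_same]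
    have d2 : HasDerivAt F₂ (deriv F₂ z) z :=
      (hF₂.differentiableAt (Metric.isOpen_ball.mem_nhds hz)).hasDerivAt
    have d1 : HasDerivAt F₁ (deriv F₁ z) z :=
      (hF₁.differentiableAt (Metric.isOpen_ball.mem_nhds hz)).hasDerivAt
    have d3 := ((hl z hza).hasDerivAt.cexp).mul d2
    have hU : IsOpen (Metric.ball (0 : ℂ) R₁ ∩ {z | -a < z.re}) :=
      Metric.isOpen_ball.inter (isOpen_lt continuous_const continuous_re)
    have d4 : HasDerivAt F₁ (exp (l z) * deriv l z * F₂ z + exp (l z) * deriv F₂ z) z := by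
      refine d3.congr_of_eventuallyEq ?_
      filter_upwards [hU.mem_nhds ⟨hz, hza⟩] with w hw
      exact (hrel w hw.1 hw.2).symm
    have h3 := d1.unique d4
    rw [h3, hFρ, mul_zero, zero_add]
  · rw [dslope_of_ne _ h, dslope_of_ne _ h, slope_def_field, slope_def_field, hFρ, hFρ1,
      sub_zero, sub_zero, ← hrel z hz hza]
    ring

/-- **cancelling common zeros** -/
lemma cancel_aux {a R' R R₁ M : ℝ} (ha : 0 < a) (h0 : 0 < R') (h1 : R' < R) (h2 : R < R₁) {l : ℂ → ℂ}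
    (hl : ∀ z : ℂ, -a < z.re → DifferentiableAt ℂ l z) (N : ℕ) :
    ∀ F₁ F₂ : ℂ → ℂ, DifferentiableOn ℂ F₁ (Metric.ball 0 R₁) →
      DifferentiableOn ℂ F₂ (Metric.ball 0 R₁) →
      (∀ s : ℂ, ‖s‖ ≤ R → ‖F₁ s‖ ≤ M) → (∀ s : ℂ, ‖s‖ ≤ R → ‖F₂ s‖ ≤ M) →
      F₂ 0 ≠ 0 → M < ‖F₂ 0‖ * (R / R') ^ N →
      (∀ z ∈ Metric.ball (0 : ℂ) R₁, -a < z.re → exp (l z) * F₂ z = F₁ z) →
    ∃ g₁ g₂ : ℂ → ℂ, DifferentiableOn ℂ g₁ (Metric.ball 0 R₁) ∧
      DifferentiableOn ℂ g₂ (Metric.ball 0 R₁) ∧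
      (∀ s : ℂ, ‖s‖ ≤ R → ‖g₁ s‖ ≤ M) ∧ (∀ s : ℂ, ‖s‖ ≤ R → ‖g₂ s‖ ≤ M) ∧
      ‖F₂ 0‖ ≤ ‖g₂ 0‖ ∧ (∀ z : ℂ, ‖z‖ ≤ R' → -a < z.re → g₂ z ≠ 0) ∧
      ∀ z ∈ Metric.ball (0 : ℂ) R₁, -a < z.re → exp (l z) * g₂ z = g₁ z := by
  have hR : 0 < R := h0.trans h1
  induction N with
  | zero =>
    intro F₁ F₂ _ _ _ hM _ hN
    exfalso
    have h3 := hM 0 (by simpa using hR.le)
    rw [pow_zero, mul_one] at hN
    linarith
  | succ N ih =>
    intro F₁ F₂ hF₁ hF₂ hM₁ hM₂ hF0 hN hrel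
    by_cases hz : ∃ ρ : ℂ, ‖ρ‖ ≤ R' ∧ -a < ρ.re ∧ F₂ ρ = 0
    · obtain ⟨ρ, hρ, hρa, hFρ⟩ := hz
      have hρ0 : ρ ≠ 0 := by
        rintro rfl
        exact hF0 hFρ
      have hρb : ρ ∈ Metric.ball (0 : ℂ) R₁ := by
        rw [mem_ball_zero_iff]
        linarith
      have hFρ1 : F₁ ρ = 0 := by rw [← hrel ρ hρb hρa, hFρ, mul_zero]
      obtain ⟨a1, a2, a3⟩ := step h0 h1 h2 hF₁ hM₁ hρ hρ0 hFρ1
      obtain ⟨b1, b2, b3⟩ := step h0 h1 h2 hF₂ hM₂ hρ hρ0 hFρ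
      have hF00 : 0 < ‖F₂ 0‖ := norm_pos_iff.2 hF0
      have hq1 : 1 < R / R' := (one_lt_div h0).2 h1
      have hq : 0 < R / R' := by positivity
      obtain ⟨g₁, g₂, c1, c2, c3, c4, c5, c6, c7⟩ := ih _ _ a1 b1 a2 b2 (by
        rw [← norm_pos_iff]
        refine lt_of_lt_of_le ?_ b3
        positivity) (by
        refine hN.trans_le ?_
        rw [pow_succ', ← mul_assoc]
        exact mul_le_mul_of_nonneg_right b3 (pow_pos hq _).le) (by
        intro z hz hza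
        have h3 := rel_step h1 h2 hl hF₁ hF₂ hrel hρ hρa hFρ z hz hza
        rw [← mul_assoc, h3])
      refine ⟨g₁, g₂, c1, c2, c3, c4, ?_, c6, c7⟩
      refine le_trans (le_trans ?_ b3) c5
      nlinarith
    · push Not at hz
      exact ⟨F₁, F₂, hF₁, hF₂, hM₁, hM₂, le_rfl, hz, hrel⟩

/-- **the bound in the disc, for quotients** -/
lemma disc2 {a r R' R R₁ M m : ℝ} (ha : 1 ≤ a) (hr : a < r) (hrR' : r < R') (hR'R : R' < R)
    (hRR₁ : R < R₁) {f₁ f₂ l : ℂ → ℂ} (hf₁ : DifferentiableOn ℂ f₁ (Metric.ball 0 R₁))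
    (hf₂ : DifferentiableOn ℂ f₂ (Metric.ball 0 R₁))
    (hM₁ : ∀ s : ℂ, ‖s‖ ≤ R → ‖f₁ s‖ ≤ M) (hM₂ : ∀ s : ℂ, ‖s‖ ≤ R → ‖f₂ s‖ ≤ M)
    (hl : ∀ z : ℂ, -a < z.re → DifferentiableAt ℂ l z)
    (hexp : ∀ z : ℂ, -a < z.re → exp (l z) * f₂ z = f₁ z) (hm : ‖l 0‖ ≤ m) (hf0 : f₂ 0 ≠ 0)
    (hm₂ : -m ≤ Real.log ‖f₂ 0‖) :
    ∃ (n : ℕ) (γ : Fin n → ℝ), (n : ℝ) * Real.log (R / R') ≤ 2 * Real.log M + (3 * m + 1) ∧
      (∀ i, |γ i| ≤ R') ∧ ∀ z : ℂ, -a < z.re → ‖z‖ ≤ r → (∀ i, z.im ≠ γ i) →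
      ‖l z‖ ≤ (3 * m + 1) + 2 * r / (R' - r) * (2 * Real.log M + (3 * m + 1) + 1) +
        n * CC a r R' R + ∑ i, |Real.log (z.im - γ i)| := by
  have ha0 : 0 < a := by linarith
  have hr0 : 0 < r := by linarith
  have hR'0 : 0 < R' := by linarith
  have hR0 : 0 < R := by linarith
  have hm0 : 0 ≤ m := (norm_nonneg _).trans hm
  have hq1 : 1 < R / R' := (one_lt_div hR'0).2 hR'R
  have hF00 : 0 < ‖f₂ 0‖ := norm_pos_iff.2 hf0
  obtain ⟨N, hN⟩ := pow_unbounded_of_one_lt (M / ‖f₂ 0‖) hq1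
  rw [div_lt_iff₀ hF00, mul_comm] at hN
  obtain ⟨g₁, g₂, c1, c2, c3, c4, c5, c6, c7⟩ := cancel_aux ha0 hR'0 hR'R hRR₁ hl N f₁ f₂ hf₁ hf₂
    hM₁ hM₂ hf0 hN (fun z _ hza => hexp z hza)
  have h00 : -a < (0 : ℂ).re := by simpa using ha0
  have hball : ∀ z : ℂ, ‖z‖ ≤ R' → z ∈ Metric.ball (0 : ℂ) R₁ := fun z hz => by
    rw [mem_ball_zero_iff]
    linarith
  have hg1ne : ∀ z : ℂ, ‖z‖ ≤ R' → -a < z.re → g₁ z ≠ 0 := by
    intro z hz hza
    rw [← c7 z (hball z hz) hza]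
    exact mul_ne_zero (exp_ne_zero _) (c6 z hz hza)
  set U : Set ℂ := Metric.ball 0 R' ∩ {z | -a < z.re} with hU
  have hUo : IsOpen U := Metric.isOpen_ball.inter (isOpen_lt continuous_const continuous_re)
  have hUc : Convex ℝ U := (convex_ball (0 : ℂ) R').inter (convex_halfSpace_re_gt (-a))
  obtain ⟨l₂, hl₂d, hl₂⟩ := Pool.Agent.TH942.RZ.exists_log hUo hUc (Ψ := g₂)
    (c2.mono (inter_subset_left.trans (Metric.ball_subset_ball (by linarith))))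
    (fun z hz => c6 z (mem_ball_zero_iff.1 hz.1).le hz.2)
  have h0n : ‖(0 : ℂ)‖ ≤ R' := by simpa using hR'0.le
  have hlog2 : -m ≤ Real.log ‖g₂ 0‖ := hm₂.trans (Real.log_le_log hF00 c5)
  have hlog1 : -(2 * m) ≤ Real.log ‖g₁ 0‖ := by
    rw [← c7 0 (hball 0 h0n) h00, norm_mul, norm_exp, Real.log_mul (Real.exp_pos _).ne'
      (norm_ne_zero_iff.2 (c6 0 h0n h00)), Real.log_exp]
    have h3 := (abs_le.1 ((abs_re_le_norm (l 0)).trans hm)).1
    linarith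
  obtain ⟨n₁, γ₁, p1, p2, p3⟩ := disc1 (m := 2 * m) (l := fun z => l z + l₂ z) ha hr hrR' hR'R hRR₁ c1
    c3 hg1ne (fun z hz hza => (hl z hza).add (hl₂d z ⟨mem_ball_zero_iff.2 hz, hza⟩).differentiableAt)
    (fun z hz hza => by
      rw [exp_add, hl₂ z ⟨mem_ball_zero_iff.2 hz, hza⟩, c7 z (hball z hz.le) hza]) hlog1
  obtain ⟨n₂, γ₂, q1, q2, q3⟩ := disc1 (m := m) (l := l₂) ha hr hrR' hR'R hRR₁ c2 c4 c6
    (fun z hz hza => (hl₂d z ⟨mem_ball_zero_iff.2 hz, hza⟩).differentiableAt)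
    (fun z hz hza => hl₂ z ⟨mem_ball_zero_iff.2 hz, hza⟩) hlog2
  refine ⟨n₁ + n₂, Fin.append γ₁ γ₂, ?_, ?_, ?_⟩
  · push_cast
    linarith
  · intro i
    refine Fin.addCases (fun j => ?_) (fun j => ?_) i
    · rw [Fin.append_left]
      exact p2 j
    · rw [Fin.append_right]
      exact q2 j
  · intro z hza hzr hzγ
    have e1 := p3 z hza hzr (fun i => by
      have := hzγ (Fin.castAdd n₂ i)
      rwa [Fin.append_left] at this)
    have e2 := q3 z hza hzr (fun i => by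
      have := hzγ (Fin.natAdd n₁ i)
      rwa [Fin.append_right] at this)
    rw [Fin.sum_univ_add]
    simp only [Fin.append_left, Fin.append_right]
    have e3 : l z = l 0 + ((l z + l₂ z) - (l 0 + l₂ 0)) - (l₂ z - l₂ 0) := by ring
    have e4 : ‖l z‖ ≤ ‖l 0‖ + ‖(l z + l₂ z) - (l 0 + l₂ 0)‖ + ‖l₂ z - l₂ 0‖ := by
      conv_lhs => rw [e3]
      exact (norm_sub_le _ _).trans (add_le_add_left (norm_add_le _ _) _)
    have hq0 : 0 ≤ 2 * r / (R' - r) := div_nonneg (by linarith) (by linarith)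
    push_cast
    nlinarith

end Pool.Agent.V11288.QU
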