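import Pool.Agent.V11288.QU.Line
import Pool.Agent.V11288.HS.Pole3

/-!
# Quotients: Dirichlet series over the integers, and the Riemann zeta function
-/

set_option autoImplicit false

open MeasureTheory Filter Topology Set Complex
open scoped ENNReal ComplexConjugate
open Pool.Agent.V11288.HS (zeta1 zeta1_growth zeta_entire)

namespace Pool.Agent.V11288.QU.Zt

/-- the integers `n ≥ 2` -/
abbrev J : Type := {n : ℕ // 2 ≤ n}

/-- `log n` -/
noncomputable def lam (n : J) : ℝ := Real.log (n.1 : ℝ)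

theorem pos (n : J) : (0 : ℝ) < (n.1 : ℝ) := by
  have := n.2
  exact_mod_cast (by omega : 0 < n.1)

theorem lam_ge (n : J) : Real.log 2 ≤ lam n := by
  unfold lam
  have : (2 : ℝ) ≤ n.1 := by exact_mod_cast n.2
  exact Real.log_le_log (by norm_num) this

theorem cp (n : J) (s : ℂ) : exp (-(s * lam n)) = (n.1 : ℂ) ^ (-s) := by
  have h0 := pos n
  have hc : (n.1 : ℂ) ≠ 0 := by exact_mod_cast h0.ne'
  have hl : Complex.log (n.1 : ℂ) = (lam n : ℂ) := by
    unfold lam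
    rw [Complex.ofReal_log h0.le]
    push_cast
    rfl
  rw [Complex.cpow_def_of_ne_zero hc, hl]
  congr 1
  ring

theorem norm_cp (n : J) (s : ℂ) : ‖(n.1 : ℂ) ^ (-s)‖ = (n.1 : ℝ) ^ (-s.re) := by
  have h0 : 0 < n.1 := by
    have := n.2
    omega
  rw [Complex.norm_natCast_cpow_of_pos h0, Complex.neg_re]

/-- coefficients of polynomial growth -/
theorem ser {c : J → ℂ} {C θ : ℝ} (h : ∀ n, ‖c n‖ ≤ C * (n.1 : ℝ) ^ θ) : Ser lam c := by
  refine ⟨inferInstance, ⟨Real.log 2, Real.log_pos (by norm_num), lam_ge⟩, θ + 2, ?_⟩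
  have h1 : Summable fun n : ℕ => (n : ℝ) ^ (-(2 : ℝ)) := Real.summable_nat_rpow.2 (by norm_num)
  have h2 : Summable fun n : J => C * (n.1 : ℝ) ^ (-(2 : ℝ)) := (h1.subtype _).mul_left C
  refine Summable.of_nonneg_of_le (fun n => by positivity) (fun n => ?_) h2
  have h0 := pos n
  have h3 : Real.exp (-((θ + 2) * lam n)) = (n.1 : ℝ) ^ (-(θ + 2)) := by
    rw [Real.rpow_def_of_pos h0]
    congr 1
    unfold lam
    ring
  rw [h3]
  calc ‖c n‖ * (n.1 : ℝ) ^ (-(θ + 2)) ≤ C * (n.1 : ℝ) ^ θ * (n.1 : ℝ) ^ (-(θ + 2)) := by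
        gcongr
        exact h n
    _ = _ := by
      rw [mul_assoc, ← Real.rpow_add h0]
      congr 2
      ring

/-- the partial sums -/
theorem lA_eq (g : ℕ → ℂ) (σ t : ℝ) {Y : ℝ} (hY : 1 < Y) (h1 : g 1 = 0) :
    lA lam (fun n : J => g n.1) σ t Y =
      ∑ n ∈ Finset.Icc 1 ⌊Y⌋₊, (g n * (n : ℂ) ^ (-((σ : ℂ) + t * I))).re := by
  have hY0 : 0 < Y := by linarith
  unfold lA
  simp only [cp]
  have e1 : ∀ n : J, (if lam n ≤ Real.log Y then (g n.1 * (n.1 : ℂ) ^ (-((σ : ℂ) + t * I))).re else 0) =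
      (fun m : ℕ => if (m : ℝ) ≤ Y then (g m * (m : ℂ) ^ (-((σ : ℂ) + t * I))).re else 0) n.1 := by
    intro n
    have h0 := pos n
    have : lam n ≤ Real.log Y ↔ (n.1 : ℝ) ≤ Y := by
      unfold lam
      exact Real.log_le_log_iff h0 hY0
    simp only [this]
  simp only [e1]
  refine (tsum_subtype {n : ℕ | 2 ≤ n}
    (fun m : ℕ => if (m : ℝ) ≤ Y then (g m * (m : ℂ) ^ (-((σ : ℂ) + t * I))).re else 0)).trans ?_
  rw [tsum_eq_sum (s := Finset.Icc 1 ⌊Y⌋₊)]
  · refine Finset.sum_congr rfl fun n hn => ?_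
    rw [Finset.mem_Icc] at hn
    have h2 : (n : ℝ) ≤ Y := (Nat.le_floor_iff hY0.le).1 hn.2
    by_cases h3 : 2 ≤ n
    · rw [indicator_of_mem (show n ∈ {n : ℕ | 2 ≤ n} from h3), if_pos h2]
    · rw [indicator_of_notMem (show n ∉ {n : ℕ | 2 ≤ n} from h3)]
      have h4 : n = 1 := by omega
      rw [h4, h1, zero_mul, Complex.zero_re]
  · intro n hn
    by_cases h3 : 2 ≤ n
    · rw [indicator_of_mem (show n ∈ {n : ℕ | 2 ≤ n} from h3), if_neg]
      intro h2
      apply hn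
      rw [Finset.mem_Icc]
      exact ⟨by omega, (Nat.le_floor_iff hY0.le).2 h2⟩
    · rw [indicator_of_notMem (show n ∉ {n : ℕ | 2 ≤ n} from h3)]

/-- `Λ(n)/log n` -/
noncomputable def kap (n : ℕ) : ℂ := ((ArithmeticFunction.vonMangoldt n / Real.log n : ℝ) : ℂ)

theorem kap_le (n : J) : ‖kap n.1‖ ≤ 1 * (n.1 : ℝ) ^ (0 : ℝ) := by
  have h1 : 0 < Real.log (n.1 : ℝ) := Real.log_pos (by
    have : (2 : ℝ) ≤ n.1 := by exact_mod_cast n.2
    linarith)
  unfold kap
  rw [Complex.norm_real, Real.norm_eq_abs, Real.rpow_zero, mul_one,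
    abs_of_nonneg (div_nonneg ArithmeticFunction.vonMangoldt_nonneg h1.le), div_le_one h1]
  exact ArithmeticFunction.vonMangoldt_le_log

theorem summ {c : J → ℂ} {C θ : ℝ} (h : ∀ n, ‖c n‖ ≤ C * (n.1 : ℝ) ^ θ) {s : ℂ} (hs : θ + 1 < s.re) :
    Summable fun n : J => c n * exp (-(s * lam n)) := by
  refine Summable.of_norm ?_
  have h1 : Summable fun n : ℕ => (n : ℝ) ^ (θ - s.re) := Real.summable_nat_rpow.2 (by linarith)
  have h2 : Summable fun n : J => C * (n.1 : ℝ) ^ (θ - s.re) := (h1.subtype _).mul_left C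
  refine Summable.of_nonneg_of_le (fun n => norm_nonneg _) (fun n => ?_) h2
  have h0 := pos n
  rw [cp, norm_mul, norm_cp]
  calc ‖c n‖ * (n.1 : ℝ) ^ (-s.re) ≤ C * (n.1 : ℝ) ^ θ * (n.1 : ℝ) ^ (-s.re) := by
        gcongr
        exact h n
    _ = _ := by
      rw [mul_assoc, ← Real.rpow_add h0]
      congr 2

/-- the logarithm of the zeta function -/
theorem log_zeta {s : ℂ} (hs : 1 < s.re) :
    exp (∑' n : J, kap n.1 * exp (-(s * lam n))) = riemannZeta s := by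
  rw [← riemannZeta_eulerProduct_exp_log hs]
  congr 1
  have e1 : ∑' n : J, kap n.1 * exp (-(s * lam n)) =
      ∑' n : ℕ, kap n * (n : ℂ) ^ (-s) := by
    simp only [cp]
    refine (tsum_subtype {n : ℕ | 2 ≤ n} (fun m : ℕ => kap m * (m : ℂ) ^ (-s))).trans ?_
    refine tsum_congr fun n => ?_
    by_cases h3 : 2 ≤ n
    · rw [indicator_of_mem (show n ∈ {n : ℕ | 2 ≤ n} from h3)]
    · rw [indicator_of_notMem (show n ∉ {n : ℕ | 2 ≤ n} from h3)]
      have h4 : n = 0 ∨ n = 1 := by omega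
      rcases h4 with rfl | rfl
      · simp [kap]
      · simp [kap]
  have hsum : Summable fun n : ℕ => kap n * (n : ℂ) ^ (-s) := by
    have h1 := summ (c := fun n : J => kap n.1) kap_le (s := s) (by simpa using hs)
    simp only [cp] at h1
    have h2 := (summable_subtype_iff_indicator (s := {n : ℕ | 2 ≤ n})
      (f := fun m : ℕ => kap m * (m : ℂ) ^ (-s))).1 h1
    refine h2.congr fun n => ?_
    by_cases h3 : 2 ≤ n
    · rw [indicator_of_mem (show n ∈ {n : ℕ | 2 ≤ n} from h3)]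
    · rw [indicator_of_notMem (show n ∉ {n : ℕ | 2 ≤ n} from h3)]
      have h4 : n = 0 ∨ n = 1 := by omega
      rcases h4 with rfl | rfl
      · simp [kap]
      · simp [kap]
  rw [e1, tsum_eq_tsum_primes_of_support_subset_prime_powers hsum]
  · refine tsum_congr fun p => ?_
    have hp : (1 : ℝ) < ((p : ℕ) : ℝ) := by exact_mod_cast p.2.one_lt
    have hp0 : (0 : ℝ) < ((p : ℕ) : ℝ) := by linarith
    have hx : ‖((p : ℕ) : ℂ) ^ (-s)‖ < 1 := by
      have : ‖((p : ℕ) : ℂ) ^ (-s)‖ = ((p : ℕ) : ℝ) ^ (-s.re) := by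
        rw [← Complex.neg_re, ← Complex.norm_cpow_eq_rpow_re_of_pos hp0]
        norm_cast
      rw [this]
      exact Real.rpow_lt_one_of_one_lt_of_neg hp (by linarith)
    have h1 := Complex.hasSum_taylorSeries_neg_log hx
    have h2 := (hasSum_nat_add_iff' 1).2 h1
    simp only [Finset.range_one, Finset.sum_singleton, pow_zero, Nat.cast_zero, div_zero, sub_zero] at h2
    rw [← h2.tsum_eq]
    refine tsum_congr fun k => ?_
    have hk : kap ((p : ℕ) ^ (k + 1)) = 1 / ((k : ℂ) + 1) := by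
      have hl : Real.log ((p : ℕ) : ℝ) ≠ 0 := (Real.log_pos hp).ne'
      have e3 : ArithmeticFunction.vonMangoldt ((p : ℕ) ^ (k + 1)) /
          Real.log (((p : ℕ) ^ (k + 1) : ℕ) : ℝ) = 1 / ((k : ℝ) + 1) := by
        rw [ArithmeticFunction.vonMangoldt_apply_pow (Nat.succ_ne_zero k),
          ArithmeticFunction.vonMangoldt_apply_prime p.2, Nat.cast_pow, Real.log_pow]
        push_cast
        field_simp
      unfold kap
      rw [e3]
      push_cast
      rfl
    rw [hk]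
    have e4 : (((p : ℕ) ^ (k + 1) : ℕ) : ℂ) ^ (-s) = (((p : ℕ) : ℂ) ^ (-s)) ^ (k + 1) := by
      push_cast
      rw [← Complex.cpow_nat_mul, ← Complex.natCast_cpow_natCast_mul, mul_comm]
    rw [e4]
    push_cast
    ring
  · intro n hn
    rw [Function.mem_support] at hn
    by_contra h
    apply hn
    have h5 : ArithmeticFunction.vonMangoldt n = 0 := by
      rw [ArithmeticFunction.vonMangoldt_eq_zero_iff]
      exact h
    simp [kap, h5]

/-- the function `(s - 1) ζ(s)` is not small -/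
theorem zeta1_low : ∃ c : ℝ, 0 < c ∧ ∀ s : ℂ, 2 < s.re → c ≤ ‖zeta1 s‖ := by
  have hS : Summable fun n : J => ‖kap n.1‖ * (n.1 : ℝ) ^ (-(2 : ℝ)) := by
    have h1 : Summable fun n : ℕ => (n : ℝ) ^ (-(2 : ℝ)) := Real.summable_nat_rpow.2 (by norm_num)
    refine Summable.of_nonneg_of_le (fun n => by positivity) (fun n => ?_) (h1.subtype {n : ℕ | 2 ≤ n})
    have h2 := kap_le n
    rw [Real.rpow_zero, mul_one] at h2
    have h3 : (0 : ℝ) ≤ (n.1 : ℝ) ^ (-(2 : ℝ)) := by positivity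
    calc ‖kap n.1‖ * (n.1 : ℝ) ^ (-(2 : ℝ)) ≤ 1 * (n.1 : ℝ) ^ (-(2 : ℝ)) := by gcongr
      _ = _ := one_mul _
  refine ⟨Real.exp (-∑' n : J, ‖kap n.1‖ * (n.1 : ℝ) ^ (-(2 : ℝ))), Real.exp_pos _, fun s hs => ?_⟩
  have h1 : s ≠ 1 := by
    rintro rfl
    norm_num at hs
  unfold zeta1
  rw [Function.update_of_ne h1, norm_mul, ← log_zeta (by linarith), Complex.norm_exp]
  have h2 : 1 ≤ ‖s - 1‖ := by
    have := Complex.abs_re_le_norm (s - 1)
    rw [Complex.sub_re, Complex.one_re] at this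
    have h3 := le_abs_self (s.re - 1)
    linarith
  have h3 : -∑' n : J, ‖kap n.1‖ * (n.1 : ℝ) ^ (-(2 : ℝ)) ≤
      (∑' n : J, kap n.1 * exp (-(s * lam n))).re := by
    have h4 : ‖∑' n : J, kap n.1 * exp (-(s * lam n))‖ ≤
        ∑' n : J, ‖kap n.1‖ * (n.1 : ℝ) ^ (-(2 : ℝ)) := by
      refine tsum_of_norm_bounded hS.hasSum fun n => ?_
      have h0 := pos n
      rw [cp, norm_mul, norm_cp]
      have h5 : (n.1 : ℝ) ^ (-s.re) ≤ (n.1 : ℝ) ^ (-(2 : ℝ)) :=
        Real.rpow_le_rpow_of_exponent_le (by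
          have : (2 : ℝ) ≤ n.1 := by exact_mod_cast n.2
          linarith) (by linarith)
      gcongr
    have h6 := (abs_le.1 (Complex.abs_re_le_norm (∑' n : J, kap n.1 * exp (-(s * lam n))))).1
    linarith
  calc Real.exp (-∑' n : J, ‖kap n.1‖ * (n.1 : ℝ) ^ (-(2 : ℝ))) ≤
        Real.exp (∑' n : J, kap n.1 * exp (-(s * lam n))).re := Real.exp_le_exp.2 h3
    _ = 1 * Real.exp (∑' n : J, kap n.1 * exp (-(s * lam n))).re := (one_mul _).symm
    _ ≤ _ := by gcongr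

end Pool.Agent.V11288.QU.Zt
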